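import Mathlib
import Pool.Agent.Helper70.BLB.TLMonoid

/-!
Temperley-Lieb words with additional operators `U a b` acting on the state of the leftmost region
(matrix units between finitely many pinned states): Jones normal form and sandwich.
-/

set_option autoImplicit false

namespace Pool.Agent.Helper35.DInf

open Pool.Agent.Helper70.BLB

/-- Temperley-Lieb relations together with matrix units `U a b` at the left boundary. -/
structure TLURel {M : Type*} [MonoidWithZero M] {A : Type} (d : M) (e : ℕ → M)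
    (U : A → A → M) : Prop extends TLRel d e where
  dU : ∀ a b, d * U a b = U a b * d
  UU : ∀ a b c, U a b * U b c = U a c
  UU0 : ∀ a b c f, b ≠ c → U a b * U c f = 0
  Ue : ∀ a b i, 2 ≤ i → U a b * e i = e i * U a b
  eUe : ∀ a b, a ≠ b → e 1 * U a b * e 1 = 0
  Ue1 : ∀ a, U a a * e 1 = e 1 * U a a

variable {M : Type*} [MonoidWithZero M] {A : Type} {d : M} {e : ℕ → M} {U : A → A → M}

/-- The submonoid generated by `0`, `d`, the `U a b` and `e 1, ..., e k`. -/
def TLB (d : M) (e : ℕ → M) (U : A → A → M) (k : ℕ) : Submonoid M :=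
  Submonoid.closure ({0} ∪ {d} ∪ {x | ∃ a b, x = U a b} ∪ {x | ∃ i, 1 ≤ i ∧ i ≤ k ∧ x = e i})

theorem zero_mem_TLB (k : ℕ) : (0 : M) ∈ TLB d e U k :=
  Submonoid.subset_closure (Or.inl (Or.inl (Or.inl rfl)))

theorem d_mem_TLB (k : ℕ) : d ∈ TLB d e U k :=
  Submonoid.subset_closure (Or.inl (Or.inl (Or.inr rfl)))

theorem U_mem_TLB (a b : A) (k : ℕ) : U a b ∈ TLB d e U k :=
  Submonoid.subset_closure (Or.inl (Or.inr ⟨a, b, rfl⟩))

theorem e_mem_TLB {i k : ℕ} (h1 : 1 ≤ i) (h2 : i ≤ k) : e i ∈ TLB d e U k :=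
  Submonoid.subset_closure (Or.inr ⟨i, h1, h2, rfl⟩)

theorem TLB_mono {k l : ℕ} (h : k ≤ l) : TLB d e U k ≤ TLB d e U l := by
  apply Submonoid.closure_mono
  rintro x (hx | ⟨i, h1, h2, rfl⟩)
  · exact Or.inl hx
  · exact Or.inr ⟨i, h1, h2.trans h, rfl⟩

theorem TLURel.d_comm_mem (H : TLURel d e U) {k : ℕ} {w : M} (hw : w ∈ TLB d e U k) :
    d * w = w * d := by
  induction hw using Submonoid.closure_induction with
  | mem x hx =>
    rcases hx with ((hx | hx) | ⟨a, b, rfl⟩) | ⟨i, _, _, rfl⟩
    · rw [Set.mem_singleton_iff.1 hx]; simp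
    · rw [Set.mem_singleton_iff.1 hx]
    · exact H.dU a b
    · exact H.dcomm i
  | one => simp
  | mul x y _ _ hx hy => rw [← mul_assoc, hx, mul_assoc, hy, mul_assoc]

theorem TLURel.comm_mem (H : TLURel d e U) {k j : ℕ} (hkj : k + 2 ≤ j) {w : M}
    (hw : w ∈ TLB d e U k) : w * e j = e j * w := by
  induction hw using Submonoid.closure_induction with
  | mem x hx =>
    rcases hx with ((hx | hx) | ⟨a, b, rfl⟩) | ⟨i, h1, h2, rfl⟩
    · rw [Set.mem_singleton_iff.1 hx]; simp
    · rw [Set.mem_singleton_iff.1 hx]; exact H.dcomm j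
    · exact H.Ue a b j (by omega)
    · exact H.comm i j h1 (by omega)
  | one => simp
  | mul x y _ _ hx hy => rw [mul_assoc, hy, ← mul_assoc, hx, mul_assoc]

/-- Elements of level zero. -/
theorem TLURel.mem_zero (H : TLURel d e U) {w : M} (hw : w ∈ TLB d e U 0) :
    w = 0 ∨ (∃ j : ℕ, w = d ^ j) ∨ ∃ (j : ℕ) (a b : A), w = d ^ j * U a b := by
  have hdU : ∀ (l : ℕ) (a b : A), U a b * d ^ l = d ^ l * U a b := by
    intro l a b
    have : Commute d (U a b) := H.dU a b
    exact ((this.pow_left l).symm)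
  induction hw using Submonoid.closure_induction with
  | mem x hx =>
    rcases hx with ((hx | hx) | ⟨a, b, rfl⟩) | ⟨i, h1, h2, rfl⟩
    · left; exact Set.mem_singleton_iff.1 hx
    · right; left; exact ⟨1, by rw [Set.mem_singleton_iff.1 hx, pow_one]⟩
    · right; right; exact ⟨0, a, b, by simp⟩
    · omega
  | one => right; left; exact ⟨0, by simp⟩
  | mul x y _ _ hx hy =>
    rcases hx with rfl | ⟨j, rfl⟩ | ⟨j, a, b, rfl⟩
    · left; simp
    · rcases hy with rfl | ⟨l, rfl⟩ | ⟨l, a, b, rfl⟩
      · left; simp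
      · right; left; exact ⟨j + l, by rw [pow_add]⟩
      · right; right; exact ⟨j + l, a, b, by rw [pow_add, mul_assoc]⟩
    · rcases hy with rfl | ⟨l, rfl⟩ | ⟨l, a', b', rfl⟩
      · left; simp
      · right; right; exact ⟨j + l, a, b, by rw [mul_assoc, hdU, ← mul_assoc, pow_add]⟩
      · by_cases h : b = a'
        · subst h
          right; right
          refine ⟨j + l, a, b', ?_⟩
          calc d ^ j * U a b * (d ^ l * U b b') = d ^ j * (U a b * d ^ l) * U b b' := by
                simp only [mul_assoc]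
            _ = d ^ j * (d ^ l * U a b) * U b b' := by rw [hdU]
            _ = d ^ j * d ^ l * (U a b * U b b') := by simp only [mul_assoc]
            _ = d ^ (j + l) * U a b' := by rw [H.UU, pow_add]
        · left
          calc d ^ j * U a b * (d ^ l * U a' b') = d ^ j * (U a b * d ^ l) * U a' b' := by
                simp only [mul_assoc]
            _ = d ^ j * (d ^ l * U a b) * U a' b' := by rw [hdU]
            _ = d ^ j * d ^ l * (U a b * U a' b') := by simp only [mul_assoc]
            _ = 0 := by rw [H.UU0 _ _ _ _ h, mul_zero]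

/-- A level zero element between two copies of `e 1`. -/
theorem TLURel.e_zero_e (H : TLURel d e U) {w : M} (hw : w ∈ TLB d e U 0) :
    ∃ z ∈ TLB d e U 0, e 1 * w * e 1 = z * e 1 := by
  have hde : ∀ l : ℕ, e 1 * d ^ l = d ^ l * e 1 := fun l =>
    (show Commute (e 1) d from (H.dcomm 1).symm).pow_right l
  have hs : e 1 * e 1 = d * e 1 := H.sq 1 le_rfl
  rcases H.mem_zero hw with rfl | ⟨j, rfl⟩ | ⟨j, a, b, rfl⟩
  · exact ⟨0, zero_mem_TLB 0, by simp⟩
  · refine ⟨d ^ (j + 1), pow_mem (d_mem_TLB 0) _, ?_⟩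
    rw [hde, mul_assoc, hs, pow_succ, mul_assoc]
  · by_cases h : a = b
    · subst h
      refine ⟨d ^ j * U a a * d, mul_mem (mul_mem (pow_mem (d_mem_TLB 0) _)
        (U_mem_TLB a a 0)) (d_mem_TLB 0), ?_⟩
      calc e 1 * (d ^ j * U a a) * e 1 = (e 1 * d ^ j) * U a a * e 1 := by
            simp only [mul_assoc]
        _ = (d ^ j * e 1) * U a a * e 1 := by rw [hde]
        _ = d ^ j * (e 1 * U a a) * e 1 := by simp only [mul_assoc]
        _ = d ^ j * (U a a * e 1) * e 1 := by rw [H.Ue1]
        _ = d ^ j * U a a * (e 1 * e 1) := by simp only [mul_assoc]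
        _ = d ^ j * U a a * (d * e 1) := by rw [hs]
        _ = d ^ j * U a a * d * e 1 := by simp only [mul_assoc]
    · refine ⟨0, zero_mem_TLB 0, ?_⟩
      calc e 1 * (d ^ j * U a b) * e 1 = (e 1 * d ^ j) * U a b * e 1 := by
            simp only [mul_assoc]
        _ = (d ^ j * e 1) * U a b * e 1 := by rw [hde]
        _ = d ^ j * (e 1 * U a b * e 1) := by simp only [mul_assoc]
        _ = 0 * e 1 := by rw [H.eUe _ _ h, mul_zero, zero_mul]

/-- Jones normal form with boundary operators. -/
theorem TLURel.jones (H : TLURel d e U) : ∀ (k : ℕ) (w : M), w ∈ TLB d e U (k + 1) →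
    w ∈ TLB d e U k ∨ ∃ a ∈ TLB d e U k, ∃ b ∈ TLB d e U k, w = a * e (k + 1) * b := by
  intro k
  induction k with
  | zero =>
    intro w hw
    induction hw using Submonoid.closure_induction_right with
    | one => exact Or.inl (one_mem _)
    | mul_right x hx y hy ih =>
      rcases hy with hy | ⟨i, h1, h2, rfl⟩
      · have hy' : y ∈ TLB d e U 0 := Submonoid.subset_closure (Or.inl hy)
        rcases ih with ih | ⟨a, ha, b, hb, rfl⟩
        · exact Or.inl (mul_mem ih hy')
        · exact Or.inr ⟨a, ha, b * y, mul_mem hb hy', by simp only [mul_assoc]⟩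
      · have hi : i = 1 := by omega
        subst hi
        rcases ih with ih | ⟨a, ha, b, hb, rfl⟩
        · exact Or.inr ⟨x, ih, 1, one_mem _, by simp⟩
        · obtain ⟨z, hz, hez⟩ := H.e_zero_e hb
          refine Or.inr ⟨a * z, mul_mem ha hz, 1, one_mem _, ?_⟩
          calc a * e (0 + 1) * b * e 1 = a * (e 1 * b * e 1) := by
                simp only [mul_assoc, zero_add]
            _ = a * z * e (0 + 1) * 1 := by rw [hez]; simp only [mul_assoc, mul_one, zero_add]
  | succ k IH =>
    intro w hw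
    induction hw using Submonoid.closure_induction_right with
    | one => exact Or.inl (one_mem _)
    | mul_right x hx y hy ih =>
      rcases hy with hy | ⟨i, h1, h2, rfl⟩
      · have hy' : y ∈ TLB d e U (k + 1) := Submonoid.subset_closure (Or.inl hy)
        rcases ih with ih | ⟨a, ha, b, hb, rfl⟩
        · exact Or.inl (mul_mem ih hy')
        · exact Or.inr ⟨a, ha, b * y, mul_mem hb hy', by simp only [mul_assoc]⟩
      · by_cases hi : i = k + 1 + 1
        · subst hi
          rcases ih with ih | ⟨a, ha, b, hb, rfl⟩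
          · exact Or.inr ⟨x, ih, 1, one_mem _, by simp⟩
          · rcases IH b hb with hb' | ⟨b1, hb1, b2, hb2, rfl⟩
            · refine Or.inr ⟨a * b * d, mul_mem (mul_mem ha hb) (d_mem_TLB _), 1, one_mem _, ?_⟩
              have hc := H.comm_mem (j := k + 1 + 1) (by omega) hb'
              have hs : e (k + 1 + 1) * e (k + 1 + 1) = d * e (k + 1 + 1) :=
                H.sq _ (by omega)
              calc a * e (k + 1 + 1) * b * e (k + 1 + 1)
                  = a * e (k + 1 + 1) * (b * e (k + 1 + 1)) := by simp only [mul_assoc]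
                _ = a * e (k + 1 + 1) * (e (k + 1 + 1) * b) := by rw [hc]
                _ = a * (e (k + 1 + 1) * e (k + 1 + 1)) * b := by simp only [mul_assoc]
                _ = a * (d * e (k + 1 + 1)) * b := by rw [hs]
                _ = a * d * (e (k + 1 + 1) * b) := by simp only [mul_assoc]
                _ = a * d * (b * e (k + 1 + 1)) := by rw [hc]
                _ = a * (d * b) * e (k + 1 + 1) := by simp only [mul_assoc]
                _ = a * (b * d) * e (k + 1 + 1) := by rw [H.d_comm_mem hb]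
                _ = a * b * d * e (k + 1 + 1) * 1 := by simp only [mul_assoc, mul_one]
            · refine Or.inr ⟨a * b1, mul_mem ha (TLB_mono (Nat.le_succ _) hb1), b2,
                TLB_mono (Nat.le_succ _) hb2, ?_⟩
              have hc1 := H.comm_mem (j := k + 1 + 1) (by omega) hb1
              have hc2 := H.comm_mem (j := k + 1 + 1) (by omega) hb2
              have hs : e (k + 1 + 1) * e (k + 1) * e (k + 1 + 1) = e (k + 1 + 1) :=
                H.down _ (by omega)
              calc a * e (k + 1 + 1) * (b1 * e (k + 1) * b2) * e (k + 1 + 1)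
                  = a * (e (k + 1 + 1) * b1) * e (k + 1) * (b2 * e (k + 1 + 1)) := by
                    simp only [mul_assoc]
                _ = a * (b1 * e (k + 1 + 1)) * e (k + 1) * (e (k + 1 + 1) * b2) := by
                    rw [hc1, hc2]
                _ = a * b1 * (e (k + 1 + 1) * e (k + 1) * e (k + 1 + 1)) * b2 := by
                    simp only [mul_assoc]
                _ = a * b1 * e (k + 1 + 1) * b2 := by rw [hs]
        · have hi' : i ≤ k + 1 := by omega
          rcases ih with ih | ⟨a, ha, b, hb, rfl⟩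
          · exact Or.inl (mul_mem ih (e_mem_TLB h1 hi'))
          · exact Or.inr ⟨a, ha, b * e i, mul_mem hb (e_mem_TLB h1 hi'), by
              simp only [mul_assoc]⟩

theorem TLX_mem_TLB : ∀ k : ℕ, TLX e k ∈ TLB d e U k
  | 0 => one_mem _
  | 1 => e_mem_TLB le_rfl le_rfl
  | (k + 2) => mul_mem (e_mem_TLB (by omega) le_rfl) (TLB_mono (by omega) (TLX_mem_TLB k))

theorem TLURel.sandwich (H : TLURel d e U) {k : ℕ} {w : M} (hw : w ∈ TLB d e U (k + 1)) :
    ∃ w' ∈ TLB d e U k, e (k + 2) * w * e (k + 2) = w' * e (k + 2) := by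
  rcases H.jones k w hw with hw' | ⟨a, ha, b, hb, rfl⟩
  · refine ⟨w * d, mul_mem hw' (d_mem_TLB _), ?_⟩
    rw [← H.comm_mem (j := k + 2) (by omega) hw', mul_assoc, H.sq _ (by omega), mul_assoc]
  · refine ⟨a * b, mul_mem ha hb, ?_⟩
    have hca := H.comm_mem (j := k + 2) (by omega) ha
    have hcb := H.comm_mem (j := k + 2) (by omega) hb
    have hs : e (k + 2) * e (k + 1) * e (k + 2) = e (k + 2) := H.down _ (by omega)
    calc e (k + 2) * (a * e (k + 1) * b) * e (k + 2)
        = (e (k + 2) * a) * e (k + 1) * (b * e (k + 2)) := by simp only [mul_assoc]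
      _ = (a * e (k + 2)) * e (k + 1) * (e (k + 2) * b) := by rw [hca, hcb]
      _ = a * (e (k + 2) * e (k + 1) * e (k + 2)) * b := by simp only [mul_assoc]
      _ = a * (e (k + 2) * b) := by rw [hs, mul_assoc]
      _ = a * b * e (k + 2) := by rw [← hcb, mul_assoc]

theorem TLURel.sandwich' (H : TLURel d e U) {k : ℕ} {w : M} (hw : w ∈ TLB d e U (k + 2)) :
    ∃ w' ∈ TLB d e U k, e (k + 2) * w * e (k + 2) = w' * e (k + 2) := by
  rcases H.jones (k + 1) w hw with hw' | ⟨a, ha, b, hb, rfl⟩
  · exact H.sandwich hw'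
  · obtain ⟨a', ha', h1⟩ := H.sandwich ha
    obtain ⟨b', hb', h2⟩ := H.sandwich hb
    refine ⟨a' * b', mul_mem ha' hb', ?_⟩
    calc e (k + 2) * (a * e (k + 1 + 1) * b) * e (k + 2)
        = (e (k + 2) * a * e (k + 2)) * b * e (k + 2) := by simp only [mul_assoc]
      _ = a' * (e (k + 2) * b * e (k + 2)) := by rw [h1]; simp only [mul_assoc]
      _ = a' * b' * e (k + 2) := by rw [h2]; simp only [mul_assoc]

/-- Every word sandwiched between `TLX (2 m)` is a level zero element times `TLX (2 m)`. -/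
theorem TLURel.sandwich_X (H : TLURel d e U) : ∀ (m : ℕ) (w : M), w ∈ TLB d e U (2 * m) →
    ∃ z ∈ TLB d e U 0, TLX e (2 * m) * w * TLX e (2 * m) = z * TLX e (2 * m)
  | 0, w, hw => ⟨w, hw, by simp [TLX]⟩
  | (m + 1), w, hw => by
    obtain ⟨w', hw', h⟩ := H.sandwich' (k := 2 * m) hw
    obtain ⟨z, hz, hj⟩ := H.sandwich_X m w' hw'
    refine ⟨z, hz, ?_⟩
    have hX := H.comm_mem (j := 2 * m + 2) le_rfl (TLX_mem_TLB (d := d) (e := e) (U := U) (2 * m))
    calc TLX e (2 * m + 2) * w * TLX e (2 * m + 2)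
        = (e (2 * m + 2) * TLX e (2 * m)) * w * (e (2 * m + 2) * TLX e (2 * m)) := rfl
      _ = (TLX e (2 * m) * e (2 * m + 2)) * w * (e (2 * m + 2) * TLX e (2 * m)) := by rw [hX]
      _ = TLX e (2 * m) * (e (2 * m + 2) * w * e (2 * m + 2)) * TLX e (2 * m) := by
          simp only [mul_assoc]
      _ = TLX e (2 * m) * (w' * e (2 * m + 2)) * TLX e (2 * m) := by rw [h]
      _ = TLX e (2 * m) * w' * (e (2 * m + 2) * TLX e (2 * m)) := by simp only [mul_assoc]
      _ = TLX e (2 * m) * w' * (TLX e (2 * m) * e (2 * m + 2)) := by rw [hX]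
      _ = (TLX e (2 * m) * w' * TLX e (2 * m)) * e (2 * m + 2) := by simp only [mul_assoc]
      _ = z * (TLX e (2 * m) * e (2 * m + 2)) := by rw [hj]; simp only [mul_assoc]
      _ = z * TLX e (2 * m + 2) := by rw [hX]; rfl

theorem TLURel.U_X (H : TLURel d e U) (a b : A) : ∀ m : ℕ,
    U a b * TLX e (2 * m) = TLX e (2 * m) * U a b
  | 0 => by simp [TLX]
  | (m + 1) => by
    have h1 : TLX e (2 * (m + 1)) = e (2 * m + 2) * TLX e (2 * m) := rfl
    rw [h1, ← mul_assoc, H.Ue a b _ (by omega), mul_assoc, H.U_X a b m, mul_assoc]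

/-- The universal evaluation of a word with boundary operators: zero or a power of `d`. -/
theorem TLURel.eval (H : TLURel d e U) (a : A) (m : ℕ) {w : M} (hw : w ∈ TLB d e U (2 * m)) :
    U a a * (TLX e (2 * m) * w * TLX e (2 * m)) * U a a = 0 ∨
    ∃ j : ℕ, U a a * (TLX e (2 * m) * w * TLX e (2 * m)) * U a a =
      d ^ j * (U a a * TLX e (2 * m)) := by
  obtain ⟨z, hz, h⟩ := H.sandwich_X m w hw
  have hdU : ∀ (l : ℕ) (a b : A), U a b * d ^ l = d ^ l * U a b := by
    intro l a b
    have : Commute d (U a b) := H.dU a b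
    exact ((this.pow_left l).symm)
  have h2 : U a a * (TLX e (2 * m) * w * TLX e (2 * m)) * U a a =
      U a a * z * U a a * TLX e (2 * m) := by
    rw [h, mul_assoc, mul_assoc, ← H.U_X, ← mul_assoc, ← mul_assoc]
  rw [h2]
  rcases H.mem_zero hz with rfl | ⟨j, rfl⟩ | ⟨j, b, c, rfl⟩
  · left; simp
  · right
    refine ⟨j, ?_⟩
    rw [hdU, mul_assoc (d ^ j), H.UU, mul_assoc]
  · by_cases h3 : a = b
    · subst h3
      by_cases h4 : c = a
      · subst h4
        right
        refine ⟨j, ?_⟩
        calc U c c * (d ^ j * U c c) * U c c * TLX e (2 * m)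
            = (U c c * d ^ j) * (U c c * U c c) * TLX e (2 * m) := by simp only [mul_assoc]
          _ = (d ^ j * U c c) * U c c * TLX e (2 * m) := by rw [hdU, H.UU]
          _ = d ^ j * (U c c * U c c) * TLX e (2 * m) := by simp only [mul_assoc]
          _ = d ^ j * (U c c * TLX e (2 * m)) := by rw [H.UU, mul_assoc]
      · left
        calc U a a * (d ^ j * U a c) * U a a * TLX e (2 * m)
            = (U a a * d ^ j) * (U a c * U a a) * TLX e (2 * m) := by simp only [mul_assoc]
          _ = 0 := by rw [H.UU0 _ _ _ _ h4, mul_zero, zero_mul]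
    · left
      calc U a a * (d ^ j * U b c) * U a a * TLX e (2 * m)
          = (U a a * d ^ j) * U b c * U a a * TLX e (2 * m) := by simp only [mul_assoc]
        _ = d ^ j * (U a a * U b c) * U a a * TLX e (2 * m) := by
            rw [hdU]; simp only [mul_assoc]
        _ = 0 := by rw [H.UU0 _ _ _ _ h3, mul_zero, zero_mul, zero_mul]

end Pool.Agent.Helper35.DInf
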