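import Mathlib
import Pool.Agent.Helper35.DInf.TLU

/-!
The height representation of the Temperley-Lieb algebra on a locally finite graph with a positive
eigenfunction, and boundary operators moving between leaves with a common neighbour.
-/

set_option autoImplicit false

namespace Pool.Agent.Helper35.DInf

open Pool.Agent.Helper70.BLB

/-- A locally finite graph with a positive eigenfunction of the adjacency operator and a family
of leaves attached to the node `z`. -/
structure HG (N A : Type) (δ : ℝ) where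
  nb : N → Finset N
  symm : ∀ x y, y ∈ nb x → x ∈ nb y
  S : N → ℝ
  pos : ∀ x, 0 < S x
  eig : ∀ x, ∑ y ∈ nb x, S y = δ * S x
  z : N
  leaf : A → N
  leaf_inj : Function.Injective leaf
  nb_leaf : ∀ a, nb (leaf a) = {z}

variable {N A : Type} {δ : ℝ}

/-- Consecutive heights are adjacent. -/
def Pth (Γ : HG N A δ) (h : ℕ → N) : Prop := ∀ i, h (i + 1) ∈ Γ.nb (h i)

theorem Pth.back {Γ : HG N A δ} {h : ℕ → N} (hp : Pth Γ h) (i : ℕ) : h i ∈ Γ.nb (h (i + 1)) :=
  Γ.symm _ _ (hp i)

theorem Pth.update {Γ : HG N A δ} {h : ℕ → N} (hp : Pth Γ h) {k : ℕ} {x : N} (hk : 1 ≤ k)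
    (he : h (k - 1) = h (k + 1)) (hx : x ∈ Γ.nb (h (k - 1))) :
    Pth Γ (Function.update h k x) := by
  intro i
  by_cases h1 : i = k
  · subst h1
    have h2 : i + 1 ≠ i := by omega
    rw [Function.update_self, Function.update_of_ne h2, ← he]
    exact Γ.symm _ _ hx
  · by_cases h2 : i + 1 = k
    · subst h2
      rw [Function.update_self, Function.update_of_ne h1]
      have h3 : i + 1 - 1 = i := by omega
      rw [h3] at hx
      exact hx
    · rw [Function.update_of_ne h1, Function.update_of_ne h2]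
      exact hp i

/-- Moving the first height from a leaf to another leaf. -/
theorem Pth.update_zero {Γ : HG N A δ} {h : ℕ → N} (hp : Pth Γ h) {a : A} (b : A)
    (h0 : h 0 = Γ.leaf a) : Pth Γ (Function.update h 0 (Γ.leaf b)) := by
  intro i
  by_cases h1 : i = 0
  · subst h1
    rw [Function.update_self, Function.update_of_ne (by omega), Γ.nb_leaf]
    have := hp 0
    rw [h0, Γ.nb_leaf] at this
    exact this
  · rw [Function.update_of_ne h1, Function.update_of_ne (by omega)]
    exact hp i

variable [DecidableEq N]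

/-- The height algebra. -/
abbrev HA (N : Type) : Type := Module.End ℝ ((ℕ → N) → ℝ)

open Classical in
/-- The Temperley-Lieb generator acting on the height at position `k`. -/
noncomputable def gE (Γ : HG N A δ) (k : ℕ) : HA N where
  toFun φ := fun h => if Pth Γ h ∧ h (k - 1) = h (k + 1) then
      (∑ x ∈ Γ.nb (h (k - 1)), Γ.S x * φ (Function.update h k x)) / Γ.S (h (k - 1))
    else 0
  map_add' φ ψ := by
    funext h
    simp only [Pi.add_apply]
    split_ifs with hc
    · rw [← add_div, ← Finset.sum_add_distrib]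
      congr 1
      apply Finset.sum_congr rfl
      intro x _
      ring
    · simp
  map_smul' c φ := by
    funext h
    simp only [Pi.smul_apply, smul_eq_mul, RingHom.id_apply]
    split_ifs with hc
    · rw [← mul_div_assoc, Finset.mul_sum]
      congr 1
      apply Finset.sum_congr rfl
      intro x _
      ring
    · simp

open Classical in
/-- The boundary operator: the first height must be the leaf `a` and is replaced by `b`. -/
noncomputable def gU (Γ : HG N A δ) (a b : A) : HA N where
  toFun φ := fun h => if Pth Γ h ∧ h 0 = Γ.leaf a then φ (Function.update h 0 (Γ.leaf b)) else 0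
  map_add' φ ψ := by
    funext h
    simp only [Pi.add_apply]
    split_ifs with hc
    · rfl
    · simp
  map_smul' c φ := by
    funext h
    simp only [Pi.smul_apply, smul_eq_mul, RingHom.id_apply]
    split_ifs with hc
    · rfl
    · simp

theorem gE_pos (Γ : HG N A δ) (k : ℕ) (φ : (ℕ → N) → ℝ) {h : ℕ → N} (hp : Pth Γ h)
    (he : h (k - 1) = h (k + 1)) :
    gE Γ k φ h =
      (∑ x ∈ Γ.nb (h (k - 1)), Γ.S x * φ (Function.update h k x)) / Γ.S (h (k - 1)) := by
  classical
  have : gE Γ k φ h = if Pth Γ h ∧ h (k - 1) = h (k + 1) then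
      (∑ x ∈ Γ.nb (h (k - 1)), Γ.S x * φ (Function.update h k x)) / Γ.S (h (k - 1))
    else 0 := rfl
  rw [this, if_pos ⟨hp, he⟩]

theorem gE_neg (Γ : HG N A δ) (k : ℕ) (φ : (ℕ → N) → ℝ) {h : ℕ → N}
    (hn : ¬ (Pth Γ h ∧ h (k - 1) = h (k + 1))) : gE Γ k φ h = 0 := by
  classical
  have : gE Γ k φ h = if Pth Γ h ∧ h (k - 1) = h (k + 1) then
      (∑ x ∈ Γ.nb (h (k - 1)), Γ.S x * φ (Function.update h k x)) / Γ.S (h (k - 1))
    else 0 := rfl
  rw [this, if_neg hn]

theorem gU_pos (Γ : HG N A δ) (a b : A) (φ : (ℕ → N) → ℝ) {h : ℕ → N} (hp : Pth Γ h)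
    (h0 : h 0 = Γ.leaf a) : gU Γ a b φ h = φ (Function.update h 0 (Γ.leaf b)) := by
  classical
  have : gU Γ a b φ h = if Pth Γ h ∧ h 0 = Γ.leaf a then
      φ (Function.update h 0 (Γ.leaf b)) else 0 := rfl
  rw [this, if_pos ⟨hp, h0⟩]

theorem gU_neg (Γ : HG N A δ) (a b : A) (φ : (ℕ → N) → ℝ) {h : ℕ → N}
    (hn : ¬ (Pth Γ h ∧ h 0 = Γ.leaf a)) : gU Γ a b φ h = 0 := by
  classical
  have : gU Γ a b φ h = if Pth Γ h ∧ h 0 = Γ.leaf a then
      φ (Function.update h 0 (Γ.leaf b)) else 0 := rfl
  rw [this, if_neg hn]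

/-- Evaluation after an update at the same place gives the same value. -/
theorem gE_update_same (Γ : HG N A δ) {k : ℕ} (hk : 1 ≤ k) (φ : (ℕ → N) → ℝ) {h : ℕ → N}
    (hp : Pth Γ h) (he : h (k - 1) = h (k + 1)) {x : N} (hx : x ∈ Γ.nb (h (k - 1))) :
    gE Γ k φ (Function.update h k x) = gE Γ k φ h := by
  have h1 : k - 1 ≠ k := by omega
  have h2 : k + 1 ≠ k := by omega
  rw [gE_pos Γ k φ hp he, gE_pos Γ k φ (hp.update hk he hx)]
  · rw [Function.update_of_ne h1]
    congr 1
    apply Finset.sum_congr rfl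
    intro y _
    rw [Function.update_idem]
  · rw [Function.update_of_ne h1, Function.update_of_ne h2, he]

theorem gE_sq (Γ : HG N A δ) {k : ℕ} (hk : 1 ≤ k) :
    gE Γ k * gE Γ k = (δ • 1) * gE Γ k := by
  ext φ h
  simp only [Module.End.mul_apply, LinearMap.smul_apply, Module.End.one_apply, Pi.smul_apply,
    smul_eq_mul]
  by_cases hc : Pth Γ h ∧ h (k - 1) = h (k + 1)
  · obtain ⟨hp, he⟩ := hc
    have hSa := Γ.pos (h (k - 1))
    rw [gE_pos Γ k _ hp he]
    have h1 : ∑ x ∈ Γ.nb (h (k - 1)), Γ.S x * gE Γ k φ (Function.update h k x) =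
        (δ * Γ.S (h (k - 1))) * gE Γ k φ h := by
      rw [← Γ.eig, Finset.sum_mul]
      apply Finset.sum_congr rfl
      intro x hx
      rw [gE_update_same Γ hk φ hp he hx]
    rw [h1]
    field_simp
  · rw [gE_neg Γ k _ hc, gE_neg Γ k _ hc, mul_zero]

theorem gE_up (Γ : HG N A δ) {k : ℕ} (hk : 1 ≤ k) :
    gE Γ k * gE Γ (k + 1) * gE Γ k = gE Γ k := by
  ext φ h
  simp only [Module.End.mul_apply]
  by_cases hc : Pth Γ h ∧ h (k - 1) = h (k + 1)
  · obtain ⟨hp, he⟩ := hc
    have hSa := Γ.pos (h (k - 1))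
    rw [gE_pos Γ k _ hp he]
    have hb : h (k + 2) ∈ Γ.nb (h (k - 1)) := by
      rw [he]; exact hp (k + 1)
    have hSb := Γ.pos (h (k + 2))
    rw [Finset.sum_eq_single (h (k + 2))]
    · -- the surviving term
      set g := Function.update h k (h (k + 2)) with hg
      have hgp : Pth Γ g := hp.update hk he hb
      have g1 : g (k + 1 - 1) = h (k + 2) := by
        rw [show k + 1 - 1 = k by omega, hg, Function.update_self]
      have g2 : g (k + 1 + 1) = h (k + 2) := by
        rw [hg, Function.update_of_ne (by omega)]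
      rw [gE_pos Γ (k + 1) _ hgp (by rw [g1, g2]), g1]
      have hmem : h (k - 1) ∈ Γ.nb (h (k + 2)) := Γ.symm _ _ hb
      rw [Finset.sum_eq_single (h (k - 1))]
      · have e1 : Function.update g (k + 1) (h (k - 1)) = g := by
          rw [Function.update_eq_self_iff, hg, Function.update_of_ne (by omega), he]
        rw [e1, hg, gE_update_same Γ hk φ hp he hb]
        field_simp
      · intro y hy hne
        rw [gE_neg, mul_zero]
        rintro ⟨_, hh⟩
        rw [Function.update_of_ne (show k - 1 ≠ k + 1 by omega), Function.update_self, hg,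
          Function.update_of_ne (show k - 1 ≠ k by omega)] at hh
        exact hne hh.symm
      · intro hh; exact absurd hmem hh
    · intro x hx hne
      rw [gE_neg Γ (k + 1), mul_zero]
      rintro ⟨_, hh⟩
      rw [show k + 1 - 1 = k by omega, Function.update_self,
        Function.update_of_ne (show k + 1 + 1 ≠ k by omega)] at hh
      exact hne hh
    · intro hh; exact absurd hb hh
  · rw [gE_neg Γ k _ hc, gE_neg Γ k _ hc]

theorem gE_down (Γ : HG N A δ) {k : ℕ} (hk : 1 ≤ k) :
    gE Γ (k + 1) * gE Γ k * gE Γ (k + 1) = gE Γ (k + 1) := by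
  ext φ h
  simp only [Module.End.mul_apply]
  by_cases hc : Pth Γ h ∧ h (k + 1 - 1) = h (k + 1 + 1)
  · obtain ⟨hp, he⟩ := hc
    have hSa := Γ.pos (h (k + 1 - 1))
    rw [gE_pos Γ (k + 1) _ hp he]
    have hk1 : k + 1 - 1 = k := by omega
    have hb : h (k - 1) ∈ Γ.nb (h (k + 1 - 1)) := by
      rw [hk1]
      have := hp.back (k - 1)
      rwa [show k - 1 + 1 = k by omega] at this
    have hSb := Γ.pos (h (k - 1))
    rw [Finset.sum_eq_single (h (k - 1))]
    · set g := Function.update h (k + 1) (h (k - 1)) with hg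
      have hgp : Pth Γ g := hp.update (by omega) he hb
      have g1 : g (k - 1) = h (k - 1) := by
        rw [hg, Function.update_of_ne (by omega)]
      have g2 : g (k + 1) = h (k - 1) := by
        rw [hg, Function.update_self]
      rw [gE_pos Γ k _ hgp (by rw [g1, g2]), g1]
      have hmem : h (k + 1 - 1) ∈ Γ.nb (h (k - 1)) := Γ.symm _ _ hb
      rw [Finset.sum_eq_single (h (k + 1 - 1))]
      · have e1 : Function.update g k (h (k + 1 - 1)) = g := by
          rw [Function.update_eq_self_iff, hg, Function.update_of_ne (by omega), hk1]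
        rw [e1, hg, gE_update_same Γ (by omega) φ hp he hb]
        field_simp
      · intro y hy hne
        rw [gE_neg, mul_zero]
        rintro ⟨_, hh⟩
        rw [show k + 1 - 1 = k by omega, Function.update_self,
          Function.update_of_ne (show k + 1 + 1 ≠ k by omega), hg,
          Function.update_of_ne (show k + 1 + 1 ≠ k + 1 by omega)] at hh
        exact hne (hh.trans he.symm)
      · intro hh; exact absurd hmem hh
    · intro x hx hne
      rw [gE_neg Γ k, mul_zero]
      rintro ⟨_, hh⟩
      rw [Function.update_self, Function.update_of_ne (show k - 1 ≠ k + 1 by omega)] at hh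
      exact hne hh.symm
    · intro hh; exact absurd hb hh
  · rw [gE_neg Γ (k + 1) _ hc, gE_neg Γ (k + 1) _ hc]

theorem gE_comm (Γ : HG N A δ) {k l : ℕ} (hk : 1 ≤ k) (hkl : k + 2 ≤ l) :
    gE Γ k * gE Γ l = gE Γ l * gE Γ k := by
  ext φ h
  simp only [Module.End.mul_apply]
  by_cases hp : Pth Γ h
  · by_cases hek : h (k - 1) = h (k + 1)
    · by_cases hel : h (l - 1) = h (l + 1)
      · rw [gE_pos Γ k _ hp hek, gE_pos Γ l _ hp hel]
        have e1 : ∀ x ∈ Γ.nb (h (k - 1)), Γ.S x * gE Γ l φ (Function.update h k x) =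
            (∑ y ∈ Γ.nb (h (l - 1)), Γ.S x * (Γ.S y *
              φ (Function.update (Function.update h k x) l y))) / Γ.S (h (l - 1)) := by
          intro x hx
          have g1 : Function.update h k x (l - 1) = h (l - 1) :=
            Function.update_of_ne (by omega) _ _
          have g2 : Function.update h k x (l + 1) = h (l + 1) :=
            Function.update_of_ne (by omega) _ _
          rw [gE_pos Γ l _ (hp.update hk hek hx) (by rw [g1, g2, hel]), g1, ← mul_div_assoc,
            Finset.mul_sum]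
        have e2 : ∀ y ∈ Γ.nb (h (l - 1)), Γ.S y * gE Γ k φ (Function.update h l y) =
            (∑ x ∈ Γ.nb (h (k - 1)), Γ.S x * (Γ.S y *
              φ (Function.update (Function.update h k x) l y))) / Γ.S (h (k - 1)) := by
          intro y hy
          have g1 : Function.update h l y (k - 1) = h (k - 1) :=
            Function.update_of_ne (by omega) _ _
          have g2 : Function.update h l y (k + 1) = h (k + 1) :=
            Function.update_of_ne (by omega) _ _
          rw [gE_pos Γ k _ (hp.update (by omega) hel hy) (by rw [g1, g2, hek]), g1,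
            ← mul_div_assoc, Finset.mul_sum]
          congr 1
          apply Finset.sum_congr rfl
          intro x _
          rw [Function.update_comm (show k ≠ l by omega)]
          ring
        rw [Finset.sum_congr rfl e1, Finset.sum_congr rfl e2, ← Finset.sum_div, ← Finset.sum_div,
          Finset.sum_comm, div_div, div_div, mul_comm (Γ.S (h (l - 1)))]
      · rw [gE_neg Γ l _ (fun hh => hel hh.2), gE_pos Γ k _ hp hek]
        rw [Finset.sum_eq_zero, zero_div]
        intro x hx
        rw [gE_neg Γ l, mul_zero]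
        rintro ⟨_, hh⟩
        rw [Function.update_of_ne (show l - 1 ≠ k by omega),
          Function.update_of_ne (show l + 1 ≠ k by omega)] at hh
        exact hel hh
    · rw [gE_neg Γ k _ (fun hh => hek hh.2)]
      by_cases hel : h (l - 1) = h (l + 1)
      · rw [gE_pos Γ l _ hp hel, Finset.sum_eq_zero, zero_div]
        intro x hx
        rw [gE_neg Γ k, mul_zero]
        rintro ⟨_, hh⟩
        rw [Function.update_of_ne (show k - 1 ≠ l by omega),
          Function.update_of_ne (show k + 1 ≠ l by omega)] at hh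
        exact hek hh
      · rw [gE_neg Γ l _ (fun hh => hel hh.2)]
  · rw [gE_neg Γ k _ (fun hh => hp hh.1), gE_neg Γ l _ (fun hh => hp hh.1)]

theorem gE_TLRel (Γ : HG N A δ) : TLRel (M := HA N) (δ • 1) (gE Γ) where
  dcomm i := by simp
  sq i hi := gE_sq Γ hi
  up i hi := gE_up Γ hi
  down i hi := gE_down Γ hi
  comm i j hi hij := gE_comm Γ hi hij

theorem gU_mul (Γ : HG N A δ) (a b c : A) : gU Γ a b * gU Γ b c = gU Γ a c := by
  ext φ h
  simp only [Module.End.mul_apply]
  by_cases hc : Pth Γ h ∧ h 0 = Γ.leaf a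
  · obtain ⟨hp, h0⟩ := hc
    rw [gU_pos Γ a b _ hp h0, gU_pos Γ a c _ hp h0,
      gU_pos Γ b c _ (hp.update_zero b h0) (Function.update_self _ _ _), Function.update_idem]
  · rw [gU_neg Γ a b _ hc, gU_neg Γ a c _ hc]

theorem gU_mul_ne (Γ : HG N A δ) (a b c f : A) (hbc : b ≠ c) : gU Γ a b * gU Γ c f = 0 := by
  ext φ h
  simp only [Module.End.mul_apply, LinearMap.zero_apply, Pi.zero_apply]
  by_cases hc : Pth Γ h ∧ h 0 = Γ.leaf a
  · obtain ⟨hp, h0⟩ := hc
    rw [gU_pos Γ a b _ hp h0, gU_neg]
    rintro ⟨_, hh⟩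
    rw [Function.update_self] at hh
    exact hbc (Γ.leaf_inj hh)
  · rw [gU_neg Γ a b _ hc]

theorem gU_gE (Γ : HG N A δ) (a b : A) {i : ℕ} (hi : 2 ≤ i) :
    gU Γ a b * gE Γ i = gE Γ i * gU Γ a b := by
  ext φ h
  simp only [Module.End.mul_apply]
  by_cases hp : Pth Γ h
  · by_cases h0 : h 0 = Γ.leaf a
    · rw [gU_pos Γ a b _ hp h0]
      by_cases he : h (i - 1) = h (i + 1)
      · have g1 : Function.update h 0 (Γ.leaf b) (i - 1) = h (i - 1) :=
          Function.update_of_ne (by omega) _ _
        have g2 : Function.update h 0 (Γ.leaf b) (i + 1) = h (i + 1) :=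
          Function.update_of_ne (by omega) _ _
        rw [gE_pos Γ i _ (hp.update_zero b h0) (by rw [g1, g2, he]), gE_pos Γ i _ hp he, g1]
        congr 1
        apply Finset.sum_congr rfl
        intro x hx
        rw [gU_pos Γ a b _ (hp.update (by omega) he hx)
          (by rw [Function.update_of_ne (by omega)]; exact h0),
          Function.update_comm (show (0 : ℕ) ≠ i by omega)]
      · rw [gE_neg, gE_neg]
        · exact fun hh => he hh.2
        · rintro ⟨_, hh⟩
          rw [Function.update_of_ne (show i - 1 ≠ 0 by omega),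
            Function.update_of_ne (show i + 1 ≠ 0 by omega)] at hh
          exact he hh
    · rw [gU_neg Γ a b _ (fun hh => h0 hh.2)]
      by_cases he : h (i - 1) = h (i + 1)
      · rw [gE_pos Γ i _ hp he, Finset.sum_eq_zero, zero_div]
        intro x _
        rw [gU_neg, mul_zero]
        rintro ⟨_, hh⟩
        rw [Function.update_of_ne (show (0 : ℕ) ≠ i by omega)] at hh
        exact h0 hh
      · rw [gE_neg Γ i _ (fun hh => he hh.2)]
  · rw [gU_neg Γ a b _ (fun hh => hp hh.1), gE_neg Γ i _ (fun hh => hp hh.1)]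

theorem gE_gU_gE (Γ : HG N A δ) {a b : A} (hab : a ≠ b) : gE Γ 1 * gU Γ a b * gE Γ 1 = 0 := by
  ext φ h
  simp only [Module.End.mul_apply, LinearMap.zero_apply, Pi.zero_apply]
  by_cases hc : Pth Γ h ∧ h (1 - 1) = h (1 + 1)
  · obtain ⟨hp, he⟩ := hc
    rw [gE_pos Γ 1 _ hp he, Finset.sum_eq_zero, zero_div]
    intro x hx
    by_cases h0 : Pth Γ (Function.update h 1 x) ∧ Function.update h 1 x 0 = Γ.leaf a
    · rw [gU_pos Γ a b _ h0.1 h0.2, gE_neg, mul_zero]
      rintro ⟨_, hh⟩
      rw [show (1 : ℕ) - 1 = 0 from rfl, Function.update_self,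
        Function.update_of_ne (show (1 : ℕ) + 1 ≠ 0 by omega),
        Function.update_of_ne (show (1 : ℕ) + 1 ≠ 1 by omega), ← he] at hh
      have h1 := h0.2
      rw [Function.update_of_ne (show (0 : ℕ) ≠ 1 by omega)] at h1
      rw [show (1 : ℕ) - 1 = 0 from rfl, h1] at hh
      exact hab (Γ.leaf_inj hh.symm)
    · rw [gU_neg Γ a b _ h0, mul_zero]
  · rw [gE_neg Γ 1 _ hc]

theorem gU_gE_one (Γ : HG N A δ) (a : A) : gU Γ a a * gE Γ 1 = gE Γ 1 * gU Γ a a := by
  ext φ h
  simp only [Module.End.mul_apply]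
  by_cases hp : Pth Γ h
  · by_cases h0 : h 0 = Γ.leaf a
    · have e0 : Function.update h 0 (Γ.leaf a) = h := by
        rw [Function.update_eq_self_iff, h0]
      rw [gU_pos Γ a a _ hp h0, e0]
      by_cases he : h (1 - 1) = h (1 + 1)
      · rw [gE_pos Γ 1 _ hp he, gE_pos Γ 1 _ hp he]
        congr 1
        apply Finset.sum_congr rfl
        intro x hx
        have g0 : Function.update h 1 x 0 = Γ.leaf a := by
          rw [Function.update_of_ne (by omega)]; exact h0
        have e1 : Function.update (Function.update h 1 x) 0 (Γ.leaf a) =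
            Function.update h 1 x := by
          rw [Function.update_eq_self_iff, g0]
        rw [gU_pos Γ a a _ (hp.update le_rfl he hx) g0, e1]
      · rw [gE_neg Γ 1 _ (fun hh => he hh.2), gE_neg Γ 1 _ (fun hh => he hh.2)]
    · rw [gU_neg Γ a a _ (fun hh => h0 hh.2)]
      by_cases he : h (1 - 1) = h (1 + 1)
      · rw [gE_pos Γ 1 _ hp he, Finset.sum_eq_zero, zero_div]
        intro x _
        rw [gU_neg, mul_zero]
        rintro ⟨_, hh⟩
        rw [Function.update_of_ne (show (0 : ℕ) ≠ 1 by omega)] at hh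
        exact h0 hh
      · rw [gE_neg Γ 1 _ (fun hh => he hh.2)]
  · rw [gU_neg Γ a a _ (fun hh => hp hh.1), gE_neg Γ 1 _ (fun hh => hp hh.1)]

theorem g_TLURel (Γ : HG N A δ) : TLURel (M := HA N) (δ • 1) (gE Γ) (gU Γ) where
  toTLRel := gE_TLRel Γ
  dU a b := by simp
  UU := gU_mul Γ
  UU0 := gU_mul_ne Γ
  Ue a b i hi := gU_gE Γ a b hi
  eUe a b hab := gE_gU_gE Γ hab
  Ue1 := gU_gE_one Γ

end Pool.Agent.Helper35.DInf
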