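import Mathlib
import Pool.Agent.Helper35.DInf.Rep

/-!
The half line with `card A` leaves attached to its end, with its positive eigenfunction.
-/

set_option autoImplicit false

namespace Pool.Agent.Helper35.DInf

/-- The values of the eigenfunction on the half line. -/
noncomputable def leafSeq (n δ : ℝ) : ℕ → ℝ
  | 0 => δ
  | 1 => δ ^ 2 - n
  | (k + 2) => δ * leafSeq n δ (k + 1) - leafSeq n δ k

theorem exists_tt {δ : ℝ} (hδ : 2 ≤ δ) : ∃ t : ℝ, 1 ≤ t ∧ t ^ 2 + 1 = δ * t := by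
  refine ⟨(δ + Real.sqrt (δ ^ 2 - 4)) / 2, ?_, ?_⟩
  · have := Real.sqrt_nonneg (δ ^ 2 - 4)
    linarith
  · have h := Real.sq_sqrt (show (0 : ℝ) ≤ δ ^ 2 - 4 by nlinarith)
    nlinarith

theorem leafSeq_pos {n δ : ℝ} (hδ : 2 ≤ δ) (hn : 2 ≤ n) (hq : n + 1 + 1 / (n - 1) ≤ δ ^ 2)
    (k : ℕ) : 0 < leafSeq n δ k := by
  obtain ⟨t, ht1, ht⟩ := exists_tt hδ
  have ht0 : 0 < t := by linarith
  have hn1 : 0 < n - 1 := by linarith
  have hx : n - 1 ≤ t ^ 2 := by
    by_contra hcon
    push Not at hcon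
    have h1 : δ ^ 2 * t ^ 2 = (t ^ 2 + 1) ^ 2 := by rw [ht]; ring
    have h2 : (n - 1) * (1 / (n - 1)) = 1 := by field_simp
    have h3 : 0 < 1 / (n - 1) := by positivity
    have ht2 : 1 ≤ t ^ 2 := by nlinarith
    -- (n + 1) (n - 1) + 1 ≤ δ ^ 2 (n - 1)
    have h4 : (n + 1) * (n - 1) + 1 ≤ δ ^ 2 * (n - 1) := by nlinarith
    have h5 : n ^ 2 * t ^ 2 ≤ (t ^ 2 + 1) ^ 2 * (n - 1) := by
      rw [← h1]
      have : n ^ 2 ≤ δ ^ 2 * (n - 1) := by nlinarith
      nlinarith [mul_le_mul_of_nonneg_right this (show (0 : ℝ) ≤ t ^ 2 by positivity)]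
    -- with x = t ^ 2 < y = n - 1: (y + 1) ^ 2 x ≤ (x + 1) ^ 2 y
    have h6 : 0 < (n - 1 - t ^ 2) * ((n - 1) * t ^ 2 - 1) := by
      apply mul_pos (by linarith)
      nlinarith
    nlinarith
  have hstep : ∀ k, 0 < leafSeq n δ k ∧ leafSeq n δ k ≤ t * leafSeq n δ (k + 1) := by
    intro k
    induction k with
    | zero =>
      refine ⟨?_, ?_⟩
      · show 0 < δ
        linarith
      · show δ ≤ t * (δ ^ 2 - n)
        -- δ t ≤ t ^ 2 (δ ^ 2 - n)
        have h1 : δ ^ 2 * t ^ 2 = (t ^ 2 + 1) ^ 2 := by rw [ht]; ring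
        have h2 : δ * t ≤ t * (δ ^ 2 - n) * t := by nlinarith
        exact le_of_mul_le_mul_right h2 ht0
    | succ k ih =>
      obtain ⟨h1, h2⟩ := ih
      have h3 : 0 < leafSeq n δ (k + 1) := by
        by_contra hcon
        push Not at hcon
        nlinarith
      refine ⟨h3, ?_⟩
      show leafSeq n δ (k + 1) ≤ t * (δ * leafSeq n δ (k + 1) - leafSeq n δ k)
      have h4 : t * (δ * leafSeq n δ (k + 1) - leafSeq n δ k) =
          (t ^ 2 + 1) * leafSeq n δ (k + 1) - t * leafSeq n δ k := by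
        rw [ht]; ring
      rw [h4]
      nlinarith
  exact (hstep k).1

variable (A : Type) [Fintype A] [DecidableEq A]

/-- Neighbours in the half line with leaves. -/
def leafNb : A ⊕ ℕ → Finset (A ⊕ ℕ)
  | Sum.inl _ => {Sum.inr 0}
  | Sum.inr 0 => insert (Sum.inr 1) (Finset.univ.map Function.Embedding.inl)
  | Sum.inr (k + 1) => {Sum.inr k, Sum.inr (k + 2)}

/-- The eigenfunction. -/
noncomputable def leafS (δ : ℝ) : A ⊕ ℕ → ℝ
  | Sum.inl _ => 1
  | Sum.inr k => leafSeq (Fintype.card A) δ k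

theorem leafNb_symm (x y : A ⊕ ℕ) (h : y ∈ leafNb A x) : x ∈ leafNb A y := by
  rcases x with a | (_ | k)
  · rw [leafNb, Finset.mem_singleton] at h
    rw [h, leafNb]
    simp
  · rw [leafNb, Finset.mem_insert] at h
    rcases h with h | h
    · rw [h, leafNb]
      simp
    · rw [Finset.mem_map] at h
      obtain ⟨a, _, rfl⟩ := h
      show Sum.inr 0 ∈ leafNb A (Sum.inl a)
      rw [leafNb]
      simp
  · rw [leafNb, Finset.mem_insert, Finset.mem_singleton] at h
    rcases h with h | h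
    · rw [h]
      rcases k with _ | k
      · rw [leafNb]
        simp
      · rw [leafNb]
        simp
    · rw [h]
      show Sum.inr (k + 1) ∈ leafNb A (Sum.inr ((k + 1) + 1))
      rw [leafNb]
      simp

/-- The half line with leaves. -/
noncomputable def leafHG {δ : ℝ} (hδ : 2 ≤ δ) (hn : 2 ≤ Fintype.card A)
    (hq : (Fintype.card A : ℝ) + 1 + 1 / ((Fintype.card A : ℝ) - 1) ≤ δ ^ 2) :
    HG (A ⊕ ℕ) A δ where
  nb := leafNb A
  symm := leafNb_symm A
  S := leafS A δ
  pos x := by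
    rcases x with a | k
    · exact one_pos
    · exact leafSeq_pos hδ (by exact_mod_cast hn) hq k
  eig x := by
    rcases x with a | (_ | k)
    · rw [leafNb, Finset.sum_singleton]
      show δ = δ * 1
      ring
    · rw [leafNb, Finset.sum_insert (by simp), Finset.sum_map]
      show (δ ^ 2 - (Fintype.card A : ℝ)) + ∑ _x : A, (1 : ℝ) = δ * δ
      rw [Finset.sum_const, Finset.card_univ, nsmul_eq_mul]
      ring
    · rw [leafNb, Finset.sum_pair (by simp)]
      show leafSeq (Fintype.card A) δ k + (δ * leafSeq (Fintype.card A) δ (k + 1) -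
        leafSeq (Fintype.card A) δ k) = δ * leafSeq (Fintype.card A) δ (k + 1)
      ring
  z := Sum.inr 0
  leaf := Sum.inl
  leaf_inj := Sum.inl_injective
  nb_leaf a := rfl

end Pool.Agent.Helper35.DInf
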