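import Mathlib
import Pool.Agent.Helper70.BLB.Count
import Pool.Agent.Helper35.DInf.Rep

/-!
Networks with boundary operators: transfer of the evaluation from the colouring representations
to the height representation of a graph with leaves.
-/

set_option autoImplicit false
set_option linter.unusedSectionVars false

namespace Pool.Agent.Helper35.DInf

open Polynomial
open Pool.Agent.Helper70.BLB

/-! ### Boundary operators on colourings -/

section Color

variable {C : Type} [Fintype C] [DecidableEq C]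

/-- The colour of site `0` must be `x` and is replaced by `y`. -/
noncomputable def cU (x y : C) : Module.End ℝ ((ℕ → C) → ℝ) where
  toFun ψ := fun c => if c 0 = x then ψ (Function.update c 0 y) else 0
  map_add' φ ψ := by
    funext c
    simp only [Pi.add_apply]
    split_ifs <;> simp
  map_smul' a φ := by
    funext c
    simp only [Pi.smul_apply, smul_eq_mul, RingHom.id_apply]
    split_ifs <;> simp

@[simp] theorem cU_apply (x y : C) (ψ : (ℕ → C) → ℝ) (c : ℕ → C) :
    cU x y ψ c = if c 0 = x then ψ (Function.update c 0 y) else 0 := rfl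

omit [Fintype C] in
theorem cU_mul (x y z : C) : cU x y * cU y z = cU x z := by
  ext ψ c
  simp only [Module.End.mul_apply, cU_apply, Function.update_self, if_true, Function.update_idem]

omit [Fintype C] in
theorem cU_mul_ne {x y z w : C} (h : y ≠ z) : cU x y * cU z w = 0 := by
  ext ψ c
  simp only [Module.End.mul_apply, cU_apply, Function.update_self, if_neg h, ite_self,
    LinearMap.zero_apply, Pi.zero_apply]

theorem cU_cJ (x y : C) {i : ℕ} (hi : 1 ≤ i) : cU x y * cJ C i = cJ C i * cU x y := by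
  ext ψ c
  simp only [Module.End.mul_apply, cU_apply, cJ_apply]
  rw [Function.update_of_ne (show i ≠ 0 by omega), Function.update_of_ne (show i + 1 ≠ 0 by omega)]
  split_ifs <;> rfl

theorem cU_cD (x y : C) {i : ℕ} (hi : 1 ≤ i) : cU x y * cD C i = cD C i * cU x y := by
  ext ψ c
  simp only [Module.End.mul_apply, cU_apply, cD_apply]
  have e : ∀ u, Function.update c i u 0 = c 0 := fun u => Function.update_of_ne (by omega) _ _
  simp only [e]
  split_ifs
  · apply Finset.sum_congr rfl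
    intro u _
    rw [Function.update_comm (show (0 : ℕ) ≠ i by omega)]
  · simp

theorem cJ_cU_cJ {x y : C} (h : x ≠ y) : cJ C 0 * cU x y * cJ C 0 = 0 := by
  ext ψ c
  simp only [Module.End.mul_apply, cU_apply, cJ_apply, Function.update_self, zero_add,
    LinearMap.zero_apply, Pi.zero_apply]
  rw [Function.update_of_ne (show (1 : ℕ) ≠ 0 by omega)]
  split_ifs with h1 h2 h3
  · exact absurd (h2.symm.trans (h1.trans h3.symm)) h
  · rfl
  · rfl
  · rfl

theorem cU_cJ_zero (x : C) : cU x x * cJ C 0 = cJ C 0 * cU x x := by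
  ext ψ c
  simp only [Module.End.mul_apply, cU_apply, cJ_apply, Function.update_self, zero_add]
  rw [Function.update_of_ne (show (1 : ℕ) ≠ 0 by omega)]
  split_ifs with h1 h2 h3 h4
  · rfl
  · exact absurd (h1.trans h2) h3
  · exact absurd (h1.symm.trans h4) h2
  · rfl
  · rfl
  · rfl

theorem c_TLURel {A : Type} (ι : A → C) (hι : Function.Injective ι) {δ : ℝ} (hδ : 0 < δ)
    (hc : δ ^ 2 = Fintype.card C) :
    TLURel (M := Module.End ℝ ((ℕ → C) → ℝ)) (δ • 1) (cE C δ) (fun a b => cU (ι a) (ι b)) where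
  toTLRel := cE_TLRel hδ hc
  dU a b := by simp
  UU a b c := cU_mul _ _ _
  UU0 a b c f h := cU_mul_ne (fun e => h (hι e))
  Ue a b i hi := by
    rcases Nat.even_or_odd' i with ⟨j, rfl | rfl⟩
    · rw [cE_even, mul_smul_comm, cU_cD _ _ (by omega), smul_mul_assoc]
    · rw [cE_odd, mul_smul_comm, cU_cJ _ _ (by omega), smul_mul_assoc]
  eUe a b h := by
    have e1 : cE C δ 1 = δ • cJ C 0 := cE_odd δ 0
    rw [e1, smul_mul_assoc, smul_mul_assoc, mul_smul_comm, cJ_cU_cJ (fun e => h (hι e))]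
    simp
  Ue1 a := by
    have e1 : cE C δ 1 = δ • cJ C 0 := cE_odd δ 0
    rw [e1, mul_smul_comm, cU_cJ_zero, smul_mul_assoc]

end Color

/-! ### Networks -/

/-- Operations: the elementary ones and the boundary operators. -/
inductive OpU (A : Type)
  | op (x : Op)
  | U (a b : A)

variable {A : Type}

/-- The operation only involves sites `0, ..., m`. -/
def OpU.ok (m : ℕ) : OpU A → Prop
  | .op x => x.ok m
  | .U _ _ => True

/-- The value of an operation. -/
def OpU.val {R : Type*} [Ring R] (d dinv : R) (e : ℕ → R) (U : A → A → R) : OpU A → R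
  | .op x => x.val d dinv e
  | .U a b => U a b

/-- The value of a list of operations. -/
def WvalU {R : Type*} [Ring R] (d dinv : R) (e : ℕ → R) (U : A → A → R) (ops : List (OpU A)) : R :=
  (ops.map (OpU.val d dinv e U)).prod

theorem WvalU_append {R : Type*} [Ring R] (d dinv : R) (e : ℕ → R) (U : A → A → R)
    (l l' : List (OpU A)) : WvalU d dinv e U (l ++ l') = WvalU d dinv e U l * WvalU d dinv e U l' := by
  unfold WvalU
  rw [List.map_append, List.prod_append]

theorem WvalU_cons {R : Type*} [Ring R] (d dinv : R) (e : ℕ → R) (U : A → A → R)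
    (o : OpU A) (l : List (OpU A)) :
    WvalU d dinv e U (o :: l) = o.val d dinv e U * WvalU d dinv e U l := by
  unfold WvalU
  rw [List.map_cons, List.prod_cons]

theorem WvalU_nil {R : Type*} [Ring R] (d dinv : R) (e : ℕ → R) (U : A → A → R) :
    WvalU d dinv e U ([] : List (OpU A)) = 1 := rfl

theorem OpU.map_val {R S : Type*} [Ring R] [Ring S] (f : R →+* S) (d dinv : R) (e : ℕ → R)
    (U : A → A → R) (o : OpU A) :
    f (o.val d dinv e U) = o.val (f d) (f dinv) (fun k => f (e k)) (fun a b => f (U a b)) := by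
  cases o with
  | op x => exact Op.map_val f d dinv e x
  | U a b => rfl

theorem map_WvalU {R S : Type*} [Ring R] [Ring S] (f : R →+* S) (d dinv : R) (e : ℕ → R)
    (U : A → A → R) (ops : List (OpU A)) :
    f (WvalU d dinv e U ops) =
      WvalU (f d) (f dinv) (fun k => f (e k)) (fun a b => f (U a b)) ops := by
  unfold WvalU
  rw [map_list_prod, List.map_map]
  congr 1
  apply List.map_congr_left
  intro o _
  exact OpU.map_val f d dinv e U o

/-! ### All representations together -/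

section Big

variable [Fintype A] [DecidableEq A] {N : Type} [DecidableEq N] {δ : ℝ}

/-- The colours of the `n`-th colouring representation. -/
abbrev Cn (A : Type) (n : ℕ) : Type := A ⊕ Fin n

/-- The colouring algebra. -/
abbrev CA (A : Type) (n : ℕ) : Type := Module.End ℝ ((ℕ → Cn A n) → ℝ)

/-- All colouring algebras and the height algebra together. -/
abbrev Big (A N : Type) : Type := (∀ n : ℕ, CA A n) × HA N

/-- Loop parameter of the `n`-th colouring representation. -/
noncomputable def dn (A : Type) [Fintype A] (n : ℕ) : ℝ := Real.sqrt ((Fintype.card A : ℝ) + n)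

theorem dn_pos [Nonempty A] (n : ℕ) : 0 < dn A n := by
  apply Real.sqrt_pos.2
  have : 0 < (Fintype.card A : ℝ) := by exact_mod_cast Fintype.card_pos
  positivity

theorem dn_sq (n : ℕ) : dn A n ^ 2 = (Fintype.card A : ℝ) + n := Real.sq_sqrt (by positivity)

theorem dn_card (n : ℕ) : dn A n ^ 2 = Fintype.card (Cn A n) := by
  rw [dn_sq, Fintype.card_sum, Fintype.card_fin]; push_cast; ring

/-- The boundary operators of the `n`-th colouring representation. -/
noncomputable def nU (A : Type) [Fintype A] [DecidableEq A] (n : ℕ) (a b : A) : CA A n :=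
  cU (Sum.inl a : Cn A n) (Sum.inl b)

noncomputable def bD (A N : Type) [Fintype A] (δ : ℝ) : Big A N := (fun n => dn A n • 1, δ • 1)
noncomputable def bDinv (A N : Type) [Fintype A] (δ : ℝ) : Big A N :=
  (fun n => (dn A n)⁻¹ • 1, δ⁻¹ • 1)
noncomputable def bE (Γ : HG N A δ) (k : ℕ) : Big A N :=
  (fun n => cE (Cn A n) (dn A n) k, gE Γ k)
noncomputable def bU (Γ : HG N A δ) (a b : A) : Big A N := (fun n => nU A n a b, gU Γ a b)

theorem n_TLURel [Nonempty A] (n : ℕ) :
    TLURel (M := CA A n) (dn A n • 1) (cE (Cn A n) (dn A n)) (nU A n) :=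
  c_TLURel (fun a : A => (Sum.inl a : Cn A n)) Sum.inl_injective (dn_pos n) (dn_card n)

theorem big_ext {x y : Big A N} (h1 : ∀ n, x.1 n = y.1 n) (h2 : x.2 = y.2) : x = y :=
  Prod.ext (funext h1) h2

theorem b_TLURel [Nonempty A] (Γ : HG N A δ) : TLURel (bD A N δ) (bE Γ) (bU Γ) where
  dcomm i := big_ext (fun n => (n_TLURel n).dcomm i) ((g_TLURel Γ).dcomm i)
  sq i hi := big_ext (fun n => (n_TLURel n).sq i hi) ((g_TLURel Γ).sq i hi)
  up i hi := big_ext (fun n => (n_TLURel n).up i hi) ((g_TLURel Γ).up i hi)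
  down i hi := big_ext (fun n => (n_TLURel n).down i hi) ((g_TLURel Γ).down i hi)
  comm i j hi hij := big_ext (fun n => (n_TLURel n).comm i j hi hij)
    ((g_TLURel Γ).comm i j hi hij)
  dU a b := big_ext (fun n => (n_TLURel n).dU a b) ((g_TLURel Γ).dU a b)
  UU a b c := big_ext (fun n => (n_TLURel n).UU a b c) ((g_TLURel Γ).UU a b c)
  UU0 a b c f h := big_ext (fun n => (n_TLURel n).UU0 a b c f h) ((g_TLURel Γ).UU0 a b c f h)
  Ue a b i hi := big_ext (fun n => (n_TLURel n).Ue a b i hi) ((g_TLURel Γ).Ue a b i hi)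
  eUe a b h := big_ext (fun n => (n_TLURel n).eUe a b h) ((g_TLURel Γ).eUe a b h)
  Ue1 a := big_ext (fun n => (n_TLURel n).Ue1 a) ((g_TLURel Γ).Ue1 a)

/-- The closure of `x` is given by one polynomial in all representations. -/
def GoodU (Γ : HG N A δ) (a : A) (m : ℕ) (x : Big A N) : Prop :=
  ∃ (Q : ℝ[X]) (K : ℕ),
    (∀ n, dn A n ^ K • (nU A n a a * (TLX (cE (Cn A n) (dn A n)) (2 * m) * x.1 n *
        TLX (cE (Cn A n) (dn A n)) (2 * m)) * nU A n a a) =
      Q.eval (dn A n) • (nU A n a a * TLX (cE (Cn A n) (dn A n)) (2 * m))) ∧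
    δ ^ K • (gU Γ a a * (TLX (gE Γ) (2 * m) * x.2 * TLX (gE Γ) (2 * m)) * gU Γ a a) =
      Q.eval δ • (gU Γ a a * TLX (gE Γ) (2 * m))

theorem bX_fst (Γ : HG N A δ) (m n : ℕ) :
    (TLX (bE Γ) (2 * m)).1 n = TLX (cE (Cn A n) (dn A n)) (2 * m) :=
  map_TLX ((Pi.evalMonoidHom (fun n : ℕ => CA A n) n).comp (MonoidHom.fst _ _)) (bE Γ) (2 * m)

theorem bX_snd (Γ : HG N A δ) (m : ℕ) :
    (TLX (bE Γ) (2 * m)).2 = TLX (gE Γ) (2 * m) :=
  map_TLX (MonoidHom.snd (∀ n : ℕ, CA A n) (HA N)) (bE Γ) (2 * m)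

theorem GoodU.of_mem [Nonempty A] (Γ : HG N A δ) (a : A) {m : ℕ} {w : Big A N}
    (hw : w ∈ TLB (bD A N δ) (bE Γ) (bU Γ) (2 * m)) : GoodU Γ a m w := by
  rcases (b_TLURel Γ).eval a m hw with h0 | ⟨j, hj⟩
  · refine ⟨0, 0, fun n => ?_, ?_⟩
    · have h1 := congrArg (fun z : Big A N => z.1 n) h0
      have h4 : nU A n a a * ((TLX (bE Γ) (2 * m)).1 n * w.1 n * (TLX (bE Γ) (2 * m)).1 n) *
        nU A n a a = 0 := h1
      rw [bX_fst] at h4
      rw [h4]; simp
    · have h1 := congrArg (fun z : Big A N => z.2) h0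
      have h4 : gU Γ a a * ((TLX (bE Γ) (2 * m)).2 * w.2 * (TLX (bE Γ) (2 * m)).2) *
        gU Γ a a = 0 := h1
      rw [bX_snd] at h4
      rw [h4]; simp
  · refine ⟨X ^ j, 0, fun n => ?_, ?_⟩
    · have h1 := congrArg (fun z : Big A N => z.1 n) hj
      have h3 : (bD A N δ ^ j).1 n = (dn A n • (1 : CA A n)) ^ j := rfl
      have h4 : nU A n a a * ((TLX (bE Γ) (2 * m)).1 n * w.1 n * (TLX (bE Γ) (2 * m)).1 n) *
        nU A n a a = (bD A N δ ^ j).1 n * (nU A n a a * (TLX (bE Γ) (2 * m)).1 n) := h1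
      rw [bX_fst, h3] at h4
      rw [pow_zero, one_smul, h4, eval_pow, eval_X, _root_.smul_pow, one_pow, smul_mul_assoc,
        one_mul]
    · have h1 := congrArg (fun z : Big A N => z.2) hj
      have h3 : (bD A N δ ^ j).2 = (δ • (1 : HA N)) ^ j := rfl
      have h4 : gU Γ a a * ((TLX (bE Γ) (2 * m)).2 * w.2 * (TLX (bE Γ) (2 * m)).2) *
        gU Γ a a = (bD A N δ ^ j).2 * (gU Γ a a * (TLX (bE Γ) (2 * m)).2) := h1
      rw [bX_snd, h3] at h4
      rw [pow_zero, one_smul, h4, eval_pow, eval_X, _root_.smul_pow, one_pow, smul_mul_assoc,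
        one_mul]

/-- Scaling by the loop parameter. -/
theorem GoodU.d_mul {Γ : HG N A δ} {a : A} {m : ℕ} {x : Big A N} (hx : GoodU Γ a m x) :
    GoodU Γ a m (bD A N δ * x) := by
  obtain ⟨Q, K, h1, h2⟩ := hx
  refine ⟨X * Q, K, fun n => ?_, ?_⟩
  · have : (bD A N δ * x).1 n = dn A n • x.1 n := by
      change (dn A n • (1 : CA A n)) * x.1 n = _
      rw [smul_mul_assoc, one_mul]
    rw [this, mul_smul_comm, smul_mul_assoc, mul_smul_comm, smul_mul_assoc, smul_comm, h1,
      eval_mul, eval_X, mul_smul]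
  · have : (bD A N δ * x).2 = δ • x.2 := by
      change (δ • (1 : HA N)) * x.2 = _
      rw [smul_mul_assoc, one_mul]
    rw [this, mul_smul_comm, smul_mul_assoc, mul_smul_comm, smul_mul_assoc, smul_comm, h2,
      eval_mul, eval_X, mul_smul]

theorem GoodU.dinv_mul [Nonempty A] (hδ : δ ≠ 0) {Γ : HG N A δ} {a : A} {m : ℕ} {x : Big A N}
    (hx : GoodU Γ a m x) : GoodU Γ a m (bDinv A N δ * x) := by
  obtain ⟨Q, K, h1, h2⟩ := hx
  refine ⟨Q, K + 1, fun n => ?_, ?_⟩
  · have : (bDinv A N δ * x).1 n = (dn A n)⁻¹ • x.1 n := by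
      change ((dn A n)⁻¹ • (1 : CA A n)) * x.1 n = _
      rw [smul_mul_assoc, one_mul]
    have hne := (dn_pos (A := A) n).ne'
    rw [this, mul_smul_comm, smul_mul_assoc, mul_smul_comm, smul_mul_assoc, smul_smul, pow_succ,
      mul_assoc, mul_inv_cancel₀ hne, mul_one, h1]
  · have : (bDinv A N δ * x).2 = δ⁻¹ • x.2 := by
      change (δ⁻¹ • (1 : HA N)) * x.2 = _
      rw [smul_mul_assoc, one_mul]
    rw [this, mul_smul_comm, smul_mul_assoc, mul_smul_comm, smul_mul_assoc, smul_smul, pow_succ,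
      mul_assoc, mul_inv_cancel₀ hδ, mul_one, h2]

theorem GoodU.sub {Γ : HG N A δ} {a : A} {m : ℕ} {x y : Big A N} (hx : GoodU Γ a m x)
    (hy : GoodU Γ a m y) : GoodU Γ a m (x - y) := by
  obtain ⟨Q, K, h1, h2⟩ := hx
  obtain ⟨Q', K', h1', h2'⟩ := hy
  refine ⟨X ^ K' * Q - X ^ K * Q', K + K', fun n => ?_, ?_⟩
  · have h0 : (x - y).1 n = x.1 n - y.1 n := rfl
    have e1 := congrArg (fun z => dn A n ^ K' • z) (h1 n)
    have e2 := congrArg (fun z => dn A n ^ K • z) (h1' n)
    simp only [smul_smul] at e1 e2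
    have e3 : (X ^ K' * Q - X ^ K * Q').eval (dn A n) =
        dn A n ^ K' * Q.eval (dn A n) - dn A n ^ K * Q'.eval (dn A n) := by simp
    have e4 := sub_smul (dn A n ^ K' * Q.eval (dn A n)) (dn A n ^ K * Q'.eval (dn A n))
      (nU A n a a * TLX (cE (Cn A n) (dn A n)) (2 * m))
    rw [h0, mul_sub, sub_mul, mul_sub, sub_mul, smul_sub, e3, e4, ← e1, ← e2, pow_add,
      mul_comm (dn A n ^ K) (dn A n ^ K')]
  · have h0 : (x - y).2 = x.2 - y.2 := rfl
    have e1 := congrArg (fun z => δ ^ K' • z) h2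
    have e2 := congrArg (fun z => δ ^ K • z) h2'
    simp only [smul_smul] at e1 e2
    have e3 : (X ^ K' * Q - X ^ K * Q').eval δ =
        δ ^ K' * Q.eval δ - δ ^ K * Q'.eval δ := by simp
    have e4 := sub_smul (δ ^ K' * Q.eval δ) (δ ^ K * Q'.eval δ)
      (gU Γ a a * TLX (gE Γ) (2 * m))
    rw [h0, mul_sub, sub_mul, mul_sub, sub_mul, smul_sub, e3, e4, ← e1, ← e2, pow_add,
      mul_comm (δ ^ K) (δ ^ K')]

theorem bD_comm (x : Big A N) : x * bD A N δ = bD A N δ * x := by
  refine big_ext (fun n => ?_) ?_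
  · change x.1 n * (dn A n • (1 : CA A n)) = (dn A n • (1 : CA A n)) * x.1 n
    rw [smul_mul_assoc, mul_smul_comm, one_mul, mul_one]
  · change x.2 * (δ • (1 : HA N)) = (δ • (1 : HA N)) * x.2
    rw [smul_mul_assoc, mul_smul_comm, one_mul, mul_one]

theorem bDinv_comm (x : Big A N) : x * bDinv A N δ = bDinv A N δ * x := by
  refine big_ext (fun n => ?_) ?_
  · change x.1 n * ((dn A n)⁻¹ • (1 : CA A n)) = ((dn A n)⁻¹ • (1 : CA A n)) * x.1 n
    rw [smul_mul_assoc, mul_smul_comm, one_mul, mul_one]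
  · change x.2 * (δ⁻¹ • (1 : HA N)) = (δ⁻¹ • (1 : HA N)) * x.2
    rw [smul_mul_assoc, mul_smul_comm, one_mul, mul_one]

theorem GoodU.ops [Nonempty A] (hδ : δ ≠ 0) (Γ : HG N A δ) (a : A) (m : ℕ) :
    ∀ (ops : List (OpU A)), (∀ o ∈ ops, o.ok m) →
    ∀ w ∈ TLB (bD A N δ) (bE Γ) (bU Γ) (2 * m),
      GoodU Γ a m (w * WvalU (bD A N δ) (bDinv A N δ) (bE Γ) (bU Γ) ops)
  | [], _, w, hw => by
    rw [WvalU_nil, mul_one]
    exact GoodU.of_mem Γ a hw
  | (o :: ops), hok, w, hw => by
    have IH := GoodU.ops hδ Γ a m ops (fun o ho => hok o (List.mem_cons_of_mem _ ho))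
    have ho := hok o List.mem_cons_self
    rw [WvalU_cons]
    set W := WvalU (bD A N δ) (bDinv A N δ) (bE Γ) (bU Γ) ops with hWdef
    rcases o with o | ⟨b, c⟩
    · cases o with
      | J i =>
        have hi : i + 1 ≤ m := ho
        have h1 := IH (w * bE Γ (2 * i + 1)) (mul_mem hw (e_mem_TLB (by omega) (by omega)))
        have h2 := h1.dinv_mul hδ
        have h3 : w * (OpU.val (bD A N δ) (bDinv A N δ) (bE Γ) (bU Γ) (OpU.op (Op.J i)) * W) =
            bDinv A N δ * (w * bE Γ (2 * i + 1) * W) := by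
          simp only [OpU.val, Op.val]
          rw [← mul_assoc, ← mul_assoc w, bDinv_comm, mul_assoc, mul_assoc, mul_assoc]
        rw [h3]; exact h2
      | H i =>
        have hi : i + 1 ≤ m := ho
        have h1 := IH (w * bE Γ (2 * i + 1)) (mul_mem hw (e_mem_TLB (by omega) (by omega)))
        have h2 := h1.dinv_mul hδ
        have h4 := (IH w hw).sub h2
        have h3 : w * (OpU.val (bD A N δ) (bDinv A N δ) (bE Γ) (bU Γ) (OpU.op (Op.H i)) * W) =
            w * W - bDinv A N δ * (w * bE Γ (2 * i + 1) * W) := by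
          simp only [OpU.val, Op.val]
          rw [sub_mul, one_mul, mul_sub, ← mul_assoc, ← mul_assoc w, bDinv_comm, mul_assoc,
            mul_assoc, mul_assoc]
        rw [h3]; exact h4
      | D i =>
        obtain ⟨hi1, hi2⟩ : 1 ≤ i ∧ i ≤ m := ho
        have h1 := IH (w * bE Γ (2 * i)) (mul_mem hw (e_mem_TLB (by omega) (by omega)))
        have h2 := h1.d_mul
        have h3 : w * (OpU.val (bD A N δ) (bDinv A N δ) (bE Γ) (bU Γ) (OpU.op (Op.D i)) * W) =
            bD A N δ * (w * bE Γ (2 * i) * W) := by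
          simp only [OpU.val, Op.val]
          rw [← mul_assoc, ← mul_assoc w, bD_comm, mul_assoc, mul_assoc, mul_assoc]
        rw [h3]; exact h2
      | V i =>
        obtain ⟨hi1, hi2⟩ : 1 ≤ i ∧ i ≤ m := ho
        have h1 := IH (w * bE Γ (2 * i)) (mul_mem hw (e_mem_TLB (by omega) (by omega)))
        have h2 := h1.d_mul
        have h4 := h2.sub (IH w hw)
        have h3 : w * (OpU.val (bD A N δ) (bDinv A N δ) (bE Γ) (bU Γ) (OpU.op (Op.V i)) * W) =
            bD A N δ * (w * bE Γ (2 * i) * W) - w * W := by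
          simp only [OpU.val, Op.val]
          rw [sub_mul, one_mul, mul_sub, ← mul_assoc, ← mul_assoc w, bD_comm, mul_assoc,
            mul_assoc, mul_assoc]
        rw [h3]; exact h4
    · have h1 := IH (w * bU Γ b c) (mul_mem hw (U_mem_TLB b c _))
      have h3 : w * (OpU.val (bD A N δ) (bDinv A N δ) (bE Γ) (bU Γ) (OpU.U b c) * W) =
          w * bU Γ b c * W := by
        rw [mul_assoc]
        rfl
      rw [h3]; exact h1

/-- The evaluation of a network with boundary operators is given by one polynomial in `δ` in all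
colouring representations and in the height representation. -/
theorem transferU [Nonempty A] (hδ : δ ≠ 0) (Γ : HG N A δ) (a : A) (m : ℕ) (ops : List (OpU A))
    (hok : ∀ o ∈ ops, o.ok m) :
    ∃ (Q : ℝ[X]) (K : ℕ),
    (∀ n, dn A n ^ K • (nU A n a a * (TLX (cE (Cn A n) (dn A n)) (2 * m) *
        WvalU (dn A n • 1) ((dn A n)⁻¹ • 1) (cE (Cn A n) (dn A n)) (nU A n) ops *
        TLX (cE (Cn A n) (dn A n)) (2 * m)) * nU A n a a) =
      Q.eval (dn A n) • (nU A n a a * TLX (cE (Cn A n) (dn A n)) (2 * m))) ∧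
    δ ^ K • (gU Γ a a * (TLX (gE Γ) (2 * m) * WvalU (δ • 1) (δ⁻¹ • 1) (gE Γ) (gU Γ) ops *
        TLX (gE Γ) (2 * m)) * gU Γ a a) =
      Q.eval δ • (gU Γ a a * TLX (gE Γ) (2 * m)) := by
  obtain ⟨Q, K, h1, h2⟩ := GoodU.ops hδ Γ a m ops hok 1 (one_mem _)
  rw [one_mul] at h1 h2
  refine ⟨Q, K, fun n => ?_, ?_⟩
  · have h := h1 n
    have h5 : (WvalU (bD A N δ) (bDinv A N δ) (bE Γ) (bU Γ) ops).1 n =
        WvalU (dn A n • 1) ((dn A n)⁻¹ • 1) (cE (Cn A n) (dn A n)) (nU A n) ops :=
      map_WvalU ((Pi.evalRingHom (fun n : ℕ => CA A n) n).comp (RingHom.fst _ _))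
        (bD A N δ) (bDinv A N δ) (bE Γ) (bU Γ) ops
    rw [h5] at h
    exact h
  · have h5 : (WvalU (bD A N δ) (bDinv A N δ) (bE Γ) (bU Γ) ops).2 =
        WvalU (δ • 1) (δ⁻¹ • 1) (gE Γ) (gU Γ) ops :=
      map_WvalU (RingHom.snd (∀ n : ℕ, CA A n) (HA N))
        (bD A N δ) (bDinv A N δ) (bE Γ) (bU Γ) ops
    rw [h5] at h2
    exact h2

end Big

end Pool.Agent.Helper35.DInf
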