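import Mathlib
import Pool.Agent.Helper35.DInf.Trans

/-!
Pins: operations fixing the colour (the height) of a site which is the right neighbour of sites
carrying the root.
-/

set_option autoImplicit false
set_option linter.unusedSectionVars false
set_option linter.unusedVariables false

namespace Pool.Agent.Helper35.DInf

open Polynomial
open Pool.Agent.Helper70.BLB

variable {A : Type}

/-- Elementary operations and pins: `pin p a` pins site `p + 1` to `a`; the sites `0, ..., p`
must carry the root. -/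
inductive Opx (A : Type)
  | op (x : Op)
  | pin (p : ℕ) (a : A)

/-- The operation only involves sites `0, ..., m`. -/
def Opx.ok (m : ℕ) : Opx A → Prop
  | .op x => x.ok m
  | .pin p _ => p + 1 ≤ m

/-- Copy the state of site `0` to the sites `1, ..., p`. -/
def copyOps (A : Type) : ℕ → List (OpU A)
  | 0 => []
  | (p + 1) => copyOps A p ++ [OpU.op (Op.D (p + 1)), OpU.op (Op.J p)]

/-- Realisation of a pin. -/
def pinOps (a0 : A) (p : ℕ) (a : A) : List (OpU A) :=
  OpU.U a0 a :: (copyOps A p ++ (OpU.op (Op.J p) :: OpU.U a a0 :: copyOps A p))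

/-- Realisation of an operation. -/
def Opx.exp (a0 : A) : Opx A → List (OpU A)
  | .op x => [OpU.op x]
  | .pin p a => pinOps a0 p a

/-- Realisation of a list of operations. -/
def expand (a0 : A) : List (Opx A) → List (OpU A)
  | [] => []
  | (o :: ops) => o.exp a0 ++ expand a0 ops

theorem copyOps_ok {m : ℕ} : ∀ p : ℕ, p ≤ m → ∀ o ∈ copyOps A p, OpU.ok m o
  | 0, _, o, ho => by simp [copyOps] at ho
  | (p + 1), hp, o, ho => by
    simp only [copyOps, List.mem_append, List.mem_cons, List.not_mem_nil, or_false] at ho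
    rcases ho with ho | rfl | rfl
    · exact copyOps_ok p (by omega) o ho
    · exact ⟨by omega, hp⟩
    · exact hp

theorem expand_ok (a0 : A) {m : ℕ} : ∀ ops : List (Opx A), (∀ o ∈ ops, Opx.ok m o) →
    ∀ o ∈ expand a0 ops, OpU.ok m o
  | [], _, o, ho => by simp [expand] at ho
  | (x :: ops), hx, o, ho => by
    simp only [expand, List.mem_append] at ho
    rcases ho with ho | ho
    · have hxo := hx x List.mem_cons_self
      cases x with
      | op y =>
        simp only [Opx.exp, List.mem_singleton] at ho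
        subst ho
        exact hxo
      | pin p a =>
        have hp : p + 1 ≤ m := hxo
        simp only [Opx.exp, pinOps, List.mem_cons, List.mem_append] at ho
        rcases ho with rfl | ho | rfl | rfl | ho
        · trivial
        · exact copyOps_ok p (by omega) o ho
        · exact hp
        · trivial
        · exact copyOps_ok p (by omega) o ho
    · exact expand_ok a0 ops (fun o ho => hx o (List.mem_cons_of_mem _ ho)) o ho

/-- Validity of the pins: `R` is the set of sites which are known to carry the root. -/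
def RV : List (Opx A) → (ℕ → Prop) → Prop
  | [], _ => True
  | (.op (.J i) :: ops), R => RV ops (fun l => R l ∨ (l = i + 1 ∧ R i))
  | (.op (.H _) :: ops), R => RV ops R
  | (.op (.D i) :: ops), R => 1 ≤ i ∧ RV ops (fun l => R l ∧ l ≠ i)
  | (.op (.V i) :: ops), R => 1 ≤ i ∧ RV ops (fun l => R l ∧ l ≠ i)
  | (.pin p _ :: ops), R => (∀ l, l ≤ p → R l) ∧ RV ops R

theorem RV_mono : ∀ (ops : List (Opx A)) (R R' : ℕ → Prop), (∀ l, R l → R' l) → RV ops R →
    RV ops R'
  | [], _, _, _, _ => trivial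
  | (.op (.J i) :: ops), R, R', h, hv =>
    RV_mono ops _ _ (fun l hl => hl.imp (h l) (fun h2 => ⟨h2.1, h i h2.2⟩)) hv
  | (.op (.H _) :: ops), R, R', h, hv => RV_mono ops R R' h hv
  | (.op (.D i) :: ops), R, R', h, hv =>
    ⟨hv.1, RV_mono ops _ _ (fun l hl => ⟨h l hl.1, hl.2⟩) hv.2⟩
  | (.op (.V i) :: ops), R, R', h, hv =>
    ⟨hv.1, RV_mono ops _ _ (fun l hl => ⟨h l hl.1, hl.2⟩) hv.2⟩
  | (.pin p a :: ops), R, R', h, hv =>
    ⟨fun l hl => h l (hv.1 l hl), RV_mono ops R R' h hv.2⟩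

/-! ### Colourings -/

section Color

variable {C : Type} [Fintype C] [DecidableEq C]

/-- Multiplication by the indicator that site `i` has colour `x`. -/
noncomputable def cP (i : ℕ) (x : C) : Module.End ℝ ((ℕ → C) → ℝ) where
  toFun ψ := fun c => if c i = x then ψ c else 0
  map_add' φ ψ := by
    funext c
    simp only [Pi.add_apply]
    split_ifs <;> simp
  map_smul' a φ := by
    funext c
    simp only [Pi.smul_apply, smul_eq_mul, RingHom.id_apply]
    split_ifs <;> simp

@[simp] theorem cP_apply (i : ℕ) (x : C) (ψ : (ℕ → C) → ℝ) (c : ℕ → C) :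
    cP i x ψ c = if c i = x then ψ c else 0 := rfl

/-- Meaning of an operation on colourings. -/
noncomputable def cvalx (ι : A → C) : Opx A → Module.End ℝ ((ℕ → C) → ℝ)
  | .op x => cval C x
  | .pin p a => cP (p + 1) (ι a)

noncomputable def cWx (ι : A → C) (ops : List (Opx A)) : Module.End ℝ ((ℕ → C) → ℝ) :=
  (ops.map (cvalx ι)).prod

theorem cWx_nil (ι : A → C) (ψ : (ℕ → C) → ℝ) : cWx ι ([] : List (Opx A)) ψ = ψ := by
  simp [cWx]

theorem cWx_cons (ι : A → C) (o : Opx A) (ops : List (Opx A)) (ψ : (ℕ → C) → ℝ) :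
    cWx ι (o :: ops) ψ = cvalx ι o (cWx ι ops ψ) := by
  unfold cWx
  rw [List.map_cons, List.prod_cons]
  rfl

theorem cWx_append (ι : A → C) (l l' : List (Opx A)) (ψ : (ℕ → C) → ℝ) :
    cWx ι (l ++ l') ψ = cWx ι l (cWx ι l' ψ) := by
  unfold cWx
  rw [List.map_append, List.prod_append]
  rfl

theorem cWx_op (ι : A → C) (l : List Op) (ψ : (ℕ → C) → ℝ) :
    cWx ι (l.map Opx.op) ψ = cW C l ψ := by
  unfold cWx cW
  rw [List.map_map]
  rfl

/-- Value of an operation with boundary operators on colourings. -/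
noncomputable def cvalU (ι : A → C) : OpU A → Module.End ℝ ((ℕ → C) → ℝ)
  | .op x => cval C x
  | .U a b => cU (ι a) (ι b)

noncomputable def cWU (ι : A → C) (ops : List (OpU A)) : Module.End ℝ ((ℕ → C) → ℝ) :=
  (ops.map (cvalU ι)).prod

theorem cWU_cons (ι : A → C) (o : OpU A) (ops : List (OpU A)) (ψ : (ℕ → C) → ℝ) :
    cWU ι (o :: ops) ψ = cvalU ι o (cWU ι ops ψ) := by
  unfold cWU
  rw [List.map_cons, List.prod_cons]
  rfl

theorem cWU_append (ι : A → C) (l l' : List (OpU A)) (ψ : (ℕ → C) → ℝ) :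
    cWU ι (l ++ l') ψ = cWU ι l (cWU ι l' ψ) := by
  unfold cWU
  rw [List.map_append, List.prod_append]
  rfl

theorem cWU_nil (ι : A → C) (ψ : (ℕ → C) → ℝ) : cWU ι ([] : List (OpU A)) ψ = ψ := by
  simp [cWU]

theorem WvalU_color {δ : ℝ} (hδ : δ ≠ 0) (ι : A → C) (ops : List (OpU A)) :
    WvalU (δ • 1) (δ⁻¹ • 1) (cE C δ) (fun a b => cU (ι a) (ι b)) ops = cWU ι ops := by
  unfold WvalU cWU
  congr 1
  apply List.map_congr_left
  intro o _
  cases o with
  | op x =>
    have h := Wval_color (C := C) hδ [x]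
    simp only [Wval, cW, List.map_cons, List.map_nil, List.prod_cons, List.prod_nil,
      mul_one] at h
    exact h
  | U a b => rfl

/-- Effect of a copy. -/
theorem cWU_copy (ι : A → C) : ∀ (p : ℕ) (ψ : (ℕ → C) → ℝ) (c : ℕ → C),
    cWU ι (copyOps A p) ψ c = ψ (ov p c (fun _ => c 0))
  | 0, ψ, c => by
    have : copyOps A 0 = [] := rfl
    rw [this, cWU_nil]
    congr 1
    funext i
    rw [ov_out]; omega
  | (p + 1), ψ, c => by
    have : copyOps A (p + 1) = copyOps A p ++ [OpU.op (Op.D (p + 1)), OpU.op (Op.J p)] := rfl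
    rw [this, cWU_append, cWU_copy ι p]
    have h0 : ov p c (fun _ => c 0) p = c 0 := by
      by_cases hp : p = 0
      · subst hp; rw [ov_out]; omega
      · unfold ov; rw [dif_pos ⟨by omega, le_rfl⟩]
    rw [cWU_cons, cWU_cons, cWU_nil]
    simp only [cvalU, cval, cD_apply, cJ_apply]
    rw [Finset.sum_eq_single (c 0)]
    · rw [Function.update_of_ne (by omega), Function.update_self, h0, if_pos rfl, ← ov_snoc]
      congr 1
      congr 1
      funext i
      refine Fin.lastCases ?_ (fun i => ?_) i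
      · rw [Fin.snoc_last]
      · rw [Fin.snoc_castSucc]
    · intro b _ hb
      rw [Function.update_of_ne (by omega), Function.update_self, h0, if_neg (Ne.symm hb)]
    · intro h; exact absurd (Finset.mem_univ _) h

/-- Effect of a pin on colourings. -/
theorem cWU_pin (ι : A → C) (a0 : A) (p : ℕ) (a : A) (ψ : (ℕ → C) → ℝ) (c : ℕ → C)
    (hc : ∀ l, l ≤ p → c l = ι a0) :
    cWU ι (pinOps a0 p a) ψ c = if c (p + 1) = ι a then ψ c else 0 := by
  unfold pinOps
  rw [cWU_cons]
  simp only [cvalU, cU_apply]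
  rw [if_pos (hc 0 (by omega)), cWU_append, cWU_copy, Function.update_self, cWU_cons]
  simp only [cvalU, cval, cJ_apply]
  have h1 : ov p (Function.update c 0 (ι a)) (fun _ => ι a) (p + 1) = c (p + 1) := by
    rw [ov_out _ _ _ (by omega), Function.update_of_ne (by omega)]
  have h2 : ov p (Function.update c 0 (ι a)) (fun _ => ι a) p = ι a := by
    by_cases hp : p = 0
    · subst hp; rw [ov_out _ _ _ (by omega), Function.update_self]
    · unfold ov; rw [dif_pos ⟨by omega, le_rfl⟩]
  rw [h1, h2]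
  by_cases h3 : c (p + 1) = ι a
  · rw [if_pos h3.symm, if_pos h3, cWU_cons]
    simp only [cvalU, cU_apply]
    rw [ov_out _ _ _ (show ¬ (1 ≤ 0 ∧ 0 ≤ p) by omega), Function.update_self, if_pos rfl,
      cWU_copy, Function.update_self]
    congr 1
    funext i
    by_cases hi : 1 ≤ i ∧ i ≤ p
    · unfold ov
      rw [dif_pos hi]
      exact (hc i hi.2).symm
    · rw [ov_out _ _ _ hi]
      by_cases hi0 : i = 0
      · subst hi0; rw [Function.update_self]; exact (hc 0 (by omega)).symm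
      · rw [Function.update_of_ne hi0, ov_out _ _ _ hi, Function.update_of_ne hi0]
  · rw [if_neg (fun h => h3 h.symm), if_neg h3]

/-- The realisation of a list of operations acts as its meaning. -/
theorem cWU_expand (ι : A → C) (a0 : A) : ∀ (ops : List (Opx A)) (R : ℕ → Prop), R 0 →
    RV ops R → ∀ (ψ : (ℕ → C) → ℝ) (c : ℕ → C), (∀ l, R l → c l = ι a0) →
    cWU ι (expand a0 ops) ψ c = cWx ι ops ψ c
  | [], _, _, _, ψ, c, _ => by
    have : expand a0 ([] : List (Opx A)) = [] := rfl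
    rw [this, cWU_nil, cWx_nil]
  | (.op (.J i) :: ops), R, hR, hv, ψ, c, hc => by
    have : expand a0 (Opx.op (Op.J i) :: ops) = OpU.op (Op.J i) :: expand a0 ops := rfl
    rw [this, cWU_cons, cWx_cons]
    simp only [cvalU, cvalx, cval, cJ_apply]
    split_ifs with h1
    · apply cWU_expand ι a0 ops _ (Or.inl hR) hv
      rintro l (hl | ⟨rfl, hl⟩)
      · exact hc l hl
      · rw [← h1]; exact hc i hl
    · rfl
  | (.op (.H i) :: ops), R, hR, hv, ψ, c, hc => by
    have : expand a0 (Opx.op (Op.H i) :: ops) = OpU.op (Op.H i) :: expand a0 ops := rfl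
    have IH := cWU_expand ι a0 ops R hR hv ψ c hc
    rw [this, cWU_cons, cWx_cons]
    simp only [cvalU, cvalx, cval, LinearMap.sub_apply, Module.End.one_apply, Pi.sub_apply,
      cJ_apply, IH]
  | (.op (.D i) :: ops), R, hR, hv, ψ, c, hc => by
    have : expand a0 (Opx.op (Op.D i) :: ops) = OpU.op (Op.D i) :: expand a0 ops := rfl
    rw [this, cWU_cons, cWx_cons]
    simp only [cvalU, cvalx, cval, cD_apply]
    apply Finset.sum_congr rfl
    intro x _
    apply cWU_expand ι a0 ops _ ⟨hR, by have := hv.1; omega⟩ hv.2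
    rintro l ⟨hl, hne⟩
    rw [Function.update_of_ne hne]
    exact hc l hl
  | (.op (.V i) :: ops), R, hR, hv, ψ, c, hc => by
    have : expand a0 (Opx.op (Op.V i) :: ops) = OpU.op (Op.V i) :: expand a0 ops := rfl
    rw [this, cWU_cons, cWx_cons]
    simp only [cvalU, cvalx, cval, LinearMap.sub_apply, Module.End.one_apply, Pi.sub_apply,
      cD_apply]
    have IH : ∀ c' : ℕ → C, (∀ l, (R l ∧ l ≠ i) → c' l = ι a0) →
        cWU ι (expand a0 ops) ψ c' = cWx ι ops ψ c' := fun c' hc' =>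
      cWU_expand ι a0 ops _ ⟨hR, by have := hv.1; omega⟩ hv.2 ψ c' hc'
    rw [IH c (fun l hl => hc l hl.1)]
    congr 1
    apply Finset.sum_congr rfl
    intro x _
    apply IH
    rintro l ⟨hl, hne⟩
    rw [Function.update_of_ne hne]
    exact hc l hl
  | (.pin p a :: ops), R, hR, hv, ψ, c, hc => by
    have : expand a0 (Opx.pin p a :: ops) = pinOps a0 p a ++ expand a0 ops := rfl
    rw [this, cWU_append, cWx_cons, cWU_pin ι a0 p a _ c (fun l hl => hc l (hv.1 l hl))]
    simp only [cvalx, cP_apply]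
    split_ifs
    · exact cWU_expand ι a0 ops R hR hv.2 ψ c hc
    · rfl

/-- The operations do not change the colour of site `0`. -/
theorem cWx_congr (ι : A → C) : ∀ (ops : List (Opx A)) (R : ℕ → Prop), RV ops R →
    ∀ (ψ ψ' : (ℕ → C) → ℝ) (x : C), (∀ c, c 0 = x → ψ c = ψ' c) → ∀ c : ℕ → C, c 0 = x →
    cWx ι ops ψ c = cWx ι ops ψ' c
  | [], _, _, ψ, ψ', x, h, c, hc => by
    rw [cWx_nil, cWx_nil]; exact h c hc
  | (.op (.J i) :: ops), R, hv, ψ, ψ', x, h, c, hc => by
    rw [cWx_cons, cWx_cons]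
    simp only [cvalx, cval, cJ_apply]
    rw [cWx_congr ι ops _ hv ψ ψ' x h c hc]
  | (.op (.H i) :: ops), R, hv, ψ, ψ', x, h, c, hc => by
    rw [cWx_cons, cWx_cons]
    simp only [cvalx, cval, LinearMap.sub_apply, Module.End.one_apply, Pi.sub_apply, cJ_apply]
    rw [cWx_congr ι ops R hv ψ ψ' x h c hc]
  | (.op (.D i) :: ops), R, hv, ψ, ψ', x, h, c, hc => by
    rw [cWx_cons, cWx_cons]
    simp only [cvalx, cval, cD_apply]
    apply Finset.sum_congr rfl
    intro y _
    apply cWx_congr ι ops _ hv.2 ψ ψ' x h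
    rw [Function.update_of_ne (by have := hv.1; omega)]
    exact hc
  | (.op (.V i) :: ops), R, hv, ψ, ψ', x, h, c, hc => by
    rw [cWx_cons, cWx_cons]
    simp only [cvalx, cval, LinearMap.sub_apply, Module.End.one_apply, Pi.sub_apply, cD_apply]
    rw [cWx_congr ι ops _ hv.2 ψ ψ' x h c hc]
    congr 1
    apply Finset.sum_congr rfl
    intro y _
    apply cWx_congr ι ops _ hv.2 ψ ψ' x h
    rw [Function.update_of_ne (by have := hv.1; omega)]
    exact hc
  | (.pin p a :: ops), R, hv, ψ, ψ', x, h, c, hc => by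
    rw [cWx_cons, cWx_cons]
    simp only [cvalx, cP_apply]
    rw [cWx_congr ι ops R hv.2 ψ ψ' x h c hc]

/-- In a colouring representation the universal polynomial gives the number of trajectories. -/
theorem color_evalx {ι : A → C} {a0 : A} {δ : ℝ} (hδ : 0 < δ) (hc : δ ^ 2 = Fintype.card C)
    {m : ℕ} {ops : List (Opx A)} (hv : RV ops (fun l => l = 0)) {K : ℕ} {q : ℝ}
    (h : δ ^ K • (cU (ι a0) (ι a0) * (TLX (cE C δ) (2 * m) *
        WvalU (δ • 1) (δ⁻¹ • 1) (cE C δ) (fun a b => cU (ι a) (ι b)) (expand a0 ops) *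
        TLX (cE C δ) (2 * m)) * cU (ι a0) (ι a0)) =
      q • (cU (ι a0) (ι a0) * TLX (cE C δ) (2 * m))) (c : ℕ → C) (hc0 : c 0 = ι a0) :
    δ ^ K * cS C m (cWx ι ops (fun _ => 1)) c = q * δ ^ m := by
  have h1 := congrArg (fun (f : Module.End ℝ ((ℕ → C) → ℝ)) => f (fun _ => 1) c) h
  have hX1 : TLX (cE C δ) (2 * m) (fun _ => 1) = fun _ => δ ^ m := by
    funext c'
    rw [TLX_cE]
    have : ((δ⁻¹) ^ m • cS C m) (fun _ => (1 : ℝ)) c' =
      (δ⁻¹) ^ m * cS C m (fun _ => 1) c' := rfl
    rw [this, cS_apply, Finset.sum_const, Finset.card_univ, Fintype.card_fun, Fintype.card_fin,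
      nsmul_eq_mul, mul_one]
    push_cast
    rw [← hc, ← pow_mul, mul_comm 2 m, mul_two, pow_add, inv_pow]
    field_simp
  have hself : Function.update c 0 (ι a0) = c := by
    rw [Function.update_eq_self_iff, hc0]
  have hU : ∀ φ : (ℕ → C) → ℝ, cU (ι a0) (ι a0) φ c = φ c := by
    intro φ
    rw [cU_apply, if_pos hc0, hself]
  have hU1 : cU (ι a0) (ι a0) (fun _ => (1 : ℝ)) = fun c' => if c' 0 = ι a0 then 1 else 0 := rfl
  have hXind : TLX (cE C δ) (2 * m) (fun c' => if c' 0 = ι a0 then (1 : ℝ) else 0) =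
      δ ^ m • (fun c' : ℕ → C => if c' 0 = ι a0 then (1 : ℝ) else 0) := by
    funext c'
    have e1 := congrFun hX1 c'
    rw [TLX_cE] at e1 ⊢
    have e2 : ((δ⁻¹) ^ m • cS C m) (fun _ => (1 : ℝ)) c' =
      (δ⁻¹) ^ m * cS C m (fun _ => 1) c' := rfl
    have e3 : ((δ⁻¹) ^ m • cS C m) (fun c' => if c' 0 = ι a0 then (1 : ℝ) else 0) c' =
      (δ⁻¹) ^ m * cS C m (fun c' => if c' 0 = ι a0 then (1 : ℝ) else 0) c' := rfl
    rw [e2, cS_apply] at e1
    rw [e3, cS_apply, Pi.smul_apply, smul_eq_mul]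
    have e4 : ∀ x : Fin m → C, ov m c' x 0 = c' 0 := fun x => ov_out _ _ _ (by omega)
    simp only [e4]
    by_cases h0 : c' 0 = ι a0
    · simp only [if_pos h0]
      rw [e1, mul_one]
    · simp only [if_neg h0, Finset.sum_const_zero, mul_zero]
  have h2 : (δ ^ K • (cU (ι a0) (ι a0) * (TLX (cE C δ) (2 * m) *
        WvalU (δ • 1) (δ⁻¹ • 1) (cE C δ) (fun a b => cU (ι a) (ι b)) (expand a0 ops) *
        TLX (cE C δ) (2 * m)) * cU (ι a0) (ι a0)) : Module.End ℝ ((ℕ → C) → ℝ)) (fun _ => 1) c =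
      δ ^ K * cU (ι a0) (ι a0) (TLX (cE C δ) (2 * m)
        (WvalU (δ • 1) (δ⁻¹ • 1) (cE C δ) (fun a b => cU (ι a) (ι b)) (expand a0 ops)
        (TLX (cE C δ) (2 * m) (cU (ι a0) (ι a0) (fun _ => 1))))) c := rfl
  have h3 : (q • (cU (ι a0) (ι a0) * TLX (cE C δ) (2 * m)) :
      Module.End ℝ ((ℕ → C) → ℝ)) (fun _ => 1) c =
      q * cU (ι a0) (ι a0) (TLX (cE C δ) (2 * m) (fun _ => 1)) c := rfl
  have h4 := h2.symm.trans (h1.trans h3)
  rw [hU, hU, hX1, hU1, hXind, map_smul, map_smul, WvalU_color hδ.ne', TLX_cE] at h4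
  simp only [LinearMap.smul_apply, Pi.smul_apply, smul_eq_mul] at h4
  have h5 : cS C m (cWU ι (expand a0 ops) fun c' => if c' 0 = ι a0 then (1 : ℝ) else 0) c =
      cS C m (cWx ι ops (fun _ => 1)) c := by
    rw [cS_apply, cS_apply]
    apply Finset.sum_congr rfl
    intro x _
    have h0 : ov m c x 0 = ι a0 := by rw [ov_out _ _ _ (by omega)]; exact hc0
    rw [cWU_expand ι a0 ops (fun l => l = 0) rfl hv _ _ (fun l hl => by rw [hl]; exact h0)]
    apply cWx_congr ι ops _ hv _ _ (ι a0) _ _ h0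
    intro c' hc'
    rw [if_pos hc']
  rw [h5] at h4
  have h6 : δ ^ m * ((δ⁻¹) ^ m * cS C m (cWx ι ops fun _ => 1) c) =
      cS C m (cWx ι ops fun _ => 1) c := by
    rw [← mul_assoc, ← mul_pow, mul_inv_cancel₀ hδ.ne', one_pow, one_mul]
  rw [h6] at h4
  exact h4

end Color

end Pool.Agent.Helper35.DInf
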