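import Mathlib
import Pool.Agent.Helper35.DInf.Pins

/-!
Effect of the pins in the height representation, and the evaluation formula for heights.
-/

set_option autoImplicit false
set_option linter.unusedSectionVars false
set_option linter.unusedVariables false

namespace Pool.Agent.Helper35.DInf

open Polynomial
open Pool.Agent.Helper70.BLB

variable {A N : Type} [DecidableEq N] {δ : ℝ}

/-- Multiplication by the indicator that the height at position `k` is `x`. -/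
noncomputable def hP (k : ℕ) (x : N) : HA N where
  toFun ψ := fun h => if h k = x then ψ h else 0
  map_add' φ ψ := by
    funext c
    simp only [Pi.add_apply]
    split_ifs <;> simp
  map_smul' a φ := by
    funext c
    simp only [Pi.smul_apply, smul_eq_mul, RingHom.id_apply]
    split_ifs <;> simp

@[simp] theorem hP_apply (k : ℕ) (x : N) (ψ : (ℕ → N) → ℝ) (h : ℕ → N) :
    hP k x ψ h = if h k = x then ψ h else 0 := rfl

/-- Meaning of an operation on heights. -/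
noncomputable def hvalx (Γ : HG N A δ) : Opx A → HA N
  | .op x => x.val (δ • 1) (δ⁻¹ • 1) (gE Γ)
  | .pin p a => hP (2 * (p + 1)) (Γ.leaf a)

noncomputable def hWx (Γ : HG N A δ) (ops : List (Opx A)) : HA N := (ops.map (hvalx Γ)).prod

theorem hWx_nil (Γ : HG N A δ) (ψ : (ℕ → N) → ℝ) : hWx Γ ([] : List (Opx A)) ψ = ψ := by
  simp [hWx]

theorem hWx_cons (Γ : HG N A δ) (o : Opx A) (ops : List (Opx A)) (ψ : (ℕ → N) → ℝ) :
    hWx Γ (o :: ops) ψ = hvalx Γ o (hWx Γ ops ψ) := by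
  unfold hWx
  rw [List.map_cons, List.prod_cons]
  rfl

/-- Value of an operation with boundary operators on heights. -/
noncomputable def hWU (Γ : HG N A δ) (ops : List (OpU A)) : HA N :=
  WvalU (δ • 1) (δ⁻¹ • 1) (gE Γ) (gU Γ) ops

theorem hWU_cons (Γ : HG N A δ) (o : OpU A) (ops : List (OpU A)) (ψ : (ℕ → N) → ℝ) :
    hWU Γ (o :: ops) ψ = (o.val (δ • 1) (δ⁻¹ • 1) (gE Γ) (gU Γ)) (hWU Γ ops ψ) := by
  unfold hWU
  rw [WvalU_cons]
  rfl

theorem hWU_append (Γ : HG N A δ) (l l' : List (OpU A)) (ψ : (ℕ → N) → ℝ) :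
    hWU Γ (l ++ l') ψ = hWU Γ l (hWU Γ l' ψ) := by
  unfold hWU
  rw [WvalU_append]
  rfl

theorem hWU_nil (Γ : HG N A δ) (ψ : (ℕ → N) → ℝ) : hWU Γ ([] : List (OpU A)) ψ = ψ := by
  unfold hWU
  rw [WvalU_nil]
  rfl

theorem gval_J (Γ : HG N A δ) (i : ℕ) (Φ : (ℕ → N) → ℝ) (h : ℕ → N) :
    (Op.val (δ • (1 : HA N)) (δ⁻¹ • 1) (gE Γ) (Op.J i)) Φ h = δ⁻¹ * gE Γ (2 * i + 1) Φ h := by
  simp [Op.val]

theorem gval_H (Γ : HG N A δ) (i : ℕ) (Φ : (ℕ → N) → ℝ) (h : ℕ → N) :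
    (Op.val (δ • (1 : HA N)) (δ⁻¹ • 1) (gE Γ) (Op.H i)) Φ h =
      Φ h - δ⁻¹ * gE Γ (2 * i + 1) Φ h := by
  simp [Op.val]

theorem gval_D (Γ : HG N A δ) (i : ℕ) (Φ : (ℕ → N) → ℝ) (h : ℕ → N) :
    (Op.val (δ • (1 : HA N)) (δ⁻¹ • 1) (gE Γ) (Op.D i)) Φ h = δ * gE Γ (2 * i) Φ h := by
  simp [Op.val]

theorem gval_V (Γ : HG N A δ) (i : ℕ) (Φ : (ℕ → N) → ℝ) (h : ℕ → N) :
    (Op.val (δ • (1 : HA N)) (δ⁻¹ • 1) (gE Γ) (Op.V i)) Φ h =
      δ * gE Γ (2 * i) Φ h - Φ h := by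
  simp [Op.val]

/-- The neighbour of a leaf on a path is the centre. -/
theorem Pth.z_right {Γ : HG N A δ} {h : ℕ → N} (hp : Pth Γ h) {k : ℕ} {a : A}
    (hk : h k = Γ.leaf a) : h (k + 1) = Γ.z := by
  have := hp k
  rw [hk, Γ.nb_leaf, Finset.mem_singleton] at this
  exact this

theorem Pth.z_left {Γ : HG N A δ} {h : ℕ → N} (hp : Pth Γ h) {k : ℕ} {a : A}
    (hk : h (k + 1) = Γ.leaf a) : h k = Γ.z := by
  have := hp.back k
  rw [hk, Γ.nb_leaf, Finset.mem_singleton] at this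
  exact this

theorem HG.delta_leaf (Γ : HG N A δ) (a : A) : δ * Γ.S (Γ.leaf a) = Γ.S Γ.z := by
  rw [← Γ.eig, Γ.nb_leaf, Finset.sum_singleton]

theorem HG.leaf_mem (Γ : HG N A δ) (a : A) : Γ.leaf a ∈ Γ.nb Γ.z := by
  apply Γ.symm
  rw [Γ.nb_leaf, Finset.mem_singleton]

/-- The generator between two equal leaves multiplies by `δ`. -/
theorem gE_leaf (Γ : HG N A δ) (k : ℕ) (hk : 1 ≤ k) (Φ : (ℕ → N) → ℝ)
    {h : ℕ → N} {a : A} (hp : Pth Γ h) (h1 : h (k - 1) = Γ.leaf a) (h2 : h (k + 1) = Γ.leaf a) :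
    gE Γ k Φ h = δ * Φ h := by
  rw [gE_pos Γ k Φ hp (by rw [h1, h2]), h1, Γ.nb_leaf, Finset.sum_singleton]
  have hf : h k = Γ.z := by
    have := hp.z_right h1
    rwa [show k - 1 + 1 = k by omega] at this
  have e3 : Function.update h k Γ.z = h := by
    rw [Function.update_eq_self_iff, hf]
  have hS := Γ.pos (Γ.leaf a)
  rw [e3, ← Γ.delta_leaf a]
  field_simp

/-- Replace the heights at the sites `0, ..., p` by a leaf. -/
def hov (p : ℕ) (x : N) (h : ℕ → N) : ℕ → N := fun k => if k % 2 = 0 ∧ k ≤ 2 * p then x else h k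

theorem hov_succ (p : ℕ) (x : N) (h : ℕ → N) :
    hov (p + 1) x h = Function.update (hov p x h) (2 * (p + 1)) x := by
  funext k
  by_cases hk : k = 2 * (p + 1)
  · subst hk
    rw [Function.update_self]
    unfold hov
    rw [if_pos ⟨by omega, le_rfl⟩]
  · rw [Function.update_of_ne hk]
    unfold hov
    by_cases h1 : k % 2 = 0 ∧ k ≤ 2 * p
    · rw [if_pos h1, if_pos ⟨h1.1, by omega⟩]
    · rw [if_neg h1, if_neg (by omega)]

theorem hov_path {Γ : HG N A δ} {h : ℕ → N} (hp : Pth Γ h) (b : A) {p : ℕ}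
    (hl : ∀ l, l ≤ p → ∃ a, h (2 * l) = Γ.leaf a) : Pth Γ (hov p (Γ.leaf b) h) := by
  intro k
  unfold hov
  by_cases h1 : (k + 1) % 2 = 0 ∧ k + 1 ≤ 2 * p
  · rw [if_pos h1, if_neg (by omega)]
    obtain ⟨a, ha⟩ := hl ((k + 1) / 2) (by omega)
    rw [show 2 * ((k + 1) / 2) = k + 1 by omega] at ha
    rw [hp.z_left ha]
    exact Γ.leaf_mem b
  · rw [if_neg h1]
    by_cases h2 : k % 2 = 0 ∧ k ≤ 2 * p
    · rw [if_pos h2]
      obtain ⟨a, ha⟩ := hl (k / 2) (by omega)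
      rw [show 2 * (k / 2) = k by omega] at ha
      rw [hp.z_right ha, Γ.nb_leaf, Finset.mem_singleton]
    · rw [if_neg h2]
      exact hp k

theorem hov_leaf {Γ : HG N A δ} {h : ℕ → N} (b : A) {p l : ℕ}
    (hl : l ≤ p) : hov p (Γ.leaf b) h (2 * l) = Γ.leaf b := by
  unfold hov
  rw [if_pos ⟨by omega, by omega⟩]

theorem hov_of_gt (x : N) (h : ℕ → N) {p k : ℕ} (hk : 2 * p < k) : hov p x h k = h k := by
  unfold hov
  rw [if_neg (by omega)]

/-- Detach a site whose height is a leaf and join it with its left neighbour. -/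
theorem gDJ (hδ : δ ≠ 0) (Γ : HG N A δ) (p : ℕ) (Φ : (ℕ → N) → ℝ) {h : ℕ → N} {a b : A}
    (hp : Pth Γ h) (h1 : h (2 * p) = Γ.leaf b) (h2 : h (2 * (p + 1)) = Γ.leaf a) :
    hWU Γ [OpU.op (Op.D (p + 1)), OpU.op (Op.J p)] Φ h =
      Φ (Function.update h (2 * (p + 1)) (Γ.leaf b)) := by
  rw [hWU_cons, hWU_cons, hWU_nil]
  simp only [OpU.val]
  rw [gval_D]
  have f1 : h (2 * (p + 1) - 1) = Γ.z := by
    have := hp.z_right h1
    rwa [show 2 * (p + 1) - 1 = 2 * p + 1 by omega]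
  have f2 : h (2 * (p + 1) + 1) = Γ.z := hp.z_right h2
  have he : h (2 * (p + 1) - 1) = h (2 * (p + 1) + 1) := by rw [f1, f2]
  rw [gE_pos Γ _ _ hp he, f1]
  have hSb := Γ.pos (Γ.leaf b)
  have hSz := Γ.pos Γ.z
  rw [Finset.sum_eq_single (Γ.leaf b)]
  · rw [gval_J]
    set g := Function.update h (2 * (p + 1)) (Γ.leaf b) with hg
    have hgp : Pth Γ g := hp.update (by omega) he (by rw [f1]; exact Γ.leaf_mem b)
    have g1 : g (2 * p + 1 - 1) = Γ.leaf b := by
      rw [show 2 * p + 1 - 1 = 2 * p by omega, hg, Function.update_of_ne (by omega), h1]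
    have g2 : g (2 * p + 1 + 1) = Γ.leaf b := by
      rw [hg, show 2 * p + 1 + 1 = 2 * (p + 1) by ring, Function.update_self]
    rw [gE_leaf Γ _ (by omega) Φ hgp g1 g2, ← Γ.delta_leaf b]
    field_simp
  · intro x _ hne
    rw [gval_J, gE_neg, mul_zero, mul_zero]
    rintro ⟨_, hh⟩
    rw [show 2 * p + 1 - 1 = 2 * p by omega, Function.update_of_ne (by omega), h1,
      show 2 * p + 1 + 1 = 2 * (p + 1) by ring, Function.update_self] at hh
    exact hne hh.symm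
  · intro hh; exact absurd (Γ.leaf_mem b) hh

/-- Effect of a copy on heights. -/
theorem hWU_copy (hδ : δ ≠ 0) (Γ : HG N A δ) : ∀ (p : ℕ) (ψ : (ℕ → N) → ℝ) (h : ℕ → N) (b : A),
    Pth Γ h → h 0 = Γ.leaf b → (∀ l, l ≤ p → ∃ a, h (2 * l) = Γ.leaf a) →
    hWU Γ (copyOps A p) ψ h = ψ (hov p (Γ.leaf b) h)
  | 0, ψ, h, b, hp, h0, hl => by
    have : copyOps A 0 = [] := rfl
    rw [this, hWU_nil]
    congr 1
    funext k
    unfold hov
    split_ifs with h1
    · rw [show k = 0 by omega, h0]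
    · rfl
  | (p + 1), ψ, h, b, hp, h0, hl => by
    have : copyOps A (p + 1) = copyOps A p ++ [OpU.op (Op.D (p + 1)), OpU.op (Op.J p)] := rfl
    rw [this, hWU_append, hWU_copy hδ Γ p _ h b hp h0 (fun l h1 => hl l (by omega))]
    obtain ⟨a, ha⟩ := hl (p + 1) le_rfl
    rw [gDJ hδ Γ p ψ (hov_path hp b (fun l h1 => hl l (by omega))) (hov_leaf b le_rfl)
      (by rw [hov_of_gt _ _ (by omega)]; exact ha), hov_succ]

/-- Effect of a pin on heights. -/
theorem hWU_pin (hδ : δ ≠ 0) (Γ : HG N A δ) (a0 : A) (p : ℕ) (a : A) (ψ : (ℕ → N) → ℝ)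
    (h : ℕ → N) (hp : Pth Γ h) (hc : ∀ l, l ≤ p → h (2 * l) = Γ.leaf a0) :
    hWU Γ (pinOps a0 p a) ψ h = if h (2 * (p + 1)) = Γ.leaf a then ψ h else 0 := by
  unfold pinOps
  rw [hWU_cons]
  simp only [OpU.val]
  have h0 : h 0 = Γ.leaf a0 := by simpa using hc 0 (by omega)
  rw [gU_pos Γ a0 a _ hp h0]
  set g := Function.update h 0 (Γ.leaf a) with hg
  have hgp : Pth Γ g := hp.update_zero a h0
  have g0 : g 0 = Γ.leaf a := by rw [hg, Function.update_self]
  have gl : ∀ l, l ≤ p → ∃ b, g (2 * l) = Γ.leaf b := by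
    intro l hl
    by_cases hl0 : l = 0
    · subst hl0; exact ⟨a, by rw [Nat.mul_zero]; exact g0⟩
    · exact ⟨a0, by rw [hg, Function.update_of_ne (by omega)]; exact hc l hl⟩
  rw [hWU_append, hWU_copy hδ Γ p _ g a hgp g0 gl, hWU_cons]
  simp only [OpU.val]
  rw [gval_J]
  set g' := hov p (Γ.leaf a) g with hg'
  have hgp' : Pth Γ g' := hov_path hgp a gl
  have e1 : g' (2 * p + 1 - 1) = Γ.leaf a := by
    rw [show 2 * p + 1 - 1 = 2 * p by omega]; exact hov_leaf a le_rfl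
  have e2 : g' (2 * p + 1 + 1) = h (2 * (p + 1)) := by
    rw [hg', hov_of_gt _ _ (by omega), hg, Function.update_of_ne (by omega)]
    rfl
  by_cases h3 : h (2 * (p + 1)) = Γ.leaf a
  · rw [if_pos h3, gE_leaf Γ _ (by omega) _ hgp' e1 (by rw [e2]; exact h3), ← mul_assoc,
      inv_mul_cancel₀ hδ, one_mul, hWU_cons]
    simp only [OpU.val]
    have g0' : g' 0 = Γ.leaf a := by
      have := hov_leaf (Γ := Γ) (h := g) a (Nat.zero_le p)
      rwa [Nat.mul_zero] at this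
    rw [gU_pos Γ a a0 _ hgp' g0']
    rw [hWU_copy hδ Γ p ψ _ a0 (hgp'.update_zero a0 g0') (Function.update_self _ _ _)]
    · congr 1
      funext k
      unfold hov
      by_cases hk : k % 2 = 0 ∧ k ≤ 2 * p
      · rw [if_pos hk]
        have := hc (k / 2) (by omega)
        rw [show 2 * (k / 2) = k by omega] at this
        exact this.symm
      · rw [if_neg hk]
        have hk0 : k ≠ 0 := by omega
        rw [Function.update_of_ne hk0, hg']
        unfold hov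
        rw [if_neg hk, hg, Function.update_of_ne hk0]
    · intro l hl
      by_cases hl0 : l = 0
      · subst hl0; exact ⟨a0, by rw [Nat.mul_zero, Function.update_self]⟩
      · exact ⟨a, by rw [Function.update_of_ne (by omega)]; exact hov_leaf a hl⟩
  · rw [if_neg h3, gE_neg, mul_zero]
    rintro ⟨_, hh⟩
    rw [e1, e2] at hh
    exact h3 hh.symm

/-- Positions of the sites in `R` carry the root. -/
def RH (Γ : HG N A δ) (a0 : A) (R : ℕ → Prop) (h : ℕ → N) : Prop :=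
  ∀ l, R l → h (2 * l) = Γ.leaf a0

/-- The realisation of a list of operations acts as its meaning. -/
theorem hWU_expand (hδ : δ ≠ 0) (Γ : HG N A δ) (a0 : A) :
    ∀ (ops : List (Opx A)) (R : ℕ → Prop), R 0 →
    RV ops R → ∀ (ψ : (ℕ → N) → ℝ) (h : ℕ → N), Pth Γ h → RH Γ a0 R h →
    hWU Γ (expand a0 ops) ψ h = hWx Γ ops ψ h
  | [], _, _, _, ψ, c, _, _ => by
    have : expand a0 ([] : List (Opx A)) = [] := rfl
    rw [this, hWU_nil, hWx_nil]
  | (.op (.J i) :: ops), R, hR, hv, ψ, h, hp, hc => by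
    have : expand a0 (Opx.op (Op.J i) :: ops) = OpU.op (Op.J i) :: expand a0 ops := rfl
    rw [this, hWU_cons, hWx_cons]
    simp only [OpU.val, hvalx]
    rw [gval_J, gval_J]
    congr 1
    by_cases he : h (2 * i + 1 - 1) = h (2 * i + 1 + 1)
    · rw [gE_pos Γ _ _ hp he, gE_pos Γ _ _ hp he]
      congr 1
      apply Finset.sum_congr rfl
      intro x hx
      congr 1
      apply hWU_expand hδ Γ a0 ops _ (Or.inl hR) hv _ _ (hp.update (by omega) he hx)
      rintro l (hl | ⟨rfl, hl⟩)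
      · rw [Function.update_of_ne (by omega)]; exact hc l hl
      · rw [Function.update_of_ne (by omega)]
        have := hc i hl
        rw [show 2 * i + 1 - 1 = 2 * i by omega] at he
        rw [show 2 * (i + 1) = 2 * i + 1 + 1 by ring, ← he]
        exact this
    · rw [gE_neg, gE_neg]
      · exact fun hh => he hh.2
      · exact fun hh => he hh.2
  | (.op (.H i) :: ops), R, hR, hv, ψ, h, hp, hc => by
    have : expand a0 (Opx.op (Op.H i) :: ops) = OpU.op (Op.H i) :: expand a0 ops := rfl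
    rw [this, hWU_cons, hWx_cons]
    simp only [OpU.val, hvalx]
    rw [gval_H, gval_H, hWU_expand hδ Γ a0 ops R hR hv ψ h hp hc]
    congr 2
    by_cases he : h (2 * i + 1 - 1) = h (2 * i + 1 + 1)
    · rw [gE_pos Γ _ _ hp he, gE_pos Γ _ _ hp he]
      congr 1
      apply Finset.sum_congr rfl
      intro x hx
      congr 1
      apply hWU_expand hδ Γ a0 ops _ hR hv _ _ (hp.update (by omega) he hx)
      intro l hl
      rw [Function.update_of_ne (by omega)]; exact hc l hl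
    · rw [gE_neg, gE_neg]
      · exact fun hh => he hh.2
      · exact fun hh => he hh.2
  | (.op (.D i) :: ops), R, hR, hv, ψ, h, hp, hc => by
    have : expand a0 (Opx.op (Op.D i) :: ops) = OpU.op (Op.D i) :: expand a0 ops := rfl
    have hi := hv.1
    rw [this, hWU_cons, hWx_cons]
    simp only [OpU.val, hvalx]
    rw [gval_D, gval_D]
    congr 1
    by_cases he : h (2 * i - 1) = h (2 * i + 1)
    · rw [gE_pos Γ _ _ hp he, gE_pos Γ _ _ hp he]
      congr 1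
      apply Finset.sum_congr rfl
      intro x hx
      congr 1
      apply hWU_expand hδ Γ a0 ops _ ⟨hR, by omega⟩ hv.2 _ _ (hp.update (by omega) he hx)
      rintro l ⟨hl, hne⟩
      rw [Function.update_of_ne (by omega)]; exact hc l hl
    · rw [gE_neg, gE_neg]
      · exact fun hh => he hh.2
      · exact fun hh => he hh.2
  | (.op (.V i) :: ops), R, hR, hv, ψ, h, hp, hc => by
    have : expand a0 (Opx.op (Op.V i) :: ops) = OpU.op (Op.V i) :: expand a0 ops := rfl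
    have hi := hv.1
    rw [this, hWU_cons, hWx_cons]
    simp only [OpU.val, hvalx]
    rw [gval_V, gval_V, hWU_expand hδ Γ a0 ops _ ⟨hR, by omega⟩ hv.2 ψ h hp
      (fun l hl => hc l hl.1)]
    congr 2
    by_cases he : h (2 * i - 1) = h (2 * i + 1)
    · rw [gE_pos Γ _ _ hp he, gE_pos Γ _ _ hp he]
      congr 1
      apply Finset.sum_congr rfl
      intro x hx
      congr 1
      apply hWU_expand hδ Γ a0 ops _ ⟨hR, by omega⟩ hv.2 _ _ (hp.update (by omega) he hx)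
      rintro l ⟨hl, hne⟩
      rw [Function.update_of_ne (by omega)]; exact hc l hl
    · rw [gE_neg, gE_neg]
      · exact fun hh => he hh.2
      · exact fun hh => he hh.2
  | (.pin p a :: ops), R, hR, hv, ψ, h, hp, hc => by
    have : expand a0 (Opx.pin p a :: ops) = pinOps a0 p a ++ expand a0 ops := rfl
    rw [this, hWU_append, hWx_cons, hWU_pin hδ Γ a0 p a _ h hp (fun l hl => hc l (hv.1 l hl))]
    simp only [hvalx, hP_apply]
    split_ifs
    · exact hWU_expand hδ Γ a0 ops R hR hv.2 ψ h hp hc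
    · rfl

/-- Two functions agreeing on paths starting at `x` are mapped by a generator of positive index to
such functions. -/
theorem gE_agree (Γ : HG N A δ) {k : ℕ} (hk : 1 ≤ k) {x : N} {ψ ψ' : (ℕ → N) → ℝ}
    (h : ∀ g, Pth Γ g → g 0 = x → ψ g = ψ' g) (g : ℕ → N) (hp : Pth Γ g) (h0 : g 0 = x) :
    gE Γ k ψ g = gE Γ k ψ' g := by
  by_cases he : g (k - 1) = g (k + 1)
  · rw [gE_pos Γ k ψ hp he, gE_pos Γ k ψ' hp he]
    congr 1
    apply Finset.sum_congr rfl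
    intro y hy
    rw [h _ (hp.update hk he hy)]
    rw [Function.update_of_ne (by omega)]
    exact h0
  · rw [gE_neg Γ k ψ (fun hh => he hh.2), gE_neg Γ k ψ' (fun hh => he hh.2)]

theorem hWx_agree (Γ : HG N A δ) {x : N} {ψ ψ' : (ℕ → N) → ℝ}
    (h : ∀ g, Pth Γ g → g 0 = x → ψ g = ψ' g) : ∀ (ops : List (Opx A)) (R : ℕ → Prop),
    RV ops R → ∀ g : ℕ → N, Pth Γ g → g 0 = x → hWx Γ ops ψ g = hWx Γ ops ψ' g
  | [], _, _, g, hp, h0 => by rw [hWx_nil, hWx_nil]; exact h g hp h0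
  | (.op (.J i) :: ops), R, hv, g, hp, h0 => by
    rw [hWx_cons, hWx_cons]
    simp only [hvalx]
    rw [gval_J, gval_J, gE_agree Γ (by omega) (hWx_agree Γ h ops _ hv) g hp h0]
  | (.op (.H i) :: ops), R, hv, g, hp, h0 => by
    rw [hWx_cons, hWx_cons]
    simp only [hvalx]
    rw [gval_H, gval_H, gE_agree Γ (by omega) (hWx_agree Γ h ops _ hv) g hp h0,
      hWx_agree Γ h ops _ hv g hp h0]
  | (.op (.D i) :: ops), R, hv, g, hp, h0 => by
    have hi := hv.1
    rw [hWx_cons, hWx_cons]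
    simp only [hvalx]
    rw [gval_D, gval_D, gE_agree Γ (by omega) (hWx_agree Γ h ops _ hv.2) g hp h0]
  | (.op (.V i) :: ops), R, hv, g, hp, h0 => by
    have hi := hv.1
    rw [hWx_cons, hWx_cons]
    simp only [hvalx]
    rw [gval_V, gval_V, gE_agree Γ (by omega) (hWx_agree Γ h ops _ hv.2) g hp h0,
      hWx_agree Γ h ops _ hv.2 g hp h0]
  | (.pin p a :: ops), R, hv, g, hp, h0 => by
    rw [hWx_cons, hWx_cons]
    simp only [hvalx, hP_apply]
    rw [hWx_agree Γ h ops R hv.2 g hp h0]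

theorem TLX_agree (Γ : HG N A δ) {x : N} : ∀ (m : ℕ) {ψ ψ' : (ℕ → N) → ℝ},
    (∀ g, Pth Γ g → g 0 = x → ψ g = ψ' g) → ∀ g : ℕ → N, Pth Γ g → g 0 = x →
    TLX (gE Γ) (2 * m) ψ g = TLX (gE Γ) (2 * m) ψ' g
  | 0, ψ, ψ', h, g, hp, h0 => by simpa [TLX] using h g hp h0
  | (m + 1), ψ, ψ', h, g, hp, h0 => by
    have hX : ∀ φ, TLX (gE Γ) (2 * (m + 1)) φ = gE Γ (2 * m + 2) (TLX (gE Γ) (2 * m) φ) :=
      fun φ => rfl
    rw [hX, hX]
    exact gE_agree Γ (by omega) (TLX_agree Γ m h) g hp h0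

/-- Evaluation formula in the height representation. -/
theorem height_evalx (hδ : δ ≠ 0) (Γ : HG N A δ) {a0 : A} {m : ℕ} {ops : List (Opx A)}
    (hv : RV ops (fun l => l = 0)) {K : ℕ} {q : ℝ}
    (h : δ ^ K • (gU Γ a0 a0 * (TLX (gE Γ) (2 * m) *
        WvalU (δ • 1) (δ⁻¹ • 1) (gE Γ) (gU Γ) (expand a0 ops) * TLX (gE Γ) (2 * m)) *
        gU Γ a0 a0) = q • (gU Γ a0 a0 * TLX (gE Γ) (2 * m)))
    (g : ℕ → N) (hp : Pth Γ g) (hg0 : g 0 = Γ.leaf a0) :
    δ ^ K * TLX (gE Γ) (2 * m) (hWx Γ ops (TLX (gE Γ) (2 * m) (fun _ => 1))) g =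
      q * TLX (gE Γ) (2 * m) (fun _ => 1) g := by
  have h1 := congrArg (fun (f : HA N) => f (fun _ => 1) g) h
  have hself : Function.update g 0 (Γ.leaf a0) = g := by
    rw [Function.update_eq_self_iff, hg0]
  have hU : ∀ φ : (ℕ → N) → ℝ, ∀ g : ℕ → N, Pth Γ g → g 0 = Γ.leaf a0 →
      gU Γ a0 a0 φ g = φ g := by
    intro φ g hp hg0
    have hself : Function.update g 0 (Γ.leaf a0) = g := by
      rw [Function.update_eq_self_iff, hg0]
    rw [gU_pos Γ a0 a0 φ hp hg0, hself]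
  have h2 : (δ ^ K • (gU Γ a0 a0 * (TLX (gE Γ) (2 * m) *
        WvalU (δ • 1) (δ⁻¹ • 1) (gE Γ) (gU Γ) (expand a0 ops) * TLX (gE Γ) (2 * m)) *
        gU Γ a0 a0) : HA N) (fun _ => 1) g =
      δ ^ K * gU Γ a0 a0 (TLX (gE Γ) (2 * m) (hWU Γ (expand a0 ops)
        (TLX (gE Γ) (2 * m) (gU Γ a0 a0 (fun _ => 1))))) g := rfl
  have h3 : (q • (gU Γ a0 a0 * TLX (gE Γ) (2 * m)) : HA N) (fun _ => 1) g =
      q * gU Γ a0 a0 (TLX (gE Γ) (2 * m) (fun _ => 1)) g := rfl
  have h4 := h2.symm.trans (h1.trans h3)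
  rw [hU _ g hp hg0, hU _ g hp hg0] at h4
  rw [← h4]
  congr 1
  apply TLX_agree Γ m (x := Γ.leaf a0) _ g hp hg0
  intro g' hp' hg0'
  rw [hWU_expand hδ Γ a0 ops (fun l => l = 0) rfl hv _ g' hp' (by
    intro l hl; rw [hl, Nat.mul_zero]; exact hg0')]
  apply hWx_agree Γ _ ops _ hv g' hp' hg0'
  intro g'' hp'' hg0''
  apply TLX_agree Γ m (x := Γ.leaf a0) _ g'' hp'' hg0''
  intro u hu hu0
  rw [hU _ u hu hu0]

end Pool.Agent.Helper35.DInf
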