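import Mathlib
import Pool.Agent.Helper70.BLB.Model
import Pool.Agent.Helper35.DInf.HPins

/-!
The network of a labelled grid with pinned labels, and its evaluation in the colouring
representations.
-/

set_option autoImplicit false
set_option linter.unusedSectionVars false
set_option linter.unusedVariables false

namespace Pool.Agent.Helper35.DInf

open Pool.Agent.Helper70.BLB

section Ops

variable {V A : Type} (G : SimpleGraph V)

/-- The pin of a label. -/
def lp (π : V → Option A) (l : Option V) : Option A := l.bind π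

/-- The pin operation of a site. -/
def pinl (p : ℕ) : Option A → List (Opx A)
  | none => []
  | some a => [Opx.pin p a]

/-- Operations from row `j` to row `j + 1` at the sites `n, n - 1, ..., 1`. -/
noncomputable def stepx (π : V → Option A) (L : ℕ → ℕ → Option V) (j : ℕ) : ℕ → List (Opx A)
  | 0 => []
  | (n + 1) => (vop G (n + 1) (L (n + 1) j) (L (n + 1) (j + 1))).map Opx.op ++
      ((if n = 0 ∨ j = 0 then pinl n (lp π (L (n + 1) (j + 1))) else []) ++ stepx π L j n)

/-- Rows `1, ..., t`. -/
noncomputable def bodyx (π : V → Option A) (L : ℕ → ℕ → Option V) (k : ℕ) : ℕ → List (Opx A)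
  | 0 => []
  | (t + 1) => bodyx π L k t ++
      (stepx G π L t k ++ (horOps G L (t + 1) (k + 1)).map Opx.op)

open Classical in
/-- Closing row. -/
noncomputable def topx (π : V → Option A) (L : ℕ → ℕ → Option V) (r : V) (T : ℕ) :
    ℕ → List (Opx A)
  | 0 => []
  | (n + 1) => topx π L r T n ++ (pinl n (lp π (L (n + 1) T)) ++
      ((if ladj G (L (n + 1) T) (some r) then [Op.H n] else []) ++
        [Op.D (n + 1), Op.J n]).map Opx.op)

/-- All operations of the labelled grid with pinned labels. -/
noncomputable def allx (π : V → Option A) (L : ℕ → ℕ → Option V) (r : V) (k T : ℕ) :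
    List (Opx A) :=
  (botOps (k + 1)).map Opx.op ++ (bodyx G π L k T ++ topx G π L r T k)

end Ops

/-! ### Legality of the pins -/

section Legal

variable {V A : Type} {G : SimpleGraph V}

/-- The set of root sites after a list of operations. -/
def Rn : List (Opx A) → (ℕ → Prop) → (ℕ → Prop)
  | [], R => R
  | (.op (.J i) :: ops), R => Rn ops (fun l => R l ∨ (l = i + 1 ∧ R i))
  | (.op (.H _) :: ops), R => Rn ops R
  | (.op (.D i) :: ops), R => Rn ops (fun l => R l ∧ l ≠ i)
  | (.op (.V i) :: ops), R => Rn ops (fun l => R l ∧ l ≠ i)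
  | (.pin _ _ :: ops), R => Rn ops R

theorem Rn_append : ∀ (l1 l2 : List (Opx A)) (R : ℕ → Prop), Rn (l1 ++ l2) R = Rn l2 (Rn l1 R)
  | [], _, _ => rfl
  | (.op (.J i) :: ops), l2, R => Rn_append ops l2 _
  | (.op (.H _) :: ops), l2, R => Rn_append ops l2 _
  | (.op (.D i) :: ops), l2, R => Rn_append ops l2 _
  | (.op (.V i) :: ops), l2, R => Rn_append ops l2 _
  | (.pin _ _ :: ops), l2, R => Rn_append ops l2 _

theorem RV_append : ∀ (l1 l2 : List (Opx A)) (R : ℕ → Prop), RV l1 R → RV l2 (Rn l1 R) →
    RV (l1 ++ l2) R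
  | [], _, _, _, h => h
  | (.op (.J i) :: ops), l2, R, h1, h2 => RV_append ops l2 _ h1 h2
  | (.op (.H _) :: ops), l2, R, h1, h2 => RV_append ops l2 _ h1 h2
  | (.op (.D i) :: ops), l2, R, h1, h2 => ⟨h1.1, RV_append ops l2 _ h1.2 h2⟩
  | (.op (.V i) :: ops), l2, R, h1, h2 => ⟨h1.1, RV_append ops l2 _ h1.2 h2⟩
  | (.pin _ _ :: ops), l2, R, h1, h2 => ⟨h1.1, RV_append ops l2 _ h1.2 h2⟩

theorem Rn_mono : ∀ (ops : List (Opx A)) (R R' : ℕ → Prop), (∀ l, R l → R' l) → ∀ l,
    Rn ops R l → Rn ops R' l
  | [], _, _, h => h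
  | (.op (.J i) :: ops), R, R', h =>
    Rn_mono ops _ _ (fun l hl => hl.imp (h l) (fun h2 => ⟨h2.1, h i h2.2⟩))
  | (.op (.H _) :: ops), R, R', h => Rn_mono ops R R' h
  | (.op (.D i) :: ops), R, R', h => Rn_mono ops _ _ (fun l hl => ⟨h l hl.1, hl.2⟩)
  | (.op (.V i) :: ops), R, R', h => Rn_mono ops _ _ (fun l hl => ⟨h l hl.1, hl.2⟩)
  | (.pin _ _ :: ops), R, R', h => Rn_mono ops R R' h

theorem RV_bot : ∀ (n : ℕ) (R : ℕ → Prop), RV ((botOps n).map (Opx.op (A := A))) R ∧
    (R 0 → ∀ l, l ≤ n → Rn ((botOps n).map (Opx.op (A := A))) R l)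
  | 0, R => ⟨trivial, fun h l hl => by
      have : l = 0 := by omega
      subst this; exact h⟩
  | (n + 1), R => by
    have e : botOps (n + 1) = botOps n ++ [Op.J n] := rfl
    obtain ⟨h1, h2⟩ := RV_bot n R
    rw [e, List.map_append]
    refine ⟨RV_append _ _ _ h1 trivial, fun h0 l hl => ?_⟩
    rw [Rn_append]
    have h3 := h2 h0
    show Rn ((botOps n).map Opx.op) R l ∨ (l = n + 1 ∧ Rn ((botOps n).map Opx.op) R n)
    by_cases hl' : l = n + 1
    · exact Or.inr ⟨hl', h3 n le_rfl⟩
    · exact Or.inl (h3 l (by omega))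

theorem RV_vop (i : ℕ) (hi : 1 ≤ i) (a b : Option V) (R : ℕ → Prop) :
    RV ((vop G i a b).map (Opx.op (A := A))) R ∧
    (∀ l, R l → l ≠ i → Rn ((vop G i a b).map (Opx.op (A := A))) R l) := by
  unfold vop
  split_ifs
  · exact ⟨trivial, fun l hl _ => hl⟩
  · exact ⟨⟨hi, trivial⟩, fun l hl hne => ⟨hl, hne⟩⟩
  · exact ⟨⟨hi, trivial⟩, fun l hl hne => ⟨hl, hne⟩⟩

theorem RV_pinl (p : ℕ) (x : Option A) (R : ℕ → Prop) (hR : ∀ l, l ≤ p → R l) :
    RV (pinl p x) R := by
  cases x with
  | none => trivial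
  | some a => exact ⟨hR, trivial⟩

theorem Rn_pinl (p : ℕ) (x : Option A) (R : ℕ → Prop) : Rn (pinl p x) R = R := by
  cases x <;> rfl

theorem RV_stepx (π : V → Option A) (L : ℕ → ℕ → Option V) (j : ℕ) : ∀ (n : ℕ) (R : ℕ → Prop),
    R 0 → (j = 0 → ∀ l, l ≤ n → R l) →
    RV (stepx G π L j n) R ∧ Rn (stepx G π L j n) R 0
  | 0, R, h0, _ => ⟨trivial, h0⟩
  | (n + 1), R, h0, hj => by
    have e : stepx G π L j (n + 1) =
      (vop G (n + 1) (L (n + 1) j) (L (n + 1) (j + 1))).map Opx.op ++
      ((if n = 0 ∨ j = 0 then pinl n (lp π (L (n + 1) (j + 1))) else []) ++ stepx G π L j n) := rfl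
    obtain ⟨v1, v2⟩ := RV_vop (G := G) (A := A) (n + 1) (by omega) (L (n + 1) j)
      (L (n + 1) (j + 1)) R
    set R1 := Rn ((vop G (n + 1) (L (n + 1) j) (L (n + 1) (j + 1))).map (Opx.op (A := A))) R
      with hR1
    have g0 : R1 0 := v2 0 h0 (by omega)
    have gj : j = 0 → ∀ l, l ≤ n → R1 l := fun hj0 l hl => v2 l (hj hj0 l (by omega)) (by omega)
    obtain ⟨w1, w2⟩ := RV_stepx π L j n R1 g0 gj
    have hp1 : RV (if n = 0 ∨ j = 0 then pinl n (lp π (L (n + 1) (j + 1))) else []) R1 := by
      split_ifs with hc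
      · apply RV_pinl
        intro l hl
        rcases hc with hc | hc
        · have : l = 0 := by omega
          subst this; exact g0
        · exact gj hc l hl
      · trivial
    have hp2 : Rn (if n = 0 ∨ j = 0 then pinl n (lp π (L (n + 1) (j + 1))) else []) R1 = R1 := by
      split_ifs
      · exact Rn_pinl _ _ _
      · rfl
    rw [e]
    constructor
    · apply RV_append _ _ _ v1
      apply RV_append _ _ _ hp1
      rw [hp2]
      exact w1
    · rw [Rn_append, Rn_append, hp2]
      exact w2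

theorem RV_horOps (L : ℕ → ℕ → Option V) (j : ℕ) : ∀ (n : ℕ) (R : ℕ → Prop),
    RV ((horOps G L j n).map (Opx.op (A := A))) R ∧
    (∀ l, R l → Rn ((horOps G L j n).map (Opx.op (A := A))) R l)
  | 0, R => ⟨trivial, fun l h => h⟩
  | (n + 1), R => by
    have e : horOps G L j (n + 1) = horOps G L j n ++ hop G n (L n j) (L (n + 1) j) := rfl
    obtain ⟨h1, h2⟩ := RV_horOps L j n R
    rw [e, List.map_append]
    unfold hop
    split_ifs
    · refine ⟨RV_append _ _ _ h1 trivial, fun l hl => ?_⟩
      rw [Rn_append]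
      exact Or.inl (h2 l hl)
    · refine ⟨RV_append _ _ _ h1 trivial, fun l hl => ?_⟩
      rw [Rn_append]
      exact h2 l hl
    · refine ⟨RV_append _ _ _ h1 trivial, fun l hl => ?_⟩
      rw [Rn_append]
      exact h2 l hl

theorem RV_bodyx (π : V → Option A) (L : ℕ → ℕ → Option V) (k : ℕ) : ∀ (t : ℕ) (R : ℕ → Prop),
    (∀ l, l ≤ k + 1 → R l) → RV (bodyx G π L k t) R ∧ Rn (bodyx G π L k t) R 0
  | 0, R, h => ⟨trivial, h 0 (by omega)⟩
  | (t + 1), R, h => by
    have e : bodyx G π L k (t + 1) = bodyx G π L k t ++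
      (stepx G π L t k ++ (horOps G L (t + 1) (k + 1)).map Opx.op) := rfl
    obtain ⟨h1, h2⟩ := RV_bodyx π L k t R h
    have h3 : t = 0 → ∀ l, l ≤ k → Rn (bodyx G π L k t) R l := by
      intro ht l hl
      subst ht
      exact h l (by omega)
    obtain ⟨s1, s2⟩ := RV_stepx (G := G) π L t k _ h2 h3
    obtain ⟨u1, u2⟩ := RV_horOps (G := G) (A := A) L (t + 1) (k + 1)
      (Rn (stepx G π L t k) (Rn (bodyx G π L k t) R))
    rw [e]
    constructor
    · apply RV_append _ _ _ h1
      exact RV_append _ _ _ s1 u1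
    · rw [Rn_append, Rn_append]
      exact u2 0 s2

theorem RV_topx (π : V → Option A) (L : ℕ → ℕ → Option V) (r : V) (T : ℕ) :
    ∀ (n : ℕ) (R : ℕ → Prop), R 0 → RV (topx G π L r T n) R ∧
      ∀ l, l ≤ n → Rn (topx G π L r T n) R l
  | 0, R, h => ⟨trivial, fun l hl => by
      have : l = 0 := by omega
      subst this; exact h⟩
  | (n + 1), R, h => by
    classical
    have e : topx G π L r T (n + 1) = topx G π L r T n ++ (pinl n (lp π (L (n + 1) T)) ++
      ((if ladj G (L (n + 1) T) (some r) then [Op.H n] else []) ++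
        [Op.D (n + 1), Op.J n]).map Opx.op) := rfl
    obtain ⟨h1, h2⟩ := RV_topx π L r T n R h
    have hRH : ∀ R' : ℕ → Prop, RV (((if ladj G (L (n + 1) T) (some r) then [Op.H n] else []) ++
        [Op.D (n + 1), Op.J n]).map (Opx.op (A := A))) R' ∧
        ∀ l, Rn (((if ladj G (L (n + 1) T) (some r) then [Op.H n] else []) ++
        [Op.D (n + 1), Op.J n]).map (Opx.op (A := A))) R' l ↔
          ((R' l ∧ l ≠ n + 1) ∨ (l = n + 1 ∧ (R' n ∧ n ≠ n + 1))) := by
      intro R'
      split_ifs
      · exact ⟨⟨by omega, trivial⟩, fun l => Iff.rfl⟩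
      · exact ⟨⟨by omega, trivial⟩, fun l => Iff.rfl⟩
    rw [e]
    constructor
    · apply RV_append _ _ _ h1
      apply RV_append _ _ _ (RV_pinl _ _ _ h2)
      exact (hRH _).1
    · intro l hl
      rw [Rn_append, Rn_append, Rn_pinl, (hRH _).2]
      by_cases hln : l = n + 1
      · right
        exact ⟨hln, h2 n le_rfl, by omega⟩
      · left
        exact ⟨h2 l (by omega), hln⟩

theorem RV_allx (π : V → Option A) (L : ℕ → ℕ → Option V) (r : V) (k T : ℕ) :
    RV (allx G π L r k T) (fun l => l = 0) := by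
  unfold allx
  obtain ⟨h1, h2⟩ := RV_bot (A := A) (k + 1) (fun l => l = 0)
  obtain ⟨h3, h4⟩ := RV_bodyx (G := G) π L k T _ (h2 rfl)
  obtain ⟨h5, _⟩ := RV_topx (G := G) π L r T k _ h4
  apply RV_append _ _ _ h1
  exact RV_append _ _ _ h3 h5

/-! Only the sites `0, ..., k + 1` are involved. -/

theorem map_op_ok {m : ℕ} {l : List Op} (h : ∀ o ∈ l, o.ok m) :
    ∀ o ∈ l.map (Opx.op (A := A)), Opx.ok m o := by
  intro o ho
  rw [List.mem_map] at ho
  obtain ⟨x, hx, rfl⟩ := ho
  exact h x hx

theorem pinl_ok {m p : ℕ} (hp : p + 1 ≤ m) (x : Option A) : ∀ o ∈ pinl p x, Opx.ok m o := by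
  cases x with
  | none => intro o ho; simp [pinl] at ho
  | some a =>
    intro o ho
    simp only [pinl, List.mem_singleton] at ho
    subst ho
    exact hp

theorem ok_append {m : ℕ} {l l' : List (Opx A)} (h : ∀ o ∈ l, Opx.ok m o)
    (h' : ∀ o ∈ l', Opx.ok m o) : ∀ o ∈ l ++ l', Opx.ok m o := by
  intro o ho
  rcases List.mem_append.1 ho with ho | ho
  · exact h o ho
  · exact h' o ho

theorem vop_ok {m i : ℕ} (h1 : 1 ≤ i) (h2 : i ≤ m) (a b : Option V) :
    ∀ o ∈ vop G i a b, o.ok m := by
  intro o ho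
  unfold vop at ho
  split_ifs at ho
  · simp at ho
  · rw [List.mem_singleton] at ho; subst ho; exact ⟨h1, h2⟩
  · rw [List.mem_singleton] at ho; subst ho; exact ⟨h1, h2⟩

theorem hop_ok {m i : ℕ} (h : i + 1 ≤ m) (a b : Option V) : ∀ o ∈ hop G i a b, o.ok m := by
  intro o ho
  unfold hop at ho
  split_ifs at ho
  · rw [List.mem_singleton] at ho; subst ho; exact h
  · rw [List.mem_singleton] at ho; subst ho; exact h
  · simp at ho

theorem horOps_ok (L : ℕ → ℕ → Option V) (j : ℕ) {m : ℕ} : ∀ n, n ≤ m →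
    ∀ o ∈ horOps G L j n, o.ok m
  | 0, _, o, ho => by simp [horOps] at ho
  | (n + 1), hn, o, ho => by
    simp only [horOps, List.mem_append] at ho
    rcases ho with ho | ho
    · exact horOps_ok L j n (by omega) o ho
    · exact hop_ok hn _ _ o ho

theorem botOps_ok {m : ℕ} : ∀ n, n ≤ m → ∀ o ∈ botOps n, o.ok m
  | 0, _, o, ho => by simp [botOps] at ho
  | (n + 1), hn, o, ho => by
    simp only [botOps, List.mem_append, List.mem_singleton] at ho
    rcases ho with ho | rfl
    · exact botOps_ok n (by omega) o ho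
    · exact hn

theorem stepx_ok (π : V → Option A) (L : ℕ → ℕ → Option V) (j : ℕ) {m : ℕ} : ∀ n, n ≤ m →
    ∀ o ∈ stepx G π L j n, Opx.ok m o
  | 0, _, o, ho => by simp [stepx] at ho
  | (n + 1), hn, o, ho => by
    rw [stepx] at ho
    refine ok_append (map_op_ok (vop_ok (by omega) hn _ _)) (ok_append ?_
      (stepx_ok π L j n (by omega))) o ho
    split_ifs
    · exact pinl_ok hn _
    · intro o ho; simp at ho

theorem bodyx_ok (π : V → Option A) (L : ℕ → ℕ → Option V) (k : ℕ) {m : ℕ} (hk : k + 1 ≤ m) :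
    ∀ t, ∀ o ∈ bodyx G π L k t, Opx.ok m o
  | 0, o, ho => by simp [bodyx] at ho
  | (t + 1), o, ho => by
    rw [bodyx] at ho
    exact ok_append (bodyx_ok π L k hk t) (ok_append (stepx_ok π L t k (by omega))
      (map_op_ok (horOps_ok L (t + 1) (k + 1) hk))) o ho

theorem topx_ok (π : V → Option A) (L : ℕ → ℕ → Option V) (r : V) (T : ℕ) {m : ℕ} : ∀ n, n ≤ m →
    ∀ o ∈ topx G π L r T n, Opx.ok m o
  | 0, _, o, ho => by simp [topx] at ho
  | (n + 1), hn, o, ho => by
    classical
    rw [topx] at ho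
    refine ok_append (topx_ok π L r T n (by omega)) (ok_append (pinl_ok hn _) (map_op_ok ?_)) o ho
    intro o ho
    rcases List.mem_append.1 ho with ho | ho
    · split_ifs at ho
      · rw [List.mem_singleton] at ho; subst ho; exact hn
      · simp at ho
    · simp only [List.mem_cons, List.not_mem_nil, or_false] at ho
      rcases ho with rfl | rfl
      · exact ⟨by omega, hn⟩
      · exact hn

theorem allx_ok (π : V → Option A) (L : ℕ → ℕ → Option V) (r : V) (k T : ℕ) :
    ∀ o ∈ allx G π L r k T, Opx.ok (k + 1) o := by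
  unfold allx
  exact ok_append (map_op_ok (botOps_ok _ le_rfl)) (ok_append (bodyx_ok π L k le_rfl T)
    (topx_ok π L r T k (by omega)))

end Legal

/-! ### Evaluation on colourings -/

section Count

variable {V A C : Type} [Fintype C] [DecidableEq C] {G : SimpleGraph V} (ι : A → C)
  (π : V → Option A)

/-- The pinning condition for a label and a colour. -/
def plab (l : Option V) (y : C) : Prop := ∀ a, lp π l = some a → y = ι a

open Classical in
theorem cWx_pinl (p : ℕ) (l : Option V) (ψ : (ℕ → C) → ℝ) (c : ℕ → C) :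
    cWx ι (pinl p (lp π l)) ψ c = if plab ι π l (c (p + 1)) then ψ c else 0 := by
  unfold plab
  cases h : lp π l with
  | none =>
    rw [if_pos (by intro a ha; cases ha)]
    show cWx ι ([] : List (Opx A)) ψ c = ψ c
    rw [cWx_nil]
  | some a =>
    show cWx ι [Opx.pin p a] ψ c = _
    rw [cWx_cons, cWx_nil]
    simp only [cvalx, cP_apply]
    by_cases h2 : c (p + 1) = ι a
    · rw [if_pos h2, if_pos]
      intro b hb
      cases hb
      exact h2
    · rw [if_neg h2, if_neg]
      intro hall
      exact h2 (hall a rfl)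

open Classical in
theorem cWx_stepx (L : ℕ → ℕ → Option V) (j : ℕ) : ∀ (n : ℕ) (ψ : (ℕ → C) → ℝ) (c : ℕ → C),
    cWx ι (stepx G π L j n) ψ c = ∑ x : Fin n → C,
      if ∀ i, 1 ≤ i → i ≤ n → vrel G (L i j) (L i (j + 1)) (c i) (ov n c x i) ∧
        ((i = 1 ∨ j = 0) → plab ι π (L i (j + 1)) (ov n c x i))
      then ψ (ov n c x) else 0
  | 0, ψ, c => by
    rw [Fintype.sum_unique, if_pos (by intro i h1 h2; omega)]
    have : stepx G π L j 0 = [] := rfl
    rw [this, cWx_nil]
    congr 1
    funext i
    rw [ov_out]; omega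
  | (n + 1), ψ, c => by
    have e : stepx G π L j (n + 1) =
      (vop G (n + 1) (L (n + 1) j) (L (n + 1) (j + 1))).map Opx.op ++
      ((if n = 0 ∨ j = 0 then pinl n (lp π (L (n + 1) (j + 1))) else []) ++ stepx G π L j n) := rfl
    rw [e, cWx_append, cWx_op, cW_vop, sum_snoc, Finset.sum_comm]
    apply Finset.sum_congr rfl
    intro y _
    rw [cWx_append]
    have hpin : ∀ φ : (ℕ → C) → ℝ, cWx ι (if n = 0 ∨ j = 0 then
        pinl n (lp π (L (n + 1) (j + 1))) else []) φ (Function.update c (n + 1) y) =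
        if ((n = 0 ∨ j = 0) → plab ι π (L (n + 1) (j + 1)) y) then
          φ (Function.update c (n + 1) y) else 0 := by
      intro φ
      by_cases h1 : n = 0 ∨ j = 0
      · rw [if_pos h1, cWx_pinl, Function.update_self]
        by_cases h2 : plab ι π (L (n + 1) (j + 1)) y
        · rw [if_pos h2, if_pos (fun _ => h2)]
        · rw [if_neg h2, if_neg (fun h => h2 (h h1))]
      · rw [if_neg h1, cWx_nil, if_pos (fun h => absurd h h1)]
    rw [hpin, cWx_stepx L j n]
    have hlast : ∀ x : Fin n → C, ov (n + 1) c (Fin.snoc x y) (n + 1) = y := by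
      intro x
      rw [ov_snoc, Function.update_self]
    have hold : ∀ (x : Fin n → C) i, i ≤ n → ov (n + 1) c (Fin.snoc x y) i =
        ov n (Function.update c (n + 1) y) x i := by
      intro x i hi
      rw [ov_snoc, ov_update_out]
    by_cases h1 : vrel G (L (n + 1) j) (L (n + 1) (j + 1)) (c (n + 1)) y
    · rw [if_pos h1]
      by_cases h2 : ((n = 0 ∨ j = 0) → plab ι π (L (n + 1) (j + 1)) y)
      · rw [if_pos h2]
        apply Finset.sum_congr rfl
        intro x _
        rw [ov_update_out, ← ov_snoc]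
        by_cases h3 : ∀ i, 1 ≤ i → i ≤ n →
            vrel G (L i j) (L i (j + 1)) (Function.update c (n + 1) y i)
              (ov (n + 1) c (Fin.snoc x y) i) ∧
            ((i = 1 ∨ j = 0) → plab ι π (L i (j + 1)) (ov (n + 1) c (Fin.snoc x y) i))
        · rw [if_pos h3, if_pos]
          intro i hi1 hi2
          by_cases hin : i = n + 1
          · subst hin
            rw [hlast]
            exact ⟨h1, fun h => h2 (by omega)⟩
          · have := h3 i hi1 (by omega)
            rw [Function.update_of_ne hin] at this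
            exact this
        · rw [if_neg h3, if_neg]
          intro hall
          apply h3
          intro i hi1 hi2
          rw [Function.update_of_ne (by omega)]
          exact hall i hi1 (by omega)
      · rw [if_neg h2]
        symm
        apply Finset.sum_eq_zero
        intro x _
        rw [if_neg]
        intro hall
        apply h2
        intro h3
        have := (hall (n + 1) (by omega) le_rfl).2 (by omega)
        rw [hlast] at this
        exact this
    · rw [if_neg h1]
      symm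
      apply Finset.sum_eq_zero
      intro x _
      rw [if_neg]
      intro hall
      apply h1
      have := (hall (n + 1) (by omega) le_rfl).1
      rw [hlast] at this
      exact this

/-- The pinning conditions of the rows `1, ..., t`. -/
def bpin (L : ℕ → ℕ → Option V) (k : ℕ) {t : ℕ} (X : Fin t → Fin k → C) (c : ℕ → C) : Prop :=
  ∀ j, j < t → ∀ i, 1 ≤ i → i ≤ k → (i = 1 ∨ j = 0) →
    plab ι π (L i (j + 1)) (rowc k X c (j + 1) i)

open Classical in
theorem cWx_bodyx (L : ℕ → ℕ → Option V) (k : ℕ) :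
    ∀ (t : ℕ) (ψ : (ℕ → C) → ℝ) (c : ℕ → C),
    cWx ι (bodyx G π L k t) ψ c = ∑ X : Fin t → Fin k → C,
      if bodyOK G L k X c ∧ bpin ι π L k X c then ψ (rowc k X c t) else 0
  | 0, ψ, c => by
    rw [Fintype.sum_unique, if_pos]
    · have : bodyx G π L k 0 = [] := rfl
      rw [this, cWx_nil]
      rfl
    · exact ⟨⟨fun j hj => by omega, fun j h1 h2 => by omega⟩, fun j hj => by omega⟩
  | (t + 1), ψ, c => by
    have : bodyx G π L k (t + 1) = bodyx G π L k t ++
      (stepx G π L t k ++ (horOps G L (t + 1) (k + 1)).map Opx.op) := rfl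
    rw [this, cWx_append, cWx_bodyx L k t, sum_snoc]
    apply Finset.sum_congr rfl
    intro X _
    rw [cWx_append, cWx_stepx]
    simp_rw [cWx_op, cW_horOps]
    have hrow : ∀ x : Fin k → C, ov k (rowc k X c t) x = ov k c x := by
      intro x
      unfold rowc
      split_ifs
      · rw [ov_ov]
      · rfl
    simp_rw [hrow]
    by_cases hX : bodyOK G L k X c ∧ bpin ι π L k X c
    · rw [if_pos hX]
      apply Finset.sum_congr rfl
      intro x _
      rw [rowc_snoc_last]
      by_cases h1 : ∀ i, 1 ≤ i → i ≤ k →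
          vrel G (L i t) (L i (t + 1)) (rowc k X c t i) (ov k c x i) ∧
          ((i = 1 ∨ t = 0) → plab ι π (L i (t + 1)) (ov k c x i))
      · rw [if_pos h1]
        by_cases h2 : ∀ i, i < k + 1 →
            vrel G (L i (t + 1)) (L (i + 1) (t + 1)) (ov k c x i) (ov k c x (i + 1))
        · rw [if_pos h2, if_pos]
          refine ⟨⟨fun j hj i hi1 hi2 => ?_, fun j hj1 hj2 i hi => ?_⟩,
            fun j hj i hi1 hi2 hpin => ?_⟩
          · by_cases hjt : j = t
            · subst hjt
              rw [rowc_snoc_lt k X x c le_rfl, rowc_snoc_last]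
              exact (h1 i hi1 hi2).1
            · rw [rowc_snoc_lt k X x c (by omega), rowc_snoc_lt k X x c (by omega)]
              exact hX.1.1 j (by omega) i hi1 hi2
          · by_cases hjt : j = t + 1
            · subst hjt
              rw [rowc_snoc_last]
              exact h2 i hi
            · rw [rowc_snoc_lt k X x c (by omega)]
              exact hX.1.2 j hj1 (by omega) i hi
          · by_cases hjt : j = t
            · subst hjt
              rw [rowc_snoc_last]
              exact (h1 i hi1 hi2).2 hpin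
            · rw [rowc_snoc_lt k X x c (by omega)]
              exact hX.2 j (by omega) i hi1 hi2 hpin
        · rw [if_neg h2, if_neg]
          rintro ⟨hall, _⟩
          apply h2
          intro i hi
          have := hall.2 (t + 1) (by omega) le_rfl i hi
          rw [rowc_snoc_last] at this
          exact this
      · rw [if_neg h1, if_neg]
        rintro ⟨hall, hall2⟩
        apply h1
        intro i hi1 hi2
        constructor
        · have := hall.1 t (by omega) i hi1 hi2
          rw [rowc_snoc_lt k X x c le_rfl, rowc_snoc_last] at this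
          exact this
        · intro hpin
          have := hall2 t (by omega) i hi1 hi2 hpin
          rw [rowc_snoc_last] at this
          exact this
    · rw [if_neg hX]
      symm
      apply Finset.sum_eq_zero
      intro x _
      rw [if_neg]
      rintro ⟨hall, hall2⟩
      apply hX
      refine ⟨⟨fun j hj i hi1 hi2 => ?_, fun j hj1 hj2 i hi => ?_⟩,
        fun j hj i hi1 hi2 hpin => ?_⟩
      · have := hall.1 j (by omega) i hi1 hi2
        rwa [rowc_snoc_lt k X x c (by omega), rowc_snoc_lt k X x c (by omega)] at this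
      · have := hall.2 j hj1 (by omega) i hi
        rwa [rowc_snoc_lt k X x c (by omega)] at this
      · have := hall2 j (by omega) i hi1 hi2 hpin
        rwa [rowc_snoc_lt k X x c (by omega)] at this

open Classical in
theorem cWx_topx (L : ℕ → ℕ → Option V) (r : V) (T : ℕ) :
    ∀ (n : ℕ) (ψ : (ℕ → C) → ℝ) (c : ℕ → C),
    cWx ι (topx G π L r T n) ψ c =
      if ∀ i, 1 ≤ i → i ≤ n → (ladj G (L i T) (some r) → c i ≠ c 0) ∧
          plab ι π (L i T) (c i) then
        ψ (ov n c (fun _ => c 0)) else 0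
  | 0, ψ, c => by
    rw [if_pos (by intro i h1 h2; omega)]
    have : topx G π L r T 0 = [] := rfl
    rw [this, cWx_nil]
    congr 1
    funext i
    rw [ov_out]; omega
  | (n + 1), ψ, c => by
    have : topx G π L r T (n + 1) = topx G π L r T n ++ (pinl n (lp π (L (n + 1) T)) ++
      ((if ladj G (L (n + 1) T) (some r) then [Op.H n] else []) ++
        [Op.D (n + 1), Op.J n]).map Opx.op) := rfl
    rw [this, cWx_append, cWx_topx L r T n, cWx_append, cWx_pinl, cWx_op]
    have hk0 : ov n c (fun _ => c 0) n = c 0 := by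
      by_cases hk : n = 0
      · subst hk; rw [ov_out]; omega
      · unfold ov; rw [dif_pos ⟨by omega, le_rfl⟩]
    have hk1 : ov n c (fun _ => c 0) (n + 1) = c (n + 1) := ov_out _ _ _ (by omega)
    have hDJ : ∀ c' : ℕ → C, cW C [Op.D (n + 1), Op.J n] ψ c' =
        ψ (Function.update c' (n + 1) (c' n)) := by
      intro c'
      rw [show [Op.D (n + 1), Op.J n] = [Op.D (n + 1)] ++ [Op.J n] from rfl, cW_append, cW_D]
      rw [Finset.sum_eq_single (c' n)]
      · rw [cW_J, Function.update_self, Function.update_of_ne (by omega), if_pos rfl]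
      · intro b _ hb
        rw [cW_J, Function.update_self, Function.update_of_ne (by omega), if_neg hb.symm]
      · intro h; exact absurd (Finset.mem_univ _) h
    have hov : Function.update (ov n c (fun _ => c 0)) (n + 1) (c 0) =
        ov (n + 1) c (fun _ => c 0) := by
      rw [← ov_snoc]
      congr 1
      funext i
      refine Fin.lastCases ?_ (fun i => ?_) i
      · rw [Fin.snoc_last]
      · rw [Fin.snoc_castSucc]
    have hmid : cW C ((if ladj G (L (n + 1) T) (some r) then [Op.H n] else []) ++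
        [Op.D (n + 1), Op.J n]) ψ (ov n c (fun _ => c 0)) =
        if (ladj G (L (n + 1) T) (some r) → c (n + 1) ≠ c 0) then
          ψ (ov (n + 1) c (fun _ => c 0)) else 0 := by
      rw [cW_append]
      by_cases ha : ladj G (L (n + 1) T) (some r)
      · rw [if_pos ha, cW_H, hk0, hk1, hDJ, hk0, hov]
        by_cases hc : c (n + 1) = c 0
        · rw [if_neg (by rw [hc]; tauto), if_neg (by tauto)]
        · rw [if_pos (fun h => hc h.symm), if_pos (fun _ => hc)]
      · rw [if_neg ha, cW_nil, hDJ, hk0, hov, if_pos (fun h => absurd h ha)]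
    rw [hmid, hk1]
    by_cases h1 : ∀ i, 1 ≤ i → i ≤ n → (ladj G (L i T) (some r) → c i ≠ c 0) ∧
        plab ι π (L i T) (c i)
    · rw [if_pos h1]
      by_cases h2 : plab ι π (L (n + 1) T) (c (n + 1))
      · rw [if_pos h2]
        by_cases h3 : ladj G (L (n + 1) T) (some r) → c (n + 1) ≠ c 0
        · rw [if_pos h3, if_pos]
          intro i hi1 hi2
          by_cases hik : i = n + 1
          · subst hik; exact ⟨h3, h2⟩
          · exact h1 i hi1 (by omega)
        · rw [if_neg h3, if_neg]
          intro hall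
          exact h3 (hall (n + 1) (by omega) le_rfl).1
      · rw [if_neg h2, if_neg]
        intro hall
        exact h2 (hall (n + 1) (by omega) le_rfl).2
    · rw [if_neg h1, if_neg]
      intro hall
      exact h1 (fun i hi1 hi2 => hall i hi1 (by omega))

/-- The pinning conditions at the left, bottom and top boundary of the interior. -/
def pinsOK (L : ℕ → ℕ → Option V) {k T : ℕ} (X : Fin T → Fin k → C) (ρ : C) : Prop :=
  ∀ i j, 1 ≤ i → i ≤ k → 1 ≤ j → j ≤ T → (i = 1 ∨ j = 1 ∨ j = T) →
    plab ι π (L i j) (colr X ρ i j)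

open Classical in
/-- The number of trajectories of the labelled grid with pins. -/
theorem count_allx {L : ℕ → ℕ → Option V} {r : V} {k T : ℕ} (hT : 1 ≤ T)
    (hL : ∀ i j, L i j = some r ↔ (i = 0 ∨ k < i ∨ j = 0 ∨ T < j)) (c : ℕ → C) :
    cS C (k + 1) (cWx ι (allx G π L r k T) (fun _ => 1)) c =
      ∑ X : Fin T → Fin k → C, if gridOK G L X (c 0) ∧ pinsOK ι π L X (c 0) then 1 else 0 := by
  rw [cS_apply]
  unfold allx
  have hval : ∀ x : Fin (k + 1) → C,
      cWx ι ((botOps (k + 1)).map Opx.op ++ (bodyx G π L k T ++ topx G π L r T k)) (fun _ => 1)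
        (ov (k + 1) c x) = if x = (fun _ => c 0) then
          ∑ X : Fin T → Fin k → C, (if gridOK G L X (c 0) ∧ pinsOK ι π L X (c 0) then (1 : ℝ)
            else 0) else 0 := by
    intro x
    rw [cWx_append, cWx_op, cW_botOps, cWx_append, cWx_bodyx]
    have h0 : ov (k + 1) c x 0 = c 0 := ov_out _ _ _ (by omega)
    by_cases hx : x = fun _ => c 0
    · subst hx
      have hc : ∀ i, i ≤ k + 1 → ov (k + 1) c (fun _ => c 0) i = c 0 := by
        intro i hi
        unfold ov
        by_cases h1 : 1 ≤ i ∧ i ≤ k + 1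
        · rw [dif_pos h1]
        · have : i = 0 := by omega
          rw [dif_neg h1, this]
      rw [if_pos rfl, if_pos (by intro i hi; rw [h0]; exact hc i hi)]
      apply Finset.sum_congr rfl
      intro X _
      rw [cWx_topx]
      have hr0 : rowc k X (ov (k + 1) c (fun _ => c 0)) T 0 = c 0 := by
        unfold rowc
        split_ifs
        · rw [ov_out _ _ _ (by omega)]; exact h0
        · exact h0
      rw [hr0]
      have hiff := gridOK_iff (G := G) hL X (ov (k + 1) c (fun _ => c 0)) (c 0) hc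
      have hrow : ∀ i j, 1 ≤ i → i ≤ k → 1 ≤ j → j ≤ T →
          rowc k X (ov (k + 1) c (fun _ => c 0)) j i = colr X (c 0) i j := by
        intro i j hi1 hi2 hj1 hj2
        unfold rowc colr ov
        rw [dif_pos ⟨hj1, hj2⟩, dif_pos ⟨hi1, hi2⟩, dif_pos ⟨⟨hi1, hi2⟩, ⟨hj1, hj2⟩⟩]
      have hiff2 : pinsOK ι π L X (c 0) ↔ (bpin ι π L k X (ov (k + 1) c (fun _ => c 0)) ∧
          ∀ i, 1 ≤ i → i ≤ k →
            plab ι π (L i T) (rowc k X (ov (k + 1) c (fun _ => c 0)) T i)) := by
        constructor
        · intro h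
          refine ⟨fun j hj i hi1 hi2 hpin => ?_, fun i hi1 hi2 => ?_⟩
          · rw [hrow i (j + 1) hi1 hi2 (by omega) (by omega)]
            exact h i (j + 1) hi1 hi2 (by omega) (by omega) (by omega)
          · rw [hrow i T hi1 hi2 hT le_rfl]
            exact h i T hi1 hi2 hT le_rfl (Or.inr (Or.inr rfl))
        · rintro ⟨h1, h2⟩ i j hi1 hi2 hj1 hj2 hpin
          by_cases hjT : j = T
          · subst hjT
            rw [← hrow i j hi1 hi2 hj1 hj2]
            exact h2 i hi1 hi2
          · have := h1 (j - 1) (by omega) i hi1 hi2 (by omega)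
            rw [show j - 1 + 1 = j by omega, hrow i j hi1 hi2 hj1 hj2] at this
            exact this
      by_cases hb : bodyOK G L k X (ov (k + 1) c (fun _ => c 0)) ∧
          bpin ι π L k X (ov (k + 1) c (fun _ => c 0))
      · rw [if_pos hb]
        by_cases ht : ∀ i, 1 ≤ i → i ≤ k → (ladj G (L i T) (some r) →
            rowc k X (ov (k + 1) c (fun _ => c 0)) T i ≠ c 0) ∧
            plab ι π (L i T) (rowc k X (ov (k + 1) c (fun _ => c 0)) T i)
        · rw [if_pos ht, if_pos ⟨hiff.2 ⟨hb.1, fun i h1 h2 => (ht i h1 h2).1⟩,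
            hiff2.2 ⟨hb.2, fun i h1 h2 => (ht i h1 h2).2⟩⟩]
        · rw [if_neg ht, if_neg]
          rintro ⟨h1, h2⟩
          exact ht (fun i hi1 hi2 => ⟨(hiff.1 h1).2 i hi1 hi2, (hiff2.1 h2).2 i hi1 hi2⟩)
      · rw [if_neg hb, if_neg]
        rintro ⟨h1, h2⟩
        exact hb ⟨(hiff.1 h1).1, (hiff2.1 h2).1⟩
    · rw [if_neg hx, if_neg]
      intro hall
      apply hx
      funext i
      have h1 := hall (i.1 + 1) (by omega)
      rw [h0] at h1
      unfold ov at h1
      rw [dif_pos ⟨by omega, by omega⟩] at h1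
      rw [← h1]
      congr 1
  simp_rw [hval]
  rw [Finset.sum_ite_eq' Finset.univ, if_pos (Finset.mem_univ _)]

/-- Colourings of the grid with pins correspond to extensions and free colours. -/
noncomputable def pinEquiv {r : V} {k T : ℕ} {L : ℕ → ℕ → Option V} (M : GridModel G r k T L)
    {a0 : A} (hr : π r = some a0)
    (hcon : ∀ v, v ≠ r → π v ≠ none → ∃ i j, L i j = some v ∧ (i = 1 ∨ j = 1 ∨ j = T)) :
    {X : Fin T → Fin k → C // gridOK G L X (ι a0) ∧ pinsOK ι π L X (ι a0)} ≃
      {F : G.Coloring C // ∀ v a, π v = some a → F v = ι a} × (NonePt k T L → C) where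
  toFun X := (⟨(M.equiv ⟨(ι a0, X.1), X.2.1⟩).1, by
    intro v a hva
    show colr X.1 (ι a0) (M.nonempty v).choose.1 (M.nonempty v).choose.2 = ι a
    by_cases hv : v = r
    · subst hv
      have h1 := (M.frame _ _).1 (M.nonempty v).choose_spec
      unfold colr
      rw [dif_neg (by omega)]
      rw [hr] at hva
      cases hva
      rfl
    · obtain ⟨i, j, hL, hij⟩ := hcon v hv (by rw [hva]; simp)
      have hnf : ¬ (i = 0 ∨ k < i ∨ j = 0 ∨ T < j) := by
        intro hh
        have := (M.frame i j).2 hh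
        rw [hL, Option.some_inj] at this
        exact hv this
      rw [M.colr_const X.2.1 (p := (M.nonempty v).choose) (q := (i, j))
        (M.nonempty v).choose_spec hL]
      apply X.2.2 i j (by omega) (by omega) (by omega) (by omega) hij
      rw [hL]
      exact hva⟩, (M.equiv ⟨(ι a0, X.1), X.2.1⟩).2)
  invFun w := ⟨mkX k T L w.1.1 w.2, by
    have hρ : w.1.1 r = ι a0 := w.1.2 r a0 hr
    constructor
    · rw [← hρ]
      exact (M.equiv.symm (w.1.1, w.2)).2
    · intro i j hi1 hi2 hj1 hj2 _ a ha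
      rw [← hρ]
      cases hl : L i j with
      | none => rw [hl] at ha; simp [lp] at ha
      | some v =>
        rw [M.colr_mkX w.1.1 w.2 hl]
        rw [hl] at ha
        exact w.1.2 v a ha⟩
  left_inv X := by
    apply Subtype.ext
    have h := M.equiv.left_inv ⟨(ι a0, X.1), X.2.1⟩
    have h2 := congrArg (fun z => z.1.2) h
    exact h2
  right_inv w := by
    have hρ : w.1.1 r = ι a0 := w.1.2 r a0 hr
    have h := M.equiv.right_inv (w.1.1, w.2)
    have hgr : gridOK G L (mkX k T L w.1.1 w.2) (ι a0) := by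
      rw [← hρ]
      exact (M.equiv.symm (w.1.1, w.2)).2
    have e0 : (⟨(ι a0, mkX k T L w.1.1 w.2), hgr⟩ :
        {z : C × (Fin T → Fin k → C) // gridOK G L z.2 z.1}) = M.equiv.symm (w.1.1, w.2) :=
      Subtype.ext (Prod.ext hρ.symm rfl)
    have e : M.equiv ⟨(ι a0, mkX k T L w.1.1 w.2), hgr⟩ = (w.1.1, w.2) := by
      rw [e0]; exact h
    exact Prod.ext (Subtype.ext (congrArg Prod.fst e :)) (congrArg Prod.snd e :)

open Classical in
theorem sum_countx {r : V} {k T : ℕ} {L : ℕ → ℕ → Option V} (M : GridModel G r k T L)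
    {a0 : A} (hr : π r = some a0)
    (hcon : ∀ v, v ≠ r → π v ≠ none → ∃ i j, L i j = some v ∧ (i = 1 ∨ j = 1 ∨ j = T)) :
    ∑ X : Fin T → Fin k → C,
      (if gridOK G L X (ι a0) ∧ pinsOK ι π L X (ι a0) then (1 : ℝ) else 0) =
      (Nat.card {F : G.Coloring C // ∀ v a, π v = some a → F v = ι a} : ℝ) *
        (Fintype.card C : ℝ) ^ (Fintype.card (NonePt k T L)) := by
  rw [Finset.sum_boole, ← Fintype.card_subtype, ← Nat.card_eq_fintype_card,
    Nat.card_congr (pinEquiv ι π M hr hcon), Nat.card_prod,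
    Nat.card_eq_fintype_card (α := NonePt k T L → C), Fintype.card_fun]
  push_cast
  rfl

end Count

end Pool.Agent.Helper35.DInf
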