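import Mathlib
import Pool.Agent.Helper35.DInf.Countx

/-!
Validity of a list of operations with pins: statuses of the sites and the support relation.
-/

set_option autoImplicit false
set_option linter.unusedSectionVars false
set_option linter.unusedVariables false

namespace Pool.Agent.Helper35.DInf

open Pool.Agent.Helper70.BLB

/-- Status of a site: one of the two classes, pinned to a leaf, or new (to be attached to the
root). -/
inductive St (A : Type)
  | pos
  | neg
  | lf (a : A)
  | new

variable {A : Type}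

/-- The site belongs to one of the two classes. -/
def St.isCl (s : St A) : Prop := s = St.pos ∨ s = St.neg

/-- The opposite class. -/
def St.opp : St A → St A
  | .pos => .neg
  | .neg => .pos
  | .lf a => .lf a
  | .new => .new

/-- The support relation of a list of operations, for site values in `W` (pins `ι`). -/
def Sup {W : Type} (ι : A → W) : List (Opx A) → (ℕ → W) → Prop
  | [], _ => True
  | (.op (.J i) :: ops), g => g i = g (i + 1) ∧ Sup ι ops g
  | (.op (.H _) :: ops), g => Sup ι ops g
  | (.op (.D i) :: ops), g => ∃ x, Sup ι ops (Function.update g i x)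
  | (.op (.V i) :: ops), g => ∃ x, Sup ι ops (Function.update g i x)
  | (.pin p a :: ops), g => g (p + 1) = ι a ∧ Sup ι ops g

/-- The remaining operations force the value `a` at site `i`, provided that all other pinned
sites have their value. -/
def Force {W : Type} (ι : A → W) (a0 : A) (ops : List (Opx A)) (s : ℕ → St A) (i : ℕ) (a : A) :
    Prop :=
  ∀ g : ℕ → W, g 0 = ι a0 → (∀ l b, 1 ≤ l → l ≠ i → s l = St.lf b → g l = ι b) →
    Sup ι ops g → g i = ι a

/-- Validity of a list of operations for a status assignment. -/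
def Vd {W : Type} (ι : A → W) (a0 : A) (m : ℕ) : List (Opx A) → (ℕ → St A) → Prop
  | [], _ => True
  | (.op (.J i) :: ops), s => i + 1 ≤ m ∧
      ((1 ≤ i ∧ s i = s (i + 1) ∧ (s i).isCl ∧ Vd ι a0 m ops s) ∨
        (1 ≤ i ∧ (∃ a, s i = St.lf a ∧ s (i + 1) = St.lf a) ∧ Vd ι a0 m ops s) ∨
        ((i = 0 ∨ s i = St.lf a0) ∧ s (i + 1) = St.new ∧
          Vd ι a0 m ops (Function.update s (i + 1) (St.lf a0))))
  | (.op (.H i) :: ops), s => i + 1 ≤ m ∧ Vd ι a0 m ops s ∧
      (((i = 0 ∨ ∃ a, s i = St.lf a) ∧ (s (i + 1)).isCl) ∨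
        (1 ≤ i ∧ (s i).isCl ∧ ∃ a, s (i + 1) = St.lf a) ∨
        (∃ a b, a ≠ b ∧ ((i = 0 ∧ a = a0) ∨ (1 ≤ i ∧ s i = St.lf a)) ∧ s (i + 1) = St.lf b) ∨
        (1 ≤ i ∧ (s i).isCl ∧ s (i + 1) = (s i).opp))
  | (.op (.D i) :: ops), s => 1 ≤ i ∧ i ≤ m ∧
      ((∃ x : St A, (x.isCl ∨ x = St.new) ∧ Vd ι a0 m ops (Function.update s i x)) ∨
        ∃ a : A, Force ι a0 ops s i a ∧ Vd ι a0 m ops (Function.update s i (St.lf a)))
  | (.op (.V i) :: ops), s => 1 ≤ i ∧ i ≤ m ∧
      ((∃ x : St A, x.isCl ∧ ((∃ a, s i = St.lf a) ∨ ((s i).isCl ∧ x = (s i).opp)) ∧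
          Vd ι a0 m ops (Function.update s i x)) ∨
        ∃ a : A, ((∃ b, b ≠ a ∧ s i = St.lf b) ∨ (s i).isCl) ∧ Force ι a0 ops s i a ∧
          Vd ι a0 m ops (Function.update s i (St.lf a)))
  | (.pin p a :: ops), s => p + 1 ≤ m ∧ s (p + 1) = St.lf a ∧ Vd ι a0 m ops s

/-- Hypothesis on the pinned vertices and the two classes: `π` pins the root to `a0`, adjacent
pinned vertices have different pins, `cl` is a two-colouring of the other vertices. -/
structure ClsP {V : Type} (G : SimpleGraph V) (r : V) (a0 : A) (π : V → Option A)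
    (cl : V → St A) : Prop where
  root : π r = some a0
  pin : ∀ u v a b, G.Adj u v → π u = some a → π v = some b → a ≠ b
  val : ∀ v, (cl v).isCl
  adj : ∀ u v, π u = none → π v = none → G.Adj u v → cl v = (cl u).opp

end Pool.Agent.Helper35.DInf
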