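import Mathlib
import Pool.Agent.Helper35.DInf.VDef

/-!
Positivity of the height evaluation of a valid list of operations with pins.
-/

set_option autoImplicit false
set_option linter.unusedSectionVars false
set_option linter.unusedVariables false

namespace Pool.Agent.Helper35.DInf

open Pool.Agent.Helper70.BLB

variable {A N : Type} [DecidableEq N] {δ : ℝ}

/-- Structure of the sites of the graph: sites have degree at most two. -/
structure HGs (Γ : HG N A δ) where
  site : N → Prop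
  site_leaf : ∀ a, site (Γ.leaf a)
  flip : ∀ x y, y ∈ Γ.nb x → (site y ↔ ¬ site x)
  deg : ∀ x, site x → (∀ a, x ≠ Γ.leaf a) → ∃ y y', y ≠ y' ∧ Γ.nb x = {y, y'}
  w : N
  w' : N
  w_mem : w ∈ Γ.nb Γ.z
  w_ne : ∀ a, w ≠ Γ.leaf a
  zw' : Γ.z ≠ w'
  nb_w : Γ.nb w = {Γ.z, w'}

/-- Sign attached to a status. -/
noncomputable def sgn : St A → ℝ
  | .neg => -1
  | _ => 1

theorem sgn_mul_self (z : St A) : sgn z * sgn z = 1 := by
  cases z <;> simp [sgn]

theorem sgn_opp {z : St A} (hz : z.isCl) : sgn z.opp = - sgn z := by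
  rcases hz with rfl | rfl <;> simp [sgn, St.opp]

/-- The gauge sign of a height configuration. -/
noncomputable def gg (m : ℕ) (s : ℕ → St A) (h : ℕ → N) : ℝ :=
  ∏ i ∈ Finset.Icc 1 m, if h (2 * i - 1) = h (2 * i + 1) then 1 else sgn (s i)

theorem gg_mul_self (m : ℕ) (s : ℕ → St A) (h : ℕ → N) : gg m s h * gg m s h = 1 := by
  unfold gg
  rw [← Finset.prod_mul_distrib]
  apply Finset.prod_eq_one
  intro i _
  split_ifs
  · norm_num
  · exact sgn_mul_self _

/-- Changing a site height does not change the gauge sign. -/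
theorem gg_update_even (m : ℕ) (s : ℕ → St A) (h : ℕ → N) (i : ℕ) (x : N) :
    gg m s (Function.update h (2 * i) x) = gg m s h := by
  unfold gg
  apply Finset.prod_congr rfl
  intro j hj
  rw [Finset.mem_Icc] at hj
  rw [Function.update_of_ne (by omega), Function.update_of_ne (by omega)]

/-- Changing a face height flips the gauge sign by the signs of the two adjacent sites. -/
theorem gg_update_odd {Γ : HG N A δ} {m : ℕ} (s : ℕ → St A) {h : ℕ → N} {i : ℕ} {x : N}
    (hi : 1 ≤ i) (him : i + 1 ≤ m) (hp : Pth Γ h) (he : h (2 * i) = h (2 * i + 2))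
    (hdeg : ∀ u ∈ Γ.nb (h (2 * i)), u = x ∨ u = h (2 * i + 1)) (hne : x ≠ h (2 * i + 1)) :
    gg m s h * gg m s (Function.update h (2 * i + 1) x) = sgn (s i) * sgn (s (i + 1)) := by
  have hl : h (2 * i - 1) ∈ Γ.nb (h (2 * i)) := by
    have := hp.back (2 * i - 1)
    rwa [show 2 * i - 1 + 1 = 2 * i by omega] at this
  have hr : h (2 * i + 3) ∈ Γ.nb (h (2 * i)) := by
    rw [he]; exact hp (2 * i + 2)
  have hl' := hdeg _ hl
  have hr' := hdeg _ hr
  unfold gg
  rw [← Finset.prod_mul_distrib]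
  rw [Finset.prod_eq_mul (a := i) (b := i + 1) (by omega)]
  · congr 1
    · rw [Function.update_of_ne (show 2 * i - 1 ≠ 2 * i + 1 by omega), Function.update_self]
      rcases hl' with h1 | h1
      · rw [h1, if_neg hne, if_pos rfl, mul_one]
      · rw [h1, if_pos rfl, if_neg (Ne.symm hne), one_mul]
    · rw [show 2 * (i + 1) - 1 = 2 * i + 1 by omega, Function.update_self,
        Function.update_of_ne (show 2 * (i + 1) + 1 ≠ 2 * i + 1 by omega),
        show 2 * (i + 1) + 1 = 2 * i + 3 by omega]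
      rcases hr' with h1 | h1
      · rw [h1, if_neg (Ne.symm hne), if_pos rfl, mul_one]
      · rw [h1, if_pos rfl, if_neg hne, one_mul]
  · intro j hj hji
    rw [Function.update_of_ne (by omega), Function.update_of_ne (by omega)]
    split_ifs
    · norm_num
    · exact sgn_mul_self _
  · intro hh; exact absurd (Finset.mem_Icc.2 ⟨hi, by omega⟩) hh
  · intro hh; exact absurd (Finset.mem_Icc.2 ⟨by omega, him⟩) hh

/-- Changing the status of one site. -/
theorem gg_status {m : ℕ} (s : ℕ → St A) (h : ℕ → N) {i : ℕ} (hi : 1 ≤ i) (him : i ≤ m)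
    (x : St A) :
    gg m s h * gg m (Function.update s i x) h =
      if h (2 * i - 1) = h (2 * i + 1) then 1 else sgn (s i) * sgn x := by
  unfold gg
  rw [← Finset.prod_mul_distrib, Finset.prod_eq_single i]
  · rw [Function.update_self]
    split_ifs <;> simp
  · intro j hj hji
    rw [Function.update_of_ne hji]
    split_ifs
    · norm_num
    · exact sgn_mul_self _
  · intro hh; exact absurd (Finset.mem_Icc.2 ⟨hi, him⟩) hh

theorem gg_status_eq {m : ℕ} (s : ℕ → St A) (h : ℕ → N) {i : ℕ} (hi : 1 ≤ i) (him : i ≤ m)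
    (x : St A) (he : h (2 * i - 1) = h (2 * i + 1)) :
    gg m (Function.update s i x) h = gg m s h := by
  have h1 := gg_status s h hi him x
  rw [if_pos he] at h1
  have h2 := gg_mul_self m s h
  calc gg m (Function.update s i x) h
      = (gg m s h * gg m s h) * gg m (Function.update s i x) h := by rw [h2, one_mul]
    _ = gg m s h * (gg m s h * gg m (Function.update s i x) h) := by ring
    _ = gg m s h := by rw [h1, mul_one]

section

variable (Γ : HG N A δ) (σ : HGs Γ) (a0 : A)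

/-- Domain: paths starting at the leaf `a0`, pinned sites have their height. -/
def Dm (s : ℕ → St A) (h : ℕ → N) : Prop :=
  Pth Γ h ∧ h 0 = Γ.leaf a0 ∧ ∀ i, 1 ≤ i → ∀ a, s i = St.lf a → h (2 * i) = Γ.leaf a

/-- The height of a status in the reference configuration. -/
def ref {Γ : HG N A δ} (σ : HGs Γ) (a0 : A) : St A → N
  | .lf a => Γ.leaf a
  | .new => Γ.leaf a0
  | _ => σ.w

/-- The reference configuration. -/
def hrf {Γ : HG N A δ} (σ : HGs Γ) (a0 : A) (s : ℕ → St A) (p : ℕ) : N :=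
  if p = 0 then Γ.leaf a0 else if p % 2 = 1 then Γ.z else ref σ a0 (s (p / 2))

variable {Γ σ a0}

theorem ref_mem (x : St A) : ref σ a0 x ∈ Γ.nb Γ.z := by
  cases x with
  | pos => exact σ.w_mem
  | neg => exact σ.w_mem
  | lf a => exact Γ.leaf_mem a
  | new => exact Γ.leaf_mem a0

theorem hrf_odd (s : ℕ → St A) (i : ℕ) : hrf σ a0 s (2 * i + 1) = Γ.z := by
  unfold hrf
  rw [if_neg (by omega), if_pos (by omega)]

theorem hrf_odd' (s : ℕ → St A) {i : ℕ} (hi : 1 ≤ i) : hrf σ a0 s (2 * i - 1) = Γ.z := by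
  unfold hrf
  rw [if_neg (by omega), if_pos (by omega)]

theorem hrf_even (s : ℕ → St A) {i : ℕ} (hi : 1 ≤ i) :
    hrf σ a0 s (2 * i) = ref σ a0 (s i) := by
  unfold hrf
  rw [if_neg (by omega), if_neg (by omega), show 2 * i / 2 = i by omega]

theorem hrf_zero (s : ℕ → St A) : hrf σ a0 s 0 = Γ.leaf a0 := by simp [hrf]

theorem hrf_path (s : ℕ → St A) : Pth Γ (hrf σ a0 s) := by
  intro p
  rcases Nat.even_or_odd' p with ⟨i, rfl | rfl⟩
  · rw [hrf_odd]
    by_cases hi : i = 0
    · subst hi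
      rw [Nat.mul_zero, hrf_zero, Γ.nb_leaf, Finset.mem_singleton]
    · rw [hrf_even s (by omega)]
      exact Γ.symm _ _ (ref_mem (s i))
  · rw [hrf_odd, show 2 * i + 1 + 1 = 2 * (i + 1) by ring, hrf_even s (by omega)]
    exact ref_mem _

theorem hrf_dom (s : ℕ → St A) : Dm Γ a0 s (hrf σ a0 s) := by
  refine ⟨hrf_path s, hrf_zero s, fun i hi a ha => ?_⟩
  rw [hrf_even s hi, ha]
  rfl

theorem hrf_update (s : ℕ → St A) {i : ℕ} (hi : 1 ≤ i) (x : St A) :
    hrf σ a0 (Function.update s i x) = Function.update (hrf σ a0 s) (2 * i) (ref σ a0 x) := by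
  funext p
  by_cases hp : p = 2 * i
  · subst hp
    rw [Function.update_self, hrf_even _ hi, Function.update_self]
  · rw [Function.update_of_ne hp]
    unfold hrf
    by_cases hp0 : p = 0
    · rw [if_pos hp0, if_pos hp0]
    · by_cases hp1 : p % 2 = 1
      · rw [if_neg hp0, if_pos hp1, if_neg hp0, if_pos hp1]
      · rw [if_neg hp0, if_neg hp1, if_neg hp0, if_neg hp1, Function.update_of_ne (by omega)]

theorem gg_hrf (m : ℕ) (s s' : ℕ → St A) : gg m s (hrf σ a0 s') = 1 := by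
  unfold gg
  apply Finset.prod_eq_one
  intro i hi
  rw [Finset.mem_Icc] at hi
  rw [hrf_odd, hrf_odd' s' hi.1, if_pos rfl]

/-- Nonnegativity in the gauge, and positivity at the reference configuration. -/
def PF {Γ : HG N A δ} (σ : HGs Γ) (a0 : A) (m : ℕ) (s : ℕ → St A) (Φ : (ℕ → N) → ℝ) : Prop :=
  (∀ h, Dm Γ a0 s h → 0 ≤ gg m s h * Φ h) ∧ 0 < Φ (hrf σ a0 s)

theorem Dm.update_face {s : ℕ → St A} {h : ℕ → N} (hd : Dm Γ a0 s h) {i : ℕ} {x : N}
    (he : h (2 * i) = h (2 * i + 2)) (hx : x ∈ Γ.nb (h (2 * i))) :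
    Dm Γ a0 s (Function.update h (2 * i + 1) x) := by
  obtain ⟨hp, h0, h1⟩ := hd
  refine ⟨hp.update (by omega) ?_ ?_, ?_, fun j hj a hs => ?_⟩
  · rw [show 2 * i + 1 - 1 = 2 * i by omega]; exact he
  · rw [show 2 * i + 1 - 1 = 2 * i by omega]; exact hx
  · rw [Function.update_of_ne (by omega)]; exact h0
  · rw [Function.update_of_ne (by omega)]; exact h1 j hj a hs

theorem Dm.update_site {s : ℕ → St A} {h : ℕ → N} (hd : Dm Γ a0 s h) {i : ℕ} {x : N} (hi : 1 ≤ i)
    (he : h (2 * i - 1) = h (2 * i + 1)) (hx : x ∈ Γ.nb (h (2 * i - 1))) (z : St A)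
    (hz : ∀ a, z = St.lf a → x = Γ.leaf a) :
    Dm Γ a0 (Function.update s i z) (Function.update h (2 * i) x) := by
  obtain ⟨hp, h0, h1⟩ := hd
  refine ⟨hp.update (by omega) he hx, ?_, fun j hj a hs => ?_⟩
  · rw [Function.update_of_ne (by omega)]; exact h0
  · by_cases hji : j = i
    · subst hji
      rw [Function.update_self] at hs ⊢
      exact hz a hs
    · rw [Function.update_of_ne hji] at hs
      rw [Function.update_of_ne (by omega)]
      exact h1 j hj a hs

theorem Dm.status {s : ℕ → St A} {h : ℕ → N} (hd : Dm Γ a0 s h) {i : ℕ} (z : St A)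
    (hz : ∀ a, z = St.lf a → h (2 * i) = Γ.leaf a) : Dm Γ a0 (Function.update s i z) h := by
  obtain ⟨hp, h0, h1⟩ := hd
  refine ⟨hp, h0, fun j hj a hs => ?_⟩
  by_cases hji : j = i
  · subst hji
    rw [Function.update_self] at hs
    exact hz a hs
  · rw [Function.update_of_ne hji] at hs
    exact h1 j hj a hs

/-- Site positions carry site nodes. -/
theorem Dm.site (σ : HGs Γ) {s : ℕ → St A} {h : ℕ → N} (hd : Dm Γ a0 s h) : ∀ i : ℕ,
    σ.site (h (2 * i)) ∧ ¬ σ.site (h (2 * i + 1))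
  | 0 => by
    have h1 : σ.site (h (2 * 0)) := by
      rw [Nat.mul_zero, hd.2.1]; exact σ.site_leaf a0
    refine ⟨h1, ?_⟩
    rw [σ.flip _ _ (hd.1 (2 * 0))]
    exact not_not.2 h1
  | (i + 1) => by
    have ih := Dm.site σ hd i
    have h1 : σ.site (h (2 * (i + 1))) := by
      rw [show 2 * (i + 1) = 2 * i + 1 + 1 by ring, σ.flip _ _ (hd.1 (2 * i + 1))]
      exact ih.2
    refine ⟨h1, ?_⟩
    rw [σ.flip _ _ (hd.1 (2 * (i + 1)))]
    exact not_not.2 h1

/-- Two sites of the same class are joined. -/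
theorem pf_J_normal (hδ : 0 < δ) {m i : ℕ} {s : ℕ → St A} {Φ : (ℕ → N) → ℝ}
    (hΦ : PF σ a0 m s Φ) (hi : 1 ≤ i) (him : i + 1 ≤ m) (hs : s i = s (i + 1))
    (hs1 : (s i).isCl) :
    PF σ a0 m s ((Op.val (δ • (1 : HA N)) (δ⁻¹ • 1) (gE Γ) (Op.J i)) Φ) := by
  have key : ∀ h, Dm Γ a0 s h → h (2 * i) = h (2 * i + 2) → ∀ x ∈ Γ.nb (h (2 * i)),
      0 ≤ Γ.S x * (gg m s h * Φ (Function.update h (2 * i + 1) x)) := by
    intro h hd he x hx
    have hd' := hd.update_face he hx
    have h1 := hΦ.1 _ hd'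
    have h2 : gg m s (Function.update h (2 * i + 1) x) = gg m s h := by
      by_cases hxe : x = h (2 * i + 1)
      · rw [hxe, Function.update_eq_self]
      · have hcur : h (2 * i + 1) ∈ Γ.nb (h (2 * i)) := hd.1 (2 * i)
        have hdeg : ∀ u ∈ Γ.nb (h (2 * i)), u = x ∨ u = h (2 * i + 1) := by
          by_cases hl : ∀ a, h (2 * i) ≠ Γ.leaf a
          · obtain ⟨y, y', hyy, hnb⟩ := σ.deg _ (Dm.site σ hd i).1 hl
            rw [hnb, Finset.mem_insert, Finset.mem_singleton] at hx hcur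
            intro u hu
            rw [hnb, Finset.mem_insert, Finset.mem_singleton] at hu
            rcases hx with rfl | rfl <;> rcases hcur with hc | hc <;> rcases hu with rfl | rfl
            · exact Or.inl rfl
            · exact absurd hc.symm hxe
            · exact Or.inl rfl
            · exact Or.inr hc.symm
            · exact Or.inr hc.symm
            · exact Or.inl rfl
            · exact absurd hc.symm hxe
            · exact Or.inl rfl
          · push Not at hl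
            obtain ⟨a, ha⟩ := hl
            rw [ha, Γ.nb_leaf, Finset.mem_singleton] at hx hcur
            exact absurd (hx.trans hcur.symm) hxe
        have h3 := gg_update_odd (Γ := Γ) s hi him hd.1 he hdeg hxe
        rw [← hs, sgn_mul_self] at h3
        have h4 := gg_mul_self m s h
        calc gg m s (Function.update h (2 * i + 1) x)
            = (gg m s h * gg m s h) * gg m s (Function.update h (2 * i + 1) x) := by
              rw [h4, one_mul]
          _ = gg m s h * (gg m s h * gg m s (Function.update h (2 * i + 1) x)) := by ring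
          _ = gg m s h := by rw [h3, mul_one]
    rw [h2] at h1
    exact mul_nonneg (Γ.pos x).le h1
  have hform : ∀ h, Dm Γ a0 s h → h (2 * i) = h (2 * i + 2) →
      gg m s h * (δ⁻¹ * gE Γ (2 * i + 1) Φ h) =
      δ⁻¹ * ((∑ x ∈ Γ.nb (h (2 * i)), Γ.S x *
        (gg m s h * Φ (Function.update h (2 * i + 1) x))) / Γ.S (h (2 * i))) := by
    intro h hd he
    have he' : h (2 * i + 1 - 1) = h (2 * i + 1 + 1) := by
      rw [show 2 * i + 1 - 1 = 2 * i by omega]; exact he
    rw [gE_pos Γ _ _ hd.1 he', show 2 * i + 1 - 1 = 2 * i by omega]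
    have e1 : ∑ x ∈ Γ.nb (h (2 * i)), Γ.S x *
        (gg m s h * Φ (Function.update h (2 * i + 1) x)) =
        gg m s h * ∑ x ∈ Γ.nb (h (2 * i)), Γ.S x * Φ (Function.update h (2 * i + 1) x) := by
      rw [Finset.mul_sum]
      apply Finset.sum_congr rfl
      intro x _
      ring
    rw [e1]
    ring
  refine ⟨fun h hd => ?_, ?_⟩
  · rw [gval_J]
    by_cases he : h (2 * i) = h (2 * i + 2)
    · rw [hform h hd he]
      exact mul_nonneg (inv_nonneg.2 hδ.le) (div_nonneg (Finset.sum_nonneg (key h hd he))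
        (Γ.pos _).le)
    · rw [gE_neg, mul_zero, mul_zero]
      rintro ⟨_, hh⟩
      rw [show 2 * i + 1 - 1 = 2 * i by omega] at hh
      exact he hh
  · rw [gval_J]
    have hd := hrf_dom (σ := σ) (a0 := a0) s
    have hv1 : hrf σ a0 s (2 * i) = σ.w := by
      rw [hrf_even s hi]
      rcases hs1 with h | h <;> rw [h] <;> rfl
    have hv2 : hrf σ a0 s (2 * i + 2) = σ.w := by
      rw [show 2 * i + 2 = 2 * (i + 1) by ring, hrf_even s (by omega), ← hs]
      rcases hs1 with h | h <;> rw [h] <;> rfl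
    have he : hrf σ a0 s (2 * i) = hrf σ a0 s (2 * i + 2) := by rw [hv1, hv2]
    have h5 := hform _ hd he
    rw [gg_hrf, one_mul] at h5
    rw [h5]
    apply mul_pos (inv_pos.2 hδ)
    apply div_pos _ (Γ.pos _)
    have hzmem : Γ.z ∈ Γ.nb (hrf σ a0 s (2 * i)) := by
      rw [hv1, σ.nb_w]; exact Finset.mem_insert_self _ _
    apply Finset.sum_pos'
    · intro x hx
      have := key _ hd he x hx
      rwa [gg_hrf] at this
    · refine ⟨Γ.z, hzmem, ?_⟩
      have e3 : Function.update (hrf σ a0 s) (2 * i + 1) Γ.z = hrf σ a0 s := by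
        rw [Function.update_eq_self_iff, hrf_odd]
      rw [e3, one_mul]
      exact mul_pos (Γ.pos _) hΦ.2

/-- The value of the root on the left of a site. -/
theorem Dm.left {s : ℕ → St A} {h : ℕ → N} (hd : Dm Γ a0 s h) {i : ℕ} {a : A}
    (hs : (i = 0 ∧ a = a0) ∨ (1 ≤ i ∧ s i = St.lf a)) : h (2 * i) = Γ.leaf a := by
  rcases hs with ⟨rfl, rfl⟩ | ⟨hi, hs⟩
  · rw [Nat.mul_zero]; exact hd.2.1
  · exact hd.2.2 i hi a hs

/-- The join is the identity between equal pinned sites. -/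
theorem gval_J_leaf (hδ : δ ≠ 0) {h : ℕ → N} (hp : Pth Γ h) {i : ℕ} {a : A}
    (h1 : h (2 * i) = Γ.leaf a) (Φ : (ℕ → N) → ℝ) :
    (Op.val (δ • (1 : HA N)) (δ⁻¹ • 1) (gE Γ) (Op.J i)) Φ h =
      if h (2 * i + 2) = Γ.leaf a then Φ h else 0 := by
  rw [gval_J]
  split_ifs with h2
  · rw [gE_leaf Γ (2 * i + 1) (by omega) Φ hp
      (by rw [show 2 * i + 1 - 1 = 2 * i by omega]; exact h1) h2, ← mul_assoc,
      inv_mul_cancel₀ hδ, one_mul]
  · rw [gE_neg, mul_zero]
    rintro ⟨_, hh⟩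
    rw [show 2 * i + 1 - 1 = 2 * i by omega, h1] at hh
    exact h2 hh.symm

theorem pf_J_attach (hδ : 0 < δ) {m i : ℕ} {s : ℕ → St A} {Φ : (ℕ → N) → ℝ}
    (hΦ : PF σ a0 m (Function.update s (i + 1) (St.lf a0)) Φ) (him : i + 1 ≤ m)
    (hs : i = 0 ∨ s i = St.lf a0) (hs1 : s (i + 1) = St.new) :
    PF σ a0 m s ((Op.val (δ • (1 : HA N)) (δ⁻¹ • 1) (gE Γ) (Op.J i)) Φ) := by
  have hleft : ∀ h, Dm Γ a0 s h → h (2 * i) = Γ.leaf a0 := by
    intro h hd
    by_cases hi : i = 0
    · exact hd.left (Or.inl ⟨hi, rfl⟩)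
    · exact hd.left (Or.inr ⟨by omega, hs.resolve_left hi⟩)
  refine ⟨fun h hd => ?_, ?_⟩
  · rw [gval_J_leaf hδ.ne' hd.1 (hleft h hd)]
    split_ifs with h2
    · have hd' : Dm Γ a0 (Function.update s (i + 1) (St.lf a0)) h :=
        hd.status _ (fun a ha => by
          cases ha
          exact h2)
      have h3 := hΦ.1 h hd'
      have h4 : gg m (Function.update s (i + 1) (St.lf a0)) h = gg m s h := by
        apply gg_status_eq s h (by omega) him
        have hl := hleft h hd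
        have f1 : h (2 * i + 1) = Γ.z := hd.1.z_right hl
        have f2 : h (2 * i + 2 + 1) = Γ.z := hd.1.z_right h2
        rw [show 2 * (i + 1) - 1 = 2 * i + 1 by omega,
          show 2 * (i + 1) + 1 = 2 * i + 2 + 1 by omega, f1, f2]
      rwa [h4] at h3
    · rw [mul_zero]
  · rw [gval_J_leaf hδ.ne' (hrf_path s) (hleft _ (hrf_dom s))]
    have hv : hrf σ a0 s (2 * i + 2) = Γ.leaf a0 := by
      rw [show 2 * i + 2 = 2 * (i + 1) by ring, hrf_even s (by omega), hs1]
      rfl
    rw [if_pos hv]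
    have he : hrf σ a0 s = hrf σ a0 (Function.update s (i + 1) (St.lf a0)) := by
      rw [hrf_update s (by omega)]
      symm
      rw [Function.update_eq_self_iff, show 2 * (i + 1) = 2 * i + 2 by ring, hv]
      rfl
    rw [he]
    exact hΦ.2

theorem pf_J_pinned (hδ : 0 < δ) {m i : ℕ} {s : ℕ → St A} {Φ : (ℕ → N) → ℝ} {a : A}
    (hΦ : PF σ a0 m s Φ) (hi : 1 ≤ i) (hs : s i = St.lf a) (hs1 : s (i + 1) = St.lf a) :
    PF σ a0 m s ((Op.val (δ • (1 : HA N)) (δ⁻¹ • 1) (gE Γ) (Op.J i)) Φ) := by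
  have hval : ∀ h, Dm Γ a0 s h →
      (Op.val (δ • (1 : HA N)) (δ⁻¹ • 1) (gE Γ) (Op.J i)) Φ h = Φ h := by
    intro h hd
    rw [gval_J_leaf hδ.ne' hd.1 (hd.2.2 i hi a hs), if_pos]
    have := hd.2.2 (i + 1) (by omega) a hs1
    rwa [show 2 * (i + 1) = 2 * i + 2 by ring] at this
  refine ⟨fun h hd => ?_, ?_⟩
  · rw [hval h hd]; exact hΦ.1 h hd
  · rw [hval _ (hrf_dom s)]; exact hΦ.2

/-- An edge with one pinned end. -/
theorem gval_H_leaf (hδ : δ ≠ 0) {h : ℕ → N} (hp : Pth Γ h) {i : ℕ}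
    (h1 : (∃ a, h (2 * i) = Γ.leaf a) ∨ (∃ a, h (2 * i + 2) = Γ.leaf a)) (Φ : (ℕ → N) → ℝ) :
    (Op.val (δ • (1 : HA N)) (δ⁻¹ • 1) (gE Γ) (Op.H i)) Φ h =
      if h (2 * i) = h (2 * i + 2) then 0 else Φ h := by
  rw [gval_H]
  split_ifs with h2
  · have h3 : ∃ a, h (2 * i) = Γ.leaf a := by
      rcases h1 with h1 | ⟨a, ha⟩
      · exact h1
      · exact ⟨a, h2.trans ha⟩
    obtain ⟨a, ha⟩ := h3
    rw [gE_leaf Γ (2 * i + 1) (by omega) Φ hp
      (by rw [show 2 * i + 1 - 1 = 2 * i by omega]; exact ha)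
      (by rw [show 2 * i + 1 + 1 = 2 * i + 2 by ring, ← h2]; exact ha), ← mul_assoc,
      inv_mul_cancel₀ hδ, one_mul, sub_self]
  · rw [gE_neg, mul_zero, sub_zero]
    rintro ⟨_, hh⟩
    rw [show 2 * i + 1 - 1 = 2 * i by omega] at hh
    exact h2 hh

theorem pf_H_leaf (hδ : 0 < δ) {m i : ℕ} {s : ℕ → St A} {Φ : (ℕ → N) → ℝ}
    (hΦ : PF σ a0 m s Φ)
    (hs : ((i = 0 ∨ ∃ a, s i = St.lf a) ∧ (s (i + 1)).isCl) ∨
        (1 ≤ i ∧ (s i).isCl ∧ ∃ a, s (i + 1) = St.lf a) ∨
        (∃ a b, a ≠ b ∧ ((i = 0 ∧ a = a0) ∨ (1 ≤ i ∧ s i = St.lf a)) ∧ s (i + 1) = St.lf b)) :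
    PF σ a0 m s ((Op.val (δ • (1 : HA N)) (δ⁻¹ • 1) (gE Γ) (Op.H i)) Φ) := by
  have hone : ∀ h, Dm Γ a0 s h → (∃ a, h (2 * i) = Γ.leaf a) ∨ (∃ a, h (2 * i + 2) = Γ.leaf a) := by
    intro h hd
    rcases hs with ⟨h1, _⟩ | ⟨_, _, a, h1⟩ | ⟨a, b, _, h1, _⟩
    · left
      by_cases hi : i = 0
      · exact ⟨a0, hd.left (Or.inl ⟨hi, rfl⟩)⟩
      · obtain ⟨a, ha⟩ := h1.resolve_left hi
        exact ⟨a, hd.left (Or.inr ⟨by omega, ha⟩)⟩
    · right
      refine ⟨a, ?_⟩
      have := hd.2.2 (i + 1) (by omega) a h1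
      rwa [show 2 * (i + 1) = 2 * i + 2 by ring] at this
    · left
      exact ⟨a, hd.left h1⟩
  refine ⟨fun h hd => ?_, ?_⟩
  · rw [gval_H_leaf hδ.ne' hd.1 (hone h hd)]
    split_ifs
    · rw [mul_zero]
    · exact hΦ.1 h hd
  · rw [gval_H_leaf hδ.ne' (hrf_path s) (hone _ (hrf_dom s)), if_neg]
    · exact hΦ.2
    · have hcl : ∀ j, 1 ≤ j → (s j).isCl → hrf σ a0 s (2 * j) = σ.w := by
        intro j hj hc
        rw [hrf_even s hj]
        rcases hc with h | h <;> rw [h] <;> rfl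
      have hlf : ∀ j a, 1 ≤ j → s j = St.lf a → hrf σ a0 s (2 * j) = Γ.leaf a := by
        intro j a hj hc
        rw [hrf_even s hj, hc]
        rfl
      rcases hs with ⟨h1, h2⟩ | ⟨h0, h1, a, h2⟩ | ⟨a, b, hab, h1, h2⟩
      · have v1 := hcl (i + 1) (by omega) h2
        rw [show 2 * (i + 1) = 2 * i + 2 by ring] at v1
        rw [v1]
        by_cases hi : i = 0
        · subst hi
          rw [Nat.mul_zero, hrf_zero]
          exact fun hh => σ.w_ne a0 hh.symm
        · obtain ⟨a, ha⟩ := h1.resolve_left hi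
          rw [hlf i a (by omega) ha]
          exact fun hh => σ.w_ne a hh.symm
      · have v1 := hlf (i + 1) a (by omega) h2
        rw [show 2 * (i + 1) = 2 * i + 2 by ring] at v1
        rw [v1, hcl i h0 h1]
        exact σ.w_ne a
      · have v1 := hlf (i + 1) b (by omega) h2
        rw [show 2 * (i + 1) = 2 * i + 2 by ring] at v1
        rw [v1]
        have v2 : hrf σ a0 s (2 * i) = Γ.leaf a := (hrf_dom s).left h1
        rw [v2]
        exact fun hh => hab (Γ.leaf_inj hh)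

/-- An edge between sites of opposite classes. -/
theorem pf_H_normal (hδ : 0 < δ) {m i : ℕ} {s : ℕ → St A} {Φ : (ℕ → N) → ℝ}
    (hΦ : PF σ a0 m s Φ) (hi : 1 ≤ i) (him : i + 1 ≤ m)
    (hs1 : (s i).isCl) (hs : s (i + 1) = (s i).opp) :
    PF σ a0 m s ((Op.val (δ • (1 : HA N)) (δ⁻¹ • 1) (gE Γ) (Op.H i)) Φ) := by
  have hsg : sgn (s i) * sgn (s (i + 1)) = -1 := by
    rw [hs, sgn_opp hs1, mul_neg, sgn_mul_self]
  -- formula
  have hval : ∀ h, Dm Γ a0 s h → h (2 * i) = h (2 * i + 2) → ∀ x,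
      Γ.nb (h (2 * i)) = {h (2 * i + 1), x} → x ≠ h (2 * i + 1) →
      (Op.val (δ • (1 : HA N)) (δ⁻¹ • 1) (gE Γ) (Op.H i)) Φ h =
      Γ.S x / (δ * Γ.S (h (2 * i))) * (Φ h - Φ (Function.update h (2 * i + 1) x)) := by
    intro h hd he x hx hne
    have he' : h (2 * i + 1 - 1) = h (2 * i + 1 + 1) := by
      rw [show 2 * i + 1 - 1 = 2 * i by omega]; exact he
    rw [gval_H, gE_pos Γ _ _ hd.1 he', show 2 * i + 1 - 1 = 2 * i by omega]
    have hSa := Γ.pos (h (2 * i))
    have hrec := Γ.eig (h (2 * i))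
    rw [hx, Finset.sum_pair (Ne.symm hne)] at hrec ⊢
    have hself : Function.update h (2 * i + 1) (h (2 * i + 1)) = h := Function.update_eq_self _ _
    rw [hself]
    have hS1 : Γ.S (h (2 * i + 1)) = δ * Γ.S (h (2 * i)) - Γ.S x := by linarith
    rw [hS1]
    field_simp
    ring
  -- sign of the updated term
  have hupd : ∀ h, Dm Γ a0 s h → h (2 * i) = h (2 * i + 2) → ∀ x,
      Γ.nb (h (2 * i)) = {h (2 * i + 1), x} → x ≠ h (2 * i + 1) →
      gg m s h * Φ (Function.update h (2 * i + 1) x) ≤ 0 := by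
    intro h hd he x hx hne
    have hxm : x ∈ Γ.nb (h (2 * i)) := by rw [hx]; simp
    have h1 := hΦ.1 _ (hd.update_face he hxm)
    have h3 := gg_update_odd (Γ := Γ) s hi him hd.1 he (x := x) (by
      intro u hu
      rw [hx, Finset.mem_insert, Finset.mem_singleton] at hu
      exact hu.symm) hne
    rw [hsg] at h3
    have h4 := gg_mul_self m s h
    have h5 : gg m s (Function.update h (2 * i + 1) x) = - gg m s h := by
      calc gg m s (Function.update h (2 * i + 1) x)
          = (gg m s h * gg m s h) * gg m s (Function.update h (2 * i + 1) x) := by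
            rw [h4, one_mul]
        _ = gg m s h * (gg m s h * gg m s (Function.update h (2 * i + 1) x)) := by ring
        _ = - gg m s h := by rw [h3]; ring
    rw [h5] at h1
    linarith
  refine ⟨fun h hd => ?_, ?_⟩
  · by_cases he : h (2 * i) = h (2 * i + 2)
    · by_cases hl : ∀ a, h (2 * i) ≠ Γ.leaf a
      · obtain ⟨y, y', hyy, hnb⟩ := σ.deg _ (Dm.site σ hd i).1 hl
        have hcur : h (2 * i + 1) ∈ Γ.nb (h (2 * i)) := hd.1 (2 * i)
        rw [hnb, Finset.mem_insert, Finset.mem_singleton] at hcur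
        have hex : ∃ x, Γ.nb (h (2 * i)) = {h (2 * i + 1), x} ∧ x ≠ h (2 * i + 1) := by
          rcases hcur with hc | hc
          · exact ⟨y', by rw [hnb, hc], fun hh => hyy (by rw [← hc, hh])⟩
          · exact ⟨y, by rw [hnb, hc, Finset.pair_comm], fun hh => hyy (by rw [hh, hc])⟩
        obtain ⟨x, hx, hne⟩ := hex
        rw [hval h hd he x hx hne]
        have hSa := Γ.pos (h (2 * i))
        have hSx := Γ.pos x
        have h1 := hupd h hd he x hx hne
        have h2 := hΦ.1 h hd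
        have e : gg m s h * (Γ.S x / (δ * Γ.S (h (2 * i))) *
            (Φ h - Φ (Function.update h (2 * i + 1) x))) =
            Γ.S x / (δ * Γ.S (h (2 * i))) * (gg m s h * Φ h -
              gg m s h * Φ (Function.update h (2 * i + 1) x)) := by ring
        rw [e]
        apply mul_nonneg
        · positivity
        · linarith
      · push Not at hl
        rw [gval_H_leaf hδ.ne' hd.1 (Or.inl hl), if_pos he, mul_zero]
    · rw [gval_H, gE_neg, mul_zero, sub_zero]
      · exact hΦ.1 h hd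
      · rintro ⟨_, hh⟩
        rw [show 2 * i + 1 - 1 = 2 * i by omega] at hh
        exact he hh
  · have hd := hrf_dom (σ := σ) (a0 := a0) s
    have hv1 : hrf σ a0 s (2 * i) = σ.w := by
      rw [hrf_even s hi]
      rcases hs1 with h | h <;> rw [h] <;> rfl
    have hv2 : hrf σ a0 s (2 * i + 2) = σ.w := by
      rw [show 2 * i + 2 = 2 * (i + 1) by ring, hrf_even s (by omega), hs]
      rcases hs1 with h | h <;> rw [h] <;> rfl
    have he : hrf σ a0 s (2 * i) = hrf σ a0 s (2 * i + 2) := by rw [hv1, hv2]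
    have hx : Γ.nb (hrf σ a0 s (2 * i)) = {hrf σ a0 s (2 * i + 1), σ.w'} := by
      rw [hv1, hrf_odd, σ.nb_w]
    have hne : σ.w' ≠ hrf σ a0 s (2 * i + 1) := by rw [hrf_odd]; exact σ.zw'.symm
    rw [hval _ hd he _ hx hne]
    have h1 := hupd _ hd he _ hx hne
    rw [gg_hrf, one_mul] at h1
    have h2 := hΦ.2
    have hS3 := Γ.pos (hrf σ a0 s (2 * i))
    have hS4 := Γ.pos σ.w'
    apply mul_pos
    · positivity
    · linarith

/-- A new vertex at a site. -/
theorem pf_D (hδ : 0 < δ) {m i : ℕ} {s : ℕ → St A} {Φ : (ℕ → N) → ℝ} {z : St A}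
    (hvan : ∀ h, Dm Γ a0 s h → ∀ a, z = St.lf a → ∀ x, x ≠ Γ.leaf a →
      Pth Γ (Function.update h (2 * i) x) → Φ (Function.update h (2 * i) x) = 0)
    (hΦ : PF σ a0 m (Function.update s i z) Φ) (hi : 1 ≤ i) (him : i ≤ m) :
    PF σ a0 m s ((Op.val (δ • (1 : HA N)) (δ⁻¹ • 1) (gE Γ) (Op.D i)) Φ) := by
  have key : ∀ h, Dm Γ a0 s h → h (2 * i - 1) = h (2 * i + 1) → ∀ x ∈ Γ.nb (h (2 * i - 1)),
      0 ≤ Γ.S x * (gg m s h * Φ (Function.update h (2 * i) x)) := by
    intro h hd he x hx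
    by_cases hz : ∀ a, z = St.lf a → x = Γ.leaf a
    · have h1 := hΦ.1 _ (hd.update_site hi he hx z hz)
      rw [gg_update_even, gg_status_eq s h hi him z he] at h1
      exact mul_nonneg (Γ.pos x).le h1
    · push Not at hz
      obtain ⟨a, ha, hne⟩ := hz
      rw [hvan h hd a ha x hne (hd.1.update (by omega) he hx), mul_zero, mul_zero]
  have hform : ∀ h, Dm Γ a0 s h → h (2 * i - 1) = h (2 * i + 1) →
      gg m s h * (δ * gE Γ (2 * i) Φ h) =
      δ * ((∑ x ∈ Γ.nb (h (2 * i - 1)), Γ.S x *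
        (gg m s h * Φ (Function.update h (2 * i) x))) / Γ.S (h (2 * i - 1))) := by
    intro h hd he
    rw [gE_pos Γ _ _ hd.1 he]
    have e1 : ∑ x ∈ Γ.nb (h (2 * i - 1)), Γ.S x *
        (gg m s h * Φ (Function.update h (2 * i) x)) =
        gg m s h * ∑ x ∈ Γ.nb (h (2 * i - 1)), Γ.S x * Φ (Function.update h (2 * i) x) := by
      rw [Finset.mul_sum]
      apply Finset.sum_congr rfl
      intro x _
      ring
    rw [e1]
    ring
  refine ⟨fun h hd => ?_, ?_⟩
  · rw [gval_D]
    by_cases he : h (2 * i - 1) = h (2 * i + 1)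
    · rw [hform h hd he]
      exact mul_nonneg hδ.le (div_nonneg (Finset.sum_nonneg (key h hd he)) (Γ.pos _).le)
    · rw [gE_neg, mul_zero, mul_zero]
      rintro ⟨_, hh⟩
      exact he hh
  · rw [gval_D]
    have hd := hrf_dom (σ := σ) (a0 := a0) s
    have hv1 : hrf σ a0 s (2 * i - 1) = Γ.z := hrf_odd' s hi
    have he : hrf σ a0 s (2 * i - 1) = hrf σ a0 s (2 * i + 1) := by rw [hv1, hrf_odd]
    have h5 := hform _ hd he
    rw [gg_hrf, one_mul] at h5
    rw [h5]
    apply mul_pos hδ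
    apply div_pos _ (Γ.pos _)
    apply Finset.sum_pos'
    · intro x hx
      have := key _ hd he x hx
      rwa [gg_hrf] at this
    · refine ⟨ref σ a0 z, by rw [hv1]; exact ref_mem z, ?_⟩
      rw [← hrf_update s hi, one_mul]
      exact mul_pos (Γ.pos _) hΦ.2

/-- A new vertex joined by an edge to the old one. -/
theorem pf_V (hδ : 0 < δ) {m i : ℕ} {s : ℕ → St A} {Φ : (ℕ → N) → ℝ} {z : St A}
    (hz : (z.isCl ∧ ((∃ a, s i = St.lf a) ∨ ((s i).isCl ∧ z = (s i).opp))) ∨
      ∃ a, z = St.lf a ∧ ((∃ b, b ≠ a ∧ s i = St.lf b) ∨ (s i).isCl))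
    (hvan : ∀ h, Dm Γ a0 s h → ∀ a, z = St.lf a → ∀ x, x ≠ Γ.leaf a →
      Pth Γ (Function.update h (2 * i) x) → Φ (Function.update h (2 * i) x) = 0)
    (hΦ : PF σ a0 m (Function.update s i z) Φ) (hi : 1 ≤ i) (him : i ≤ m) :
    PF σ a0 m s ((Op.val (δ • (1 : HA N)) (δ⁻¹ • 1) (gE Γ) (Op.V i)) Φ) := by
  have key : ∀ h, Dm Γ a0 s h → h (2 * i - 1) = h (2 * i + 1) → ∀ x ∈ Γ.nb (h (2 * i - 1)),
      0 ≤ gg m s h * Φ (Function.update h (2 * i) x) := by
    intro h hd he x hx
    by_cases hz : ∀ a, z = St.lf a → x = Γ.leaf a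
    · have h1 := hΦ.1 _ (hd.update_site hi he hx z hz)
      rwa [gg_update_even, gg_status_eq s h hi him z he] at h1
    · push Not at hz
      obtain ⟨a, ha, hne⟩ := hz
      rw [hvan h hd a ha x hne (hd.1.update (by omega) he hx), mul_zero]
  have hcurm : ∀ h, Dm Γ a0 s h → h (2 * i) ∈ Γ.nb (h (2 * i - 1)) := by
    intro h hd
    have := hd.1 (2 * i - 1)
    rwa [show 2 * i - 1 + 1 = 2 * i by omega] at this
  -- formula on configurations with equal faces
  have hform : ∀ h, Dm Γ a0 s h → h (2 * i - 1) = h (2 * i + 1) →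
      gg m s h * (δ * gE Γ (2 * i) Φ h - Φ h) =
      (δ * Γ.S (h (2 * i)) - Γ.S (h (2 * i - 1))) / Γ.S (h (2 * i - 1)) *
        (gg m s h * Φ h) +
      δ * ((∑ x ∈ (Γ.nb (h (2 * i - 1))).erase (h (2 * i)), Γ.S x *
        (gg m s h * Φ (Function.update h (2 * i) x))) / Γ.S (h (2 * i - 1))) := by
    intro h hd he
    have hS := Γ.pos (h (2 * i - 1))
    rw [gE_pos Γ _ _ hd.1 he, ← Finset.add_sum_erase _ _ (hcurm h hd), Function.update_eq_self]
    have e1 : ∑ x ∈ (Γ.nb (h (2 * i - 1))).erase (h (2 * i)), Γ.S x *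
        (gg m s h * Φ (Function.update h (2 * i) x)) =
        gg m s h * ∑ x ∈ (Γ.nb (h (2 * i - 1))).erase (h (2 * i)),
          Γ.S x * Φ (Function.update h (2 * i) x) := by
      rw [Finset.mul_sum]
      apply Finset.sum_congr rfl
      intro x _
      ring
    rw [e1]
    field_simp
    ring
  have hcoef : ∀ h, Dm Γ a0 s h → 0 ≤ δ * Γ.S (h (2 * i)) - Γ.S (h (2 * i - 1)) := by
    intro h hd
    have h1 := Γ.symm _ _ (hcurm h hd)
    rw [← Γ.eig, ← Finset.add_sum_erase _ _ h1]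
    have : 0 ≤ ∑ x ∈ (Γ.nb (h (2 * i))).erase (h (2 * i - 1)), Γ.S x :=
      Finset.sum_nonneg (fun x _ => (Γ.pos x).le)
    linarith
  refine ⟨fun h hd => ?_, ?_⟩
  · rw [gval_V]
    by_cases he : h (2 * i - 1) = h (2 * i + 1)
    · rw [hform h hd he]
      have hSb := Γ.pos (h (2 * i - 1))
      have k1 := key h hd he (h (2 * i)) (hcurm h hd)
      rw [Function.update_eq_self] at k1
      apply add_nonneg
      · exact mul_nonneg (div_nonneg (hcoef h hd) hSb.le) k1
      · apply mul_nonneg hδ.le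
        apply div_nonneg _ hSb.le
        apply Finset.sum_nonneg
        intro x hx
        exact mul_nonneg (Γ.pos x).le (key h hd he x (Finset.mem_of_mem_erase hx))
    · rw [gE_neg, mul_zero, zero_sub]
      · -- the site is not a leaf
        have hnl : ∀ a, h (2 * i) ≠ Γ.leaf a := by
          intro a ha
          apply he
          have f1 : h (2 * i + 1) = Γ.z := hd.1.z_right ha
          have f2 : h (2 * i - 1) = Γ.z := by
            apply hd.1.z_left (a := a)
            rw [show 2 * i - 1 + 1 = 2 * i by omega]; exact ha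
          rw [f1, f2]
        rcases hz with ⟨hz1, hz2⟩ | ⟨a, hz1, _⟩
        · rcases hz2 with ⟨b, hb⟩ | ⟨hcl, hopp⟩
          · exact absurd (hd.2.2 i hi b hb) (hnl b)
          · have hd' : Dm Γ a0 (Function.update s i z) h := hd.status z (fun a ha => by
              rcases hz1 with h1 | h1 <;> rw [h1] at ha <;> cases ha)
            have h1 := hΦ.1 h hd'
            have h3 := gg_status s h hi him z
            rw [if_neg he, hopp, sgn_opp hcl, mul_neg, sgn_mul_self] at h3
            have h4 := gg_mul_self m s h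
            have h5 : gg m (Function.update s i z) h = - gg m s h := by
              rw [hopp]
              calc gg m (Function.update s i (s i).opp) h
                  = (gg m s h * gg m s h) * gg m (Function.update s i (s i).opp) h := by
                    rw [h4, one_mul]
                _ = gg m s h * (gg m s h * gg m (Function.update s i (s i).opp) h) := by ring
                _ = - gg m s h := by rw [h3]; ring
            rw [h5] at h1
            linarith
        · have h1 := hvan h hd a hz1 (h (2 * i)) (hnl a) (by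
            rw [Function.update_eq_self]; exact hd.1)
          rw [Function.update_eq_self] at h1
          rw [h1]; simp
      · rintro ⟨_, hh⟩
        exact he hh
  · rw [gval_V]
    have hd := hrf_dom (σ := σ) (a0 := a0) s
    have hv1 : hrf σ a0 s (2 * i - 1) = Γ.z := hrf_odd' s hi
    have he : hrf σ a0 s (2 * i - 1) = hrf σ a0 s (2 * i + 1) := by rw [hv1, hrf_odd]
    have h5 := hform _ hd he
    rw [gg_hrf, one_mul, one_mul] at h5
    rw [h5]
    have hSb := Γ.pos (hrf σ a0 s (2 * i - 1))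
    have k1 := key _ hd he (hrf σ a0 s (2 * i)) (hcurm _ hd)
    rw [Function.update_eq_self, gg_hrf, one_mul] at k1
    have t1 : 0 ≤ (δ * Γ.S (hrf σ a0 s (2 * i)) - Γ.S (hrf σ a0 s (2 * i - 1))) /
        Γ.S (hrf σ a0 s (2 * i - 1)) * Φ (hrf σ a0 s) :=
      mul_nonneg (div_nonneg (hcoef _ hd) hSb.le) k1
    have t2 : ∀ x ∈ (Γ.nb (hrf σ a0 s (2 * i - 1))).erase (hrf σ a0 s (2 * i)),
        0 ≤ Γ.S x * (1 * Φ (Function.update (hrf σ a0 s) (2 * i) x)) := by
      intro x hx
      have := key _ hd he x (Finset.mem_of_mem_erase hx)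
      rw [gg_hrf] at this
      exact mul_nonneg (Γ.pos x).le this
    by_cases hsame : ref σ a0 z = hrf σ a0 s (2 * i)
    · -- both are the inner neighbour
      have hpos : 0 < Φ (hrf σ a0 s) := by
        have := hΦ.2
        rwa [hrf_update s hi, hsame, Function.update_eq_self] at this
      have hw : hrf σ a0 s (2 * i) = σ.w := by
        rcases hz with ⟨hz1, _⟩ | ⟨a, hz1, hz2⟩
        · rw [← hsame]
          rcases hz1 with h | h <;> rw [h] <;> rfl
        · rw [hz1] at hsame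
          rw [hrf_even s hi] at hsame ⊢
          rcases hz2 with ⟨b, hb, hsb⟩ | hcl
          · rw [hsb] at hsame
            exact absurd (Γ.leaf_inj hsame).symm hb
          · rcases hcl with h | h <;> rw [h] <;> rfl
      apply add_pos_of_pos_of_nonneg
      · apply mul_pos _ hpos
        apply div_pos _ hSb
        rw [hw, hv1, ← Γ.eig, σ.nb_w, Finset.sum_pair σ.zw']
        have := Γ.pos σ.w'
        linarith
      · exact mul_nonneg hδ.le (div_nonneg (Finset.sum_nonneg t2) hSb.le)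
    · apply add_pos_of_nonneg_of_pos t1
      apply mul_pos hδ
      apply div_pos _ hSb
      apply Finset.sum_pos' t2
      refine ⟨ref σ a0 z, Finset.mem_erase.2 ⟨hsame, by rw [hv1]; exact ref_mem z⟩, ?_⟩
      rw [← hrf_update s hi, one_mul]
      exact mul_pos (Γ.pos _) hΦ.2

/-- A pin is the identity on pinned sites. -/
theorem pf_pin {m p : ℕ} {a : A} {s : ℕ → St A} {Φ : (ℕ → N) → ℝ}
    (hΦ : PF σ a0 m s Φ) (hs : s (p + 1) = St.lf a) :
    PF σ a0 m s (hP (2 * (p + 1)) (Γ.leaf a) Φ) := by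
  refine ⟨fun h hd => ?_, ?_⟩
  · rw [hP_apply, if_pos (hd.2.2 (p + 1) (by omega) a hs)]
    exact hΦ.1 h hd
  · rw [hP_apply, if_pos ((hrf_dom s).2.2 (p + 1) (by omega) a hs)]
    exact hΦ.2

/-- The support relation is satisfied where the evaluation does not vanish. -/
theorem sup_of_ne : ∀ (ops : List (Opx A)) (R : ℕ → Prop), RV ops R →
    ∀ (Φ : (ℕ → N) → ℝ) (h : ℕ → N), Pth Γ h →
    hWx Γ ops Φ h ≠ 0 → Sup Γ.leaf ops (fun l => h (2 * l))
  | [], _, _, _, _, _, _ => trivial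
  | (.op (.J i) :: ops), R, hv, Φ, h, hp, hne => by
    rw [hWx_cons] at hne
    simp only [hvalx] at hne
    rw [gval_J] at hne
    have h1 : gE Γ (2 * i + 1) (hWx Γ ops Φ) h ≠ 0 := right_ne_zero_of_mul hne
    have he : h (2 * i + 1 - 1) = h (2 * i + 1 + 1) := by
      by_contra hcon
      exact h1 (gE_neg Γ _ _ (fun hh => hcon hh.2))
    rw [gE_pos Γ _ _ hp he] at h1
    have h2 := (div_ne_zero_iff.1 h1).1
    obtain ⟨x, hx, hxne⟩ := Finset.exists_ne_zero_of_sum_ne_zero h2
    have h3 := sup_of_ne ops _ hv Φ _ (hp.update (by omega) he hx) (right_ne_zero_of_mul hxne)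
    refine ⟨?_, ?_⟩
    · rw [show 2 * i + 1 - 1 = 2 * i by omega] at he
      show h (2 * i) = h (2 * (i + 1))
      rw [he]
      congr 1
    · convert h3 using 1
      funext l
      rw [Function.update_of_ne (by omega)]
  | (.op (.H i) :: ops), R, hv, Φ, h, hp, hne => by
    rw [hWx_cons] at hne
    simp only [hvalx] at hne
    rw [gval_H] at hne
    show Sup Γ.leaf ops (fun l => h (2 * l))
    by_cases h0 : hWx Γ ops Φ h ≠ 0
    · exact sup_of_ne ops _ hv Φ h hp h0
    · push Not at h0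
      rw [h0, zero_sub, neg_ne_zero] at hne
      have h1 : gE Γ (2 * i + 1) (hWx Γ ops Φ) h ≠ 0 := right_ne_zero_of_mul hne
      have he : h (2 * i + 1 - 1) = h (2 * i + 1 + 1) := by
        by_contra hcon
        exact h1 (gE_neg Γ _ _ (fun hh => hcon hh.2))
      rw [gE_pos Γ _ _ hp he] at h1
      have h2 := (div_ne_zero_iff.1 h1).1
      obtain ⟨x, hx, hxne⟩ := Finset.exists_ne_zero_of_sum_ne_zero h2
      have h3 := sup_of_ne ops _ hv Φ _ (hp.update (by omega) he hx) (right_ne_zero_of_mul hxne)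
      convert h3 using 1
      funext l
      rw [Function.update_of_ne (by omega)]
  | (.op (.D i) :: ops), R, hv, Φ, h, hp, hne => by
    have hi := hv.1
    rw [hWx_cons] at hne
    simp only [hvalx] at hne
    rw [gval_D] at hne
    have h1 : gE Γ (2 * i) (hWx Γ ops Φ) h ≠ 0 := right_ne_zero_of_mul hne
    have he : h (2 * i - 1) = h (2 * i + 1) := by
      by_contra hcon
      exact h1 (gE_neg Γ _ _ (fun hh => hcon hh.2))
    rw [gE_pos Γ _ _ hp he] at h1
    have h2 := (div_ne_zero_iff.1 h1).1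
    obtain ⟨x, hx, hxne⟩ := Finset.exists_ne_zero_of_sum_ne_zero h2
    have h3 := sup_of_ne ops _ hv.2 Φ _ (hp.update (by omega) he hx) (right_ne_zero_of_mul hxne)
    refine ⟨x, ?_⟩
    convert h3 using 1
    funext l
    by_cases hl : l = i
    · subst hl; rw [Function.update_self, Function.update_self]
    · rw [Function.update_of_ne hl, Function.update_of_ne (by omega)]
  | (.op (.V i) :: ops), R, hv, Φ, h, hp, hne => by
    have hi := hv.1
    rw [hWx_cons] at hne
    simp only [hvalx] at hne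
    rw [gval_V] at hne
    by_cases h0 : hWx Γ ops Φ h ≠ 0
    · refine ⟨h (2 * i), ?_⟩
      have h3 := sup_of_ne ops _ hv.2 Φ h hp h0
      rwa [Function.update_eq_self_iff.2 rfl]
    · push Not at h0
      rw [h0, sub_zero] at hne
      have h1 : gE Γ (2 * i) (hWx Γ ops Φ) h ≠ 0 := right_ne_zero_of_mul hne
      have he : h (2 * i - 1) = h (2 * i + 1) := by
        by_contra hcon
        exact h1 (gE_neg Γ _ _ (fun hh => hcon hh.2))
      rw [gE_pos Γ _ _ hp he] at h1
      have h2 := (div_ne_zero_iff.1 h1).1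
      obtain ⟨x, hx, hxne⟩ := Finset.exists_ne_zero_of_sum_ne_zero h2
      have h3 := sup_of_ne ops _ hv.2 Φ _ (hp.update (by omega) he hx)
        (right_ne_zero_of_mul hxne)
      refine ⟨x, ?_⟩
      convert h3 using 1
      funext l
      by_cases hl : l = i
      · subst hl; rw [Function.update_self, Function.update_self]
      · rw [Function.update_of_ne hl, Function.update_of_ne (by omega)]
  | (.pin p a :: ops), R, hv, Φ, h, hp, hne => by
    rw [hWx_cons] at hne
    simp only [hvalx, hP_apply] at hne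
    have h1 : h (2 * (p + 1)) = Γ.leaf a := by
      by_contra hcon
      rw [if_neg hcon] at hne
      exact hne rfl
    rw [if_pos h1] at hne
    exact ⟨h1, sup_of_ne ops _ hv.2 Φ h hp hne⟩

/-- A forced pinned site: the evaluation vanishes at all other values. -/
theorem van_of_force {ops : List (Opx A)} {R : ℕ → Prop} (hv : RV ops R) {s : ℕ → St A} {i : ℕ}
    (hi : 1 ≤ i) {a : A} (hF : Force Γ.leaf a0 ops s i a) (Φ : (ℕ → N) → ℝ) :
    ∀ h, Dm Γ a0 s h → ∀ b, (St.lf a : St A) = St.lf b → ∀ x, x ≠ Γ.leaf b →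
      Pth Γ (Function.update h (2 * i) x) → hWx Γ ops Φ (Function.update h (2 * i) x) = 0 := by
  intro h hd b hb x hx hp
  cases hb
  by_contra hne
  apply hx
  have h1 := sup_of_ne ops R hv Φ _ hp hne
  have h2 := hF _ (by
    show Function.update h (2 * i) x (2 * 0) = _
    rw [Function.update_of_ne (by omega), Nat.mul_zero]
    exact hd.2.1) (fun l b hl1 hl2 hl3 => by
    show Function.update h (2 * i) x (2 * l) = _
    rw [Function.update_of_ne (by omega)]
    exact hd.2.2 l hl1 b hl3) h1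
  have h3 : Function.update h (2 * i) x (2 * i) = Γ.leaf a := h2
  rwa [Function.update_self] at h3

/-- Positivity is propagated by valid lists of operations. -/
theorem pf_ops (hδ : 0 < δ) {m : ℕ} {Φ : (ℕ → N) → ℝ}
    (hΦ : ∀ s, PF σ a0 m s Φ) : ∀ (ops : List (Opx A)) (R : ℕ → Prop) (s : ℕ → St A),
      RV ops R → Vd Γ.leaf a0 m ops s → PF σ a0 m s (hWx Γ ops Φ)
  | [], R, s, _, _ => by
    have : hWx Γ ([] : List (Opx A)) Φ = Φ := hWx_nil Γ Φ
    rw [this]
    exact hΦ s
  | (.op (.J i) :: ops), R, s, hv, hd => by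
    rw [hWx_cons]
    obtain ⟨him, ⟨hi, hs, hs1, hv'⟩ | ⟨hi, ⟨a, hs, hs1⟩, hv'⟩ | ⟨hi, hs, hv'⟩⟩ := hd
    · exact pf_J_normal hδ (pf_ops hδ hΦ ops _ s hv hv') hi him hs hs1
    · exact pf_J_pinned hδ (pf_ops hδ hΦ ops _ s hv hv') hi hs hs1
    · exact pf_J_attach hδ (pf_ops hδ hΦ ops _ _ hv hv') him hi hs
  | (.op (.H i) :: ops), R, s, hv, hd => by
    rw [hWx_cons]
    obtain ⟨him, hv', h1 | h1 | h1 | ⟨h1, h2, h3⟩⟩ := hd
    · exact pf_H_leaf hδ (pf_ops hδ hΦ ops _ s hv hv') (Or.inl h1)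
    · exact pf_H_leaf hδ (pf_ops hδ hΦ ops _ s hv hv') (Or.inr (Or.inl h1))
    · exact pf_H_leaf hδ (pf_ops hδ hΦ ops _ s hv hv') (Or.inr (Or.inr h1))
    · exact pf_H_normal hδ (pf_ops hδ hΦ ops _ s hv hv') h1 him h2 h3
  | (.op (.D i) :: ops), R, s, hv, hd => by
    rw [hWx_cons]
    obtain ⟨hi, him, ⟨z, hz, hv'⟩ | ⟨a, hF, hv'⟩⟩ := hd
    · refine pf_D hδ ?_ (pf_ops hδ hΦ ops _ _ hv.2 hv') hi him
      intro h _ a ha
      rcases hz with (hz | hz) | hz <;> rw [hz] at ha <;> cases ha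
    · exact pf_D hδ (van_of_force hv.2 hi hF Φ) (pf_ops hδ hΦ ops _ _ hv.2 hv') hi him
  | (.op (.V i) :: ops), R, s, hv, hd => by
    rw [hWx_cons]
    obtain ⟨hi, him, ⟨z, hz, hsz, hv'⟩ | ⟨a, hs, hF, hv'⟩⟩ := hd
    · refine pf_V hδ (Or.inl ⟨hz, hsz⟩) ?_ (pf_ops hδ hΦ ops _ _ hv.2 hv') hi him
      intro h _ a ha
      rcases hz with hz | hz <;> rw [hz] at ha <;> cases ha
    · exact pf_V hδ (Or.inr ⟨a, rfl, hs⟩) (van_of_force hv.2 hi hF Φ)
        (pf_ops hδ hΦ ops _ _ hv.2 hv') hi him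
  | (.pin p a :: ops), R, s, hv, hd => by
    rw [hWx_cons]
    obtain ⟨_, hs, hv'⟩ := hd
    exact pf_pin (pf_ops hδ hΦ ops _ s hv.2 hv') hs

/-- The projector applied to the constant function one. -/
theorem TLX_one' : ∀ (j : ℕ) (h : ℕ → N), Pth Γ h →
    0 ≤ TLX (gE Γ) (2 * j) (fun _ => 1) h ∧
    ((∀ i, 1 ≤ i → i ≤ j → h (2 * i - 1) = h (2 * i + 1)) →
      0 < TLX (gE Γ) (2 * j) (fun _ => 1) h) ∧
    ((∃ i, 1 ≤ i ∧ i ≤ j ∧ h (2 * i - 1) ≠ h (2 * i + 1)) →
      TLX (gE Γ) (2 * j) (fun _ => 1) h = 0)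
  | 0, h, _ => by
    have : TLX (gE Γ) (2 * 0) (fun _ => 1) h = 1 := by simp [TLX]
    rw [this]
    refine ⟨zero_le_one, fun _ => one_pos, ?_⟩
    rintro ⟨i, h1, h2, _⟩
    omega
  | (j + 1), h, hp => by
    have IH := TLX_one' j
    have hX : TLX (gE Γ) (2 * (j + 1)) = gE Γ (2 * j + 2) * TLX (gE Γ) (2 * j) := rfl
    rw [hX]
    have hap : (gE Γ (2 * j + 2) * TLX (gE Γ) (2 * j)) (fun _ => (1 : ℝ)) h =
        gE Γ (2 * j + 2) (TLX (gE Γ) (2 * j) (fun _ => 1)) h := rfl
    rw [hap]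
    have hodd : ∀ (x : N) i, (Function.update h (2 * j + 2) x) (2 * i - 1) = h (2 * i - 1) := by
      intro x i
      by_cases hi : i = 0
      · subst hi
        rw [Function.update_of_ne (by omega)]
      · rw [Function.update_of_ne (by omega)]
    have hodd' : ∀ (x : N) i, (Function.update h (2 * j + 2) x) (2 * i + 1) = h (2 * i + 1) := by
      intro x i
      rw [Function.update_of_ne (by omega)]
    by_cases he : h (2 * j + 2 - 1) = h (2 * j + 2 + 1)
    · rw [gE_pos Γ _ _ hp he]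
      have hSb := Γ.pos (h (2 * j + 2 - 1))
      have hpath : ∀ x ∈ Γ.nb (h (2 * j + 2 - 1)), Pth Γ (Function.update h (2 * j + 2) x) :=
        fun x hx => hp.update (by omega) he hx
      have hcur : h (2 * j + 2) ∈ Γ.nb (h (2 * j + 2 - 1)) := hp (2 * j + 1)
      refine ⟨?_, fun hall => ?_, ?_⟩
      · apply div_nonneg _ hSb.le
        exact Finset.sum_nonneg (fun x hx => mul_nonneg (Γ.pos x).le (IH _ (hpath x hx)).1)
      · apply div_pos _ hSb
        apply Finset.sum_pos'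
        · exact fun x hx => mul_nonneg (Γ.pos x).le (IH _ (hpath x hx)).1
        · refine ⟨h (2 * j + 2), hcur, mul_pos (Γ.pos _) ?_⟩
          apply (IH _ (hpath _ hcur)).2.1
          intro i h1 h2
          rw [hodd, hodd']; exact hall i h1 (by omega)
      · rintro ⟨i, h1, h2, h3⟩
        have hij : i ≤ j := by
          by_contra hcon
          have : i = j + 1 := by omega
          subst this
          exact h3 he
        rw [Finset.sum_eq_zero, zero_div]
        intro x hx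
        rw [(IH _ (hpath x hx)).2.2 ⟨i, h1, hij, by rw [hodd, hodd']; exact h3⟩, mul_zero]
    · rw [gE_neg]
      · refine ⟨le_rfl, fun hall => ?_, fun _ => rfl⟩
        exact absurd (hall (j + 1) (by omega) le_rfl) he
      · rintro ⟨_, hh⟩
        exact he hh

theorem pf_base (m : ℕ) (s : ℕ → St A) :
    PF σ a0 m s (TLX (gE Γ) (2 * m) (fun _ => 1)) := by
  refine ⟨fun h hd => ?_, ?_⟩
  · obtain ⟨h1, _, h3⟩ := TLX_one' m h hd.1
    by_cases hc : ∃ i, 1 ≤ i ∧ i ≤ m ∧ h (2 * i - 1) ≠ h (2 * i + 1)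
    · rw [h3 hc, mul_zero]
    · have : gg m s h = 1 := by
        unfold gg
        apply Finset.prod_eq_one
        intro i hi
        rw [Finset.mem_Icc] at hi
        rw [if_pos]
        by_contra hne
        exact hc ⟨i, hi.1, hi.2, hne⟩
      rw [this, one_mul]
      exact h1
  · exact (TLX_one' m _ (hrf_path s)).2.1 (fun i h1 _ => by
      rw [hrf_odd' s h1, hrf_odd])

/-- The projector preserves positivity at reference configurations. -/
theorem pf_X (hδ : 0 < δ) {m : ℕ} : ∀ (j : ℕ), j ≤ m → ∀ (Φ : (ℕ → N) → ℝ)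
    (s : ℕ → St A), (∀ i, 1 ≤ i → i ≤ j → (s i).isCl ∨ s i = St.new) → PF σ a0 m s Φ →
    ∀ s' : ℕ → St A, (∀ i, (1 ≤ i ∧ i ≤ j) ∨ s' i = s i) →
      PF σ a0 m s' (TLX (gE Γ) (2 * j) Φ)
  | 0, _, Φ, s, _, hΦ, s', hs' => by
    have hX : TLX (gE Γ) (2 * 0) Φ = Φ := by simp [TLX]
    have : s' = s := by
      funext i
      rcases hs' i with h | h
      · omega
      · exact h
    rw [hX, this]
    exact hΦ
  | (j + 1), hj, Φ, s, hs, hΦ, s', hs' => by
    have hX : TLX (gE Γ) (2 * (j + 1)) Φ = gE Γ (2 * (j + 1)) (TLX (gE Γ) (2 * j) Φ) := rfl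
    have IH := pf_X hδ j (by omega) Φ s (fun i h1 h2 => hs i h1 (by omega)) hΦ
      (Function.update s' (j + 1) (s (j + 1))) (fun i => by
        by_cases hij : i = j + 1
        · right; rw [hij, Function.update_self]
        · rw [Function.update_of_ne hij]
          rcases hs' i with h | h
          · left; omega
          · right; exact h)
    have hz : (s (j + 1)).isCl ∨ s (j + 1) = St.new := hs (j + 1) (by omega) le_rfl
    have h2 := pf_D hδ (s := s') (z := s (j + 1)) (by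
      intro h _ a ha
      rcases hz with (hz | hz) | hz <;> rw [hz] at ha <;> cases ha) IH (by omega) hj
    rw [hX]
    refine ⟨fun h hd => ?_, ?_⟩
    · have h3 := h2.1 h hd
      rw [gval_D] at h3
      have h4 : 0 ≤ δ * (gg m s' h * gE Γ (2 * (j + 1)) (TLX (gE Γ) (2 * j) Φ) h) := by
        calc (0 : ℝ) ≤ gg m s' h * (δ * gE Γ (2 * (j + 1)) (TLX (gE Γ) (2 * j) Φ) h) := h3
          _ = _ := by ring
      exact nonneg_of_mul_nonneg_right h4 hδ
    · have h3 := h2.2
      rw [gval_D] at h3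
      exact (pos_iff_pos_of_mul_pos h3).1 hδ

/-- Positivity of the evaluation of a valid network in the height representation. -/
theorem height_posx (σ : HGs Γ) (hδ : 0 < δ) {m : ℕ} {ops : List (Opx A)}
    (hR : RV ops (fun l => l = 0)) (hv : Vd Γ.leaf a0 m ops (fun _ => St.new))
    {K : ℕ} {c : ℝ}
    (hc : ∀ g : ℕ → N, Pth Γ g → g 0 = Γ.leaf a0 →
      δ ^ K * TLX (gE Γ) (2 * m) (hWx Γ ops (TLX (gE Γ) (2 * m) (fun _ => 1))) g =
        c * TLX (gE Γ) (2 * m) (fun _ => 1) g) : 0 < c := by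
  have h1 := pf_ops (σ := σ) (a0 := a0) hδ (fun s => pf_base m s) ops _ _ hR hv
  have h2 := pf_X hδ m le_rfl _ _ (fun i _ _ => Or.inr rfl) h1 (fun _ => St.new)
    (fun i => Or.inr rfl)
  have h3 := hc (hrf σ a0 (fun _ => St.new)) (hrf_path _) (hrf_zero _)
  have h7 := h2.2
  have h8 := (pf_base (σ := σ) (a0 := a0) m (fun _ => St.new)).2
  have h9 : 0 < δ ^ K * TLX (gE Γ) (2 * m) (hWx Γ ops (TLX (gE Γ) (2 * m) (fun _ => 1)))
      (hrf σ a0 (fun _ => St.new)) := mul_pos (pow_pos hδ K) h7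
  rw [h3] at h9
  exact (pos_iff_pos_of_mul_pos h9).2 h8

end

end Pool.Agent.Helper35.DInf
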