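import Mathlib
import Pool.Agent.Helper35.DInf.Leaf
import Pool.Agent.Helper35.DInf.Pos

/-!
The half line with leaves has sites of degree at most two.
-/

set_option autoImplicit false

namespace Pool.Agent.Helper35.DInf

variable (A : Type) [Fintype A] [DecidableEq A]

/-- The site nodes of the half line with leaves: the leaves and the odd nodes. -/
def leafSite : A ⊕ ℕ → Prop
  | Sum.inl _ => True
  | Sum.inr k => k % 2 = 1

/-- The site structure of the half line with leaves. -/
noncomputable def leafHGs {δ : ℝ} (hδ : 2 ≤ δ) (hn : 2 ≤ Fintype.card A)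
    (hq : (Fintype.card A : ℝ) + 1 + 1 / ((Fintype.card A : ℝ) - 1) ≤ δ ^ 2) :
    HGs (leafHG A hδ hn hq) where
  site := leafSite A
  site_leaf _ := trivial
  flip x y h := by
    change y ∈ leafNb A x at h
    rcases x with a | (_ | k)
    · rw [leafNb, Finset.mem_singleton] at h
      subst h
      simp [leafSite]
    · rw [leafNb, Finset.mem_insert] at h
      rcases h with h | h
      · subst h
        simp [leafSite]
      · rw [Finset.mem_map] at h
        obtain ⟨a, _, rfl⟩ := h
        simp [leafSite]
    · rw [leafNb, Finset.mem_insert, Finset.mem_singleton] at h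
      rcases h with h | h
      · subst h
        simp only [leafSite]
        omega
      · subst h
        simp only [leafSite]
        omega
  deg x hx hne := by
    rcases x with a | (_ | k)
    · exact absurd rfl (hne a)
    · simp [leafSite] at hx
    · exact ⟨Sum.inr k, Sum.inr (k + 2), by simp, rfl⟩
  w := Sum.inr 1
  w' := Sum.inr 2
  w_mem := by
    show Sum.inr 1 ∈ leafNb A (Sum.inr 0)
    simp [leafNb]
  w_ne a := by
    show Sum.inr 1 ≠ Sum.inl a
    simp
  zw' := by
    show (Sum.inr 0 : A ⊕ ℕ) ≠ Sum.inr 2
    simp
  nb_w := rfl

end Pool.Agent.Helper35.DInf
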