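import Mathlib
import Pool.Agent.Helper35.DInf.LeafSite

/-!
Positivity of the polynomial that counts the colourings with prescribed colours of the pinned
vertices, from a grid model with a valid word.
-/

set_option autoImplicit false

namespace Pool.Agent.Helper35.DInf

open Pool.Agent.Helper70.BLB Polynomial

theorem dn_inj (A : Type) [Fintype A] [DecidableEq A] : Function.Injective (dn A) := by
  intro a b h
  have := congrArg (fun x => x ^ 2) h
  simp only [dn_sq] at this
  have h2 : (a : ℝ) = b := by linarith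
  exact_mod_cast h2

theorem four_le {n q : ℝ} (hn : 2 ≤ n) (hq : n + 1 + 1 / (n - 1) ≤ q) : 4 ≤ q := by
  have h1 : 0 < n - 1 := by linarith
  have h2 : 2 ≤ (n - 1) + 1 / (n - 1) := by
    have h3 : (n - 1) * (1 / (n - 1)) = 1 := by field_simp
    have h4 : 0 < 1 / (n - 1) := by positivity
    nlinarith [sq_nonneg ((n - 1) - 1 / (n - 1))]
  linarith

/-- Positivity from a grid model. -/
theorem grid_posx {V A : Type} [Fintype A] [DecidableEq A] {G : SimpleGraph V} {r : V} {k T : ℕ}
    {L : ℕ → ℕ → Option V} (M : GridModel G r k T L) (hT : 1 ≤ T) {a0 : A}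
    {π : V → Option A} (hr : π r = some a0)
    (hcon : ∀ v, v ≠ r → π v ≠ none → ∃ i j, L i j = some v ∧ (i = 1 ∨ j = 1 ∨ j = T))
    (hA : 2 ≤ Fintype.card A)
    (hval : Vd (Sum.inl : A → A ⊕ ℕ) a0 (k + 1) (allx G π L r k T) (fun _ => St.new))
    {q : ℝ} (hq : (Fintype.card A : ℝ) + 1 + 1 / ((Fintype.card A : ℝ) - 1) ≤ q)
    (p : ℝ[X])
    (hp : ∀ n : ℕ, p.eval ((Fintype.card A : ℝ) + n) =
      (Nat.card {F : G.Coloring (A ⊕ Fin n) // ∀ v a, π v = some a → F v = Sum.inl a} : ℝ)) :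
    0 < p.eval q := by
  classical
  have hA' : (2 : ℝ) ≤ Fintype.card A := by exact_mod_cast hA
  have hne : Nonempty A := Fintype.card_pos_iff.1 (by omega)
  have hq4 : 4 ≤ q := four_le hA' hq
  set δ : ℝ := Real.sqrt q with hδdef
  have hδ : 2 ≤ δ := by
    rw [hδdef]
    apply Real.le_sqrt_of_sq_le
    linarith
  have hδ2 : δ ^ 2 = q := by
    rw [hδdef]
    exact Real.sq_sqrt (by linarith)
  have hδ0 : 0 < δ := by linarith
  have hqδ : (Fintype.card A : ℝ) + 1 + 1 / ((Fintype.card A : ℝ) - 1) ≤ δ ^ 2 := by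
    rw [hδ2]; exact hq
  have hRV := RV_allx (G := G) π L r k T
  have hok := expand_ok a0 (allx G π L r k T) (allx_ok (G := G) π L r k T)
  obtain ⟨Q, K, hcol, hhe⟩ := transferU hδ0.ne' (leafHG A hδ hA hqδ) a0 (k + 1) _ hok
  have hQ : 0 < Q.eval δ :=
    height_posx (leafHGs A hδ hA hqδ) hδ0 hRV hval
      (fun g hg hg0 => height_evalx hδ0.ne' (leafHG A hδ hA hqδ) hRV hhe g hg hg0)
  set a : ℕ := Fintype.card (NonePt k T L) with ha
  have key : (X ^ (K + 2 * a) * p.comp (X ^ 2) : ℝ[X]) = Q * X ^ (k + 1) := by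
    apply Polynomial.eq_of_infinite_eval_eq
    apply Set.Infinite.mono _ (Set.infinite_range_of_injective (dn_inj A))
    rintro _ ⟨n, rfl⟩
    show eval (dn A n) (X ^ (K + 2 * a) * p.comp (X ^ 2)) = eval (dn A n) (Q * X ^ (k + 1))
    have h2 := color_evalx (C := Cn A n) (ι := Sum.inl) (a0 := a0) (dn_pos n) (dn_card n)
      hRV (hcol n) (fun _ => Sum.inl a0) rfl
    rw [count_allx (ι := (Sum.inl : A → Cn A n)) (π := π) hT M.frame,
      sum_countx (Sum.inl : A → Cn A n) π M hr hcon, ← dn_card, ← hp n] at h2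
    rw [eval_mul, eval_mul, eval_comp, eval_pow, eval_pow, eval_pow, eval_X, dn_sq, pow_add,
      pow_mul, dn_sq]
    rw [dn_sq] at h2
    linear_combination h2
  have h6 := congrArg (fun P : ℝ[X] => P.eval δ) key
  simp only [eval_mul, eval_pow, eval_X, eval_comp, hδ2] at h6
  have h7 : 0 < δ ^ (K + 2 * a) * p.eval q := by
    rw [h6]; positivity
  exact (pos_iff_pos_of_mul_pos h7).1 (by positivity)

end Pool.Agent.Helper35.DInf
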