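import Mathlib
import Pool.Agent.Helper35.DInf.VDef
import Pool.Agent.Helper70.BLB.Contact

/-!
Validity of the word of a labelled grid with pins.
-/

set_option autoImplicit false
set_option linter.unusedSectionVars false
set_option linter.unusedVariables false

namespace Pool.Agent.Helper35.DInf

open Pool.Agent.Helper70.BLB

variable {V A W : Type}

/-- Status of a label. -/
def stl (π : V → Option A) (cl : V → St A) : Option V → St A
  | none => St.pos
  | some v => match π v with
    | some a => St.lf a
    | none => cl v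

theorem lp_some (π : V → Option A) (v : V) : lp π (some v) = π v := rfl

theorem stl_pin {π : V → Option A} {cl : V → St A} {l : Option V} {a : A} (h : lp π l = some a) :
    stl π cl l = St.lf a := by
  cases l with
  | none => cases h
  | some v =>
    rw [lp_some] at h
    unfold stl
    simp only [h]

theorem stl_cl {G : SimpleGraph V} {r : V} {a0 : A} {π : V → Option A} {cl : V → St A}
    (hC : ClsP G r a0 π cl) {l : Option V} (h : lp π l = none) : (stl π cl l).isCl := by
  cases l with
  | none => exact Or.inl rfl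
  | some v =>
    rw [lp_some] at h
    unfold stl
    simp only [h]
    exact hC.val v

theorem stl_some_none {π : V → Option A} {cl : V → St A} {v : V} (h : π v = none) :
    stl π cl (some v) = cl v := by
  unfold stl
  simp only [h]

section Supp

variable {G : SimpleGraph V} (ι : A → W) (π : V → Option A)

theorem Sup_pinl {p : ℕ} {l : Option V} {rest : List (Opx A)} {g : ℕ → W}
    (h : Sup ι (pinl p (lp π l) ++ rest) g) : plab ι π l (g (p + 1)) ∧ Sup ι rest g := by
  cases hl : lp π l with
  | none =>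
    rw [hl] at h
    refine ⟨fun a ha => ?_, h⟩
    rw [hl] at ha
    cases ha
  | some a =>
    rw [hl] at h
    refine ⟨fun b hb => ?_, h.2⟩
    rw [hl] at hb
    cases hb
    exact h.1

theorem Sup_hor (L : ℕ → ℕ → Option V) (j : ℕ) : ∀ (n : ℕ) (rest : List (Opx A)) (g : ℕ → W),
    Sup ι ((horOps G L j n).map Opx.op ++ rest) g → Sup ι rest g ∧
      ∀ i, i < n → ∀ v, L i j = some v → L (i + 1) j = some v → g i = g (i + 1)
  | 0, rest, g, h => ⟨h, fun i hi => absurd hi (by omega)⟩
  | (n + 1), rest, g, h => by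
    have e : (horOps G L j (n + 1)).map (Opx.op (A := A)) ++ rest =
        (horOps G L j n).map Opx.op ++ ((hop G n (L n j) (L (n + 1) j)).map Opx.op ++ rest) := by
      simp [horOps]
    rw [e] at h
    obtain ⟨h1, h2⟩ := Sup_hor L j n _ g h
    have h3 : Sup ι rest g ∧ (∀ v, L n j = some v → L (n + 1) j = some v → g n = g (n + 1)) := by
      unfold hop at h1
      split_ifs at h1 with c1 c2
      · exact ⟨h1.2, fun _ _ _ => h1.1⟩
      · refine ⟨h1, fun v ha hb => ?_⟩
        exact absurd ⟨ha.trans hb.symm, by rw [ha]; simp⟩ c1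
      · refine ⟨h1, fun v ha hb => ?_⟩
        exact absurd ⟨ha.trans hb.symm, by rw [ha]; simp⟩ c1
    refine ⟨h3.1, fun i hi v ha hb => ?_⟩
    by_cases hin : i = n
    · subst hin; exact h3.2 v ha hb
    · exact h2 i (by omega) v ha hb

theorem Sup_vop {i : ℕ} {a b : Option V} {rest : List (Opx A)} {g : ℕ → W}
    (h : Sup ι ((vop G i a b).map Opx.op ++ rest) g) :
    ∃ g', Sup ι rest g' ∧ (∀ l, l ≠ i → g' l = g l) ∧
      (∀ v, a = some v → b = some v → g' i = g i) := by
  unfold vop at h
  split_ifs at h with c1 c2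
  · exact ⟨g, h, fun _ _ => rfl, fun _ _ _ => rfl⟩
  · obtain ⟨x, hx⟩ := h
    refine ⟨Function.update g i x, hx, fun l hl => Function.update_of_ne hl _ _, fun v ha hb => ?_⟩
    exact absurd ⟨ha.trans hb.symm, by rw [ha]; simp⟩ c1
  · obtain ⟨x, hx⟩ := h
    refine ⟨Function.update g i x, hx, fun l hl => Function.update_of_ne hl _ _, fun v ha hb => ?_⟩
    exact absurd ⟨ha.trans hb.symm, by rw [ha]; simp⟩ c1

theorem Sup_topx (L : ℕ → ℕ → Option V) (r : V) (T : ℕ) :
    ∀ (n : ℕ) (rest : List (Opx A)) (g : ℕ → W), Sup ι (topx G π L r T n ++ rest) g →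
      (∀ i, 1 ≤ i → i ≤ n → plab ι π (L i T) (g i)) ∧
        ∃ g', (∀ i, n < i → g' i = g i) ∧ Sup ι rest g'
  | 0, rest, g, h => ⟨fun i h1 h2 => absurd h2 (by omega), g, fun _ _ => rfl, h⟩
  | (n + 1), rest, g, h => by
    classical
    have e : topx G π L r T (n + 1) ++ rest = topx G π L r T n ++
        (pinl n (lp π (L (n + 1) T)) ++
          (((if ladj G (L (n + 1) T) (some r) then [Op.H n] else []) ++
            [Op.D (n + 1), Op.J n]).map Opx.op ++ rest)) := by
      simp only [topx, List.append_assoc]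
    rw [e] at h
    obtain ⟨h1, g', hg', h2⟩ := Sup_topx L r T n _ g h
    obtain ⟨h3, h4⟩ := Sup_pinl ι π h2
    have h5 : ∃ x, Sup ι rest (Function.update g' (n + 1) x) := by
      split_ifs at h4
      · obtain ⟨x, hx⟩ := h4
        exact ⟨x, hx.2⟩
      · obtain ⟨x, hx⟩ := h4
        exact ⟨x, hx.2⟩
    obtain ⟨x, hx⟩ := h5
    refine ⟨fun i hi1 hi2 => ?_, Function.update g' (n + 1) x, fun i hi => ?_, hx⟩
    · by_cases hin : i = n + 1
      · subst hin
        rw [← hg' (n + 1) (by omega)]
        exact h3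
      · exact h1 i hi1 (by omega)
    · rw [Function.update_of_ne (by omega), hg' i (by omega)]

end Supp

/-- Row of the current slice at site `i` when the sites `1, ..., n` are still in row `t`. -/
def srow (t n i : ℕ) : ℕ := if i ≤ n then t else t + 1

/-- Values of all future points. -/
structure Fut (ι : A → W) (π : V → Option A) (L : ℕ → ℕ → Option V) (k T t n : ℕ) (g : ℕ → W)
    (Y : ℕ → ℕ → W) : Prop where
  slice : ∀ i, 1 ≤ i → i ≤ k → Y i (srow t n i) = g i
  vert : ∀ i j, 1 ≤ i → i ≤ k → srow t n i ≤ j → j < T → ∀ v, L i j = some v →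
    L i (j + 1) = some v → Y i j = Y i (j + 1)
  hor : ∀ i j, 1 ≤ i → i + 1 ≤ k → t + 1 ≤ j → j ≤ T → ∀ v, L i j = some v →
    L (i + 1) j = some v → Y i j = Y (i + 1) j
  pinA : ∀ i j, 1 ≤ i → i ≤ k → srow t n i < j → j ≤ T → (i = 1 ∨ j = 1) →
    plab ι π (L i j) (Y i j)
  pinT : ∀ i, 1 ≤ i → i ≤ k → plab ι π (L i T) (Y i T)

/-- The remaining word determines the future. -/
def HasFut (ι : A → W) (π : V → Option A) (L : ℕ → ℕ → Option V) (k T t n : ℕ)
    (rest : List (Opx A)) : Prop :=
  ∀ g : ℕ → W, Sup ι rest g → ∃ Y, Fut ι π L k T t n g Y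

section Future

variable {G : SimpleGraph V} (ι : A → W) (π : V → Option A) {L : ℕ → ℕ → Option V} {k T : ℕ}

theorem hasFut_top (r : V) : HasFut ι π L k T T k (topx G π L r T k) := by
  intro g hg
  have hg' : Sup ι (topx G π L r T k ++ []) g := by rw [List.append_nil]; exact hg
  obtain ⟨h1, _⟩ := Sup_topx ι π L r T k [] g hg'
  refine ⟨fun i _ => g i, fun i h1 h2 => rfl, ?_, ?_, ?_, h1⟩
  · intro i j hi1 hi2 hj1 hj2
    unfold srow at hj1
    rw [if_pos hi2] at hj1
    omega
  · intro i j _ _ hj1 hj2
    omega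
  · intro i j hi1 hi2 hj1 hj2
    unfold srow at hj1
    rw [if_pos hi2] at hj1
    omega

theorem hasFut_hor {t : ℕ} {rest : List (Opx A)} (h : HasFut ι π L k T (t + 1) k rest) :
    HasFut ι π L k T t 0 ((horOps G L (t + 1) (k + 1)).map Opx.op ++ rest) := by
  intro g hg
  obtain ⟨h1, h2⟩ := Sup_hor ι L (t + 1) (k + 1) rest g hg
  obtain ⟨Y, hY⟩ := h g h1
  have hs : ∀ i, 1 ≤ i → srow t 0 i = t + 1 := by
    intro i hi
    unfold srow
    rw [if_neg (by omega)]
  have hs' : ∀ i, i ≤ k → srow (t + 1) k i = t + 1 := by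
    intro i hi
    unfold srow
    rw [if_pos hi]
  refine ⟨Y, ?_, ?_, ?_, ?_, hY.pinT⟩
  · intro i hi1 hi2
    have := hY.slice i hi1 hi2
    rw [hs' i hi2] at this
    rw [hs i hi1]
    exact this
  · intro i j hi1 hi2 hj
    apply hY.vert i j hi1 hi2
    rw [hs' i hi2]
    rw [hs i hi1] at hj
    exact hj
  · intro i j hi1 hi2 hj1 hj2 v ha hb
    by_cases hj : j = t + 1
    · subst hj
      have a1 := hY.slice i hi1 (by omega)
      have a2 := hY.slice (i + 1) (by omega) hi2
      rw [hs' i (by omega)] at a1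
      rw [hs' (i + 1) hi2] at a2
      rw [a1, a2]
      exact h2 i (by omega) v ha hb
    · exact hY.hor i j hi1 hi2 (by omega) hj2 v ha hb
  · intro i j hi1 hi2 hj
    apply hY.pinA i j hi1 hi2
    rw [hs' i hi2]
    rw [hs i hi1] at hj
    exact hj

theorem hasFut_step {t n : ℕ} (ht : t < T) (hn : n < k) {rest : List (Opx A)}
    (h : HasFut ι π L k T t n rest) :
    HasFut ι π L k T t (n + 1) ((vop G (n + 1) (L (n + 1) t) (L (n + 1) (t + 1))).map Opx.op ++
      ((if n = 0 ∨ t = 0 then pinl n (lp π (L (n + 1) (t + 1))) else []) ++ rest)) := by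
  intro g hg
  obtain ⟨g', h1, h2, h3⟩ := Sup_vop ι hg
  have h4 : ((n = 0 ∨ t = 0) → plab ι π (L (n + 1) (t + 1)) (g' (n + 1))) ∧ Sup ι rest g' := by
    split_ifs at h1 with c
    · obtain ⟨a1, a2⟩ := Sup_pinl ι π h1
      exact ⟨fun _ => a1, a2⟩
    · exact ⟨fun hc => absurd hc c, h1⟩
  obtain ⟨hp, hs⟩ := h4
  obtain ⟨Y, hY⟩ := h g' hs
  have e1 : ∀ i, i ≤ n → srow t n i = t := fun i hi => by unfold srow; rw [if_pos hi]
  have e2 : ∀ i, n < i → srow t n i = t + 1 := fun i hi => by unfold srow; rw [if_neg (by omega)]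
  have e3 : ∀ i, i ≤ n + 1 → srow t (n + 1) i = t := fun i hi => by unfold srow; rw [if_pos hi]
  have e4 : ∀ i, n + 1 < i → srow t (n + 1) i = t + 1 :=
    fun i hi => by unfold srow; rw [if_neg (by omega)]
  have hYn : Y (n + 1) (t + 1) = g' (n + 1) := by
    have := hY.slice (n + 1) (by omega) (by omega)
    rw [e2 (n + 1) (by omega)] at this
    exact this
  refine ⟨fun i j => if i = n + 1 ∧ j = t then g (n + 1) else Y i j, ?_, ?_, ?_, ?_, ?_⟩
  · intro i hi1 hi2
    rcases lt_trichotomy i (n + 1) with hi | hi | hi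
    · rw [e3 i (by omega), if_neg (by omega)]
      have := hY.slice i hi1 hi2
      rw [e1 i (by omega)] at this
      rw [this, h2 i (by omega)]
    · subst hi
      rw [e3 (n + 1) le_rfl, if_pos ⟨rfl, rfl⟩]
    · rw [e4 i hi, if_neg (by omega)]
      have := hY.slice i hi1 hi2
      rw [e2 i (by omega)] at this
      rw [this, h2 i (by omega)]
  · intro i j hi1 hi2 hj1 hj2 v ha hb
    rw [if_neg (show ¬ (i = n + 1 ∧ j + 1 = t) by
      rintro ⟨rfl, h5⟩
      rw [e3 (n + 1) le_rfl] at hj1
      omega)]
    by_cases hc : i = n + 1 ∧ j = t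
    · obtain ⟨rfl, rfl⟩ := hc
      rw [if_pos ⟨rfl, rfl⟩, hYn]
      exact (h3 v ha hb).symm
    · rw [if_neg hc]
      apply hY.vert i j hi1 hi2 _ hj2 v ha hb
      rcases lt_trichotomy i (n + 1) with hi | hi | hi
      · rw [e1 i (by omega)]
        rw [e3 i (by omega)] at hj1
        exact hj1
      · rw [e2 i (by omega)]
        rw [e3 i (by omega)] at hj1
        have : j ≠ t := fun hjt => hc ⟨hi, hjt⟩
        omega
      · rw [e2 i (by omega)]
        rw [e4 i hi] at hj1
        exact hj1
  · intro i j hi1 hi2 hj1 hj2 v ha hb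
    rw [if_neg (by omega), if_neg (by omega)]
    exact hY.hor i j hi1 hi2 hj1 hj2 v ha hb
  · intro i j hi1 hi2 hj1 hj2 hc
    have hjt : ¬ (i = n + 1 ∧ j = t) := by
      rintro ⟨rfl, rfl⟩
      rw [e3 (n + 1) le_rfl] at hj1
      omega
    rw [if_neg hjt]
    rcases lt_trichotomy i (n + 1) with hi | hi | hi
    · apply hY.pinA i j hi1 hi2 _ hj2 hc
      rw [e1 i (by omega)]
      rw [e3 i (by omega)] at hj1
      exact hj1
    · subst hi
      rw [e3 (n + 1) le_rfl] at hj1
      by_cases hj : j = t + 1
      · subst hj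
        rw [hYn]
        apply hp
        omega
      · apply hY.pinA (n + 1) j hi1 hi2 _ hj2 hc
        rw [e2 (n + 1) (by omega)]
        omega
    · apply hY.pinA i j hi1 hi2 _ hj2 hc
      rw [e2 i (by omega)]
      rw [e4 i hi] at hj1
      exact hj1
  · intro i hi1 hi2
    rw [if_neg (by omega)]
    exact hY.pinT i hi1 hi2

end Future

section Main

variable {G : SimpleGraph V} {r : V} {k T : ℕ} {L : ℕ → ℕ → Option V}

/-- The new point of a pinned class has the value of its pin. -/
theorem forced (ι : A → W) {π : V → Option A} {cl : V → St A} (M : GridModel G r k T L)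
    {v : V} (hv : v ≠ r) {a : A} (hπ : π v = some a)
    (hcon : ∃ i j, L i j = some v ∧ (i = 1 ∨ j = 1 ∨ j = T)) {t n : ℕ} (ht : t < T) (hn : n < k)
    (h1 : L (n + 1) (t + 1) = some v) (h2 : L (n + 1) t ≠ some v) {g : ℕ → W}
    (hg : ∀ i, 1 ≤ i → i ≤ k → i ≠ n + 1 → L i (srow t n i) = some v → g i = ι a)
    {Y : ℕ → ℕ → W} (hY : Fut ι π L k T t n g Y)
    (hp : (n = 0 ∨ t = 0) → plab ι π (L (n + 1) (t + 1)) (g (n + 1))) : g (n + 1) = ι a := by
  have e1 : ∀ i, i ≤ n → srow t n i = t := fun i hi => by unfold srow; rw [if_pos hi]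
  have e2 : ∀ i, n < i → srow t n i = t + 1 := fun i hi => by unfold srow; rw [if_neg (by omega)]
  have hYn : Y (n + 1) (t + 1) = g (n + 1) := by
    have := hY.slice (n + 1) (by omega) (by omega)
    rw [e2 (n + 1) (by omega)] at this
    exact this
  have hslice : ∀ i, 1 ≤ i → i ≤ k → i ≠ n + 1 → L i (srow t n i) = some v →
      Y i (srow t n i) = ι a := by
    intro i hi1 hi2 hi3 hL
    rw [hY.slice i hi1 hi2]
    exact hg i hi1 hi2 hi3 hL
  obtain ⟨ci, cj, hcL, hc⟩ := hcon
  have hpl : ∀ (l : Option V) (y : W), l = some v → plab ι π l y → y = ι a := by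
    intro l y hl h
    apply h
    rw [hl]
    exact hπ
  have hbase : srow t n ci ≤ cj → Y ci cj = ι a := by
    intro hreg
    have hin := M.inside hv hcL
    by_cases hs : cj = srow t n ci ∧ ci ≠ n + 1
    · rw [hs.1]
      apply hslice ci hin.1.1 hin.1.2 hs.2
      rw [← hs.1]
      exact hcL
    · by_cases hcT : cj = T
      · rw [hcT] at hcL ⊢
        exact hpl _ _ hcL (hY.pinT ci hin.1.1 hin.1.2)
      · have hc' : ci = 1 ∨ cj = 1 := by tauto
        by_cases hlt : srow t n ci < cj
        · exact hpl _ _ hcL (hY.pinA ci cj hin.1.1 hin.1.2 hlt hin.2.2 hc')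
        · have heq : cj = srow t n ci := by omega
          have hci : ci = n + 1 := by
            by_contra hne
            exact hs ⟨heq, hne⟩
          rw [e2 ci (by omega)] at heq
          subst hci
          subst heq
          rw [hYn]
          apply hpl _ _ hcL
          apply hp
          omega
  have hwalk := M.conn v hv (ci, cj) (n + 1, t + 1) hcL h1
  have key : ∀ c : ℕ × ℕ, Relation.ReflTransGen
      (fun a b : ℕ × ℕ => gadj a b ∧ L a.1 a.2 = some v ∧ L b.1 b.2 = some v) (ci, cj) c →
      srow t n c.1 ≤ c.2 → Y c.1 c.2 = ι a := by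
    intro c hcw
    induction hcw with
    | refl => exact hbase
    | @tail b c _ hbc ih =>
      intro hreg
      obtain ⟨hadj, hb, hcl⟩ := hbc
      obtain ⟨i', j'⟩ := b
      obtain ⟨i, j⟩ := c
      simp only at hadj hb hcl ih hreg ⊢
      have hbin := M.inside hv hb
      have hcin := M.inside hv hcl
      by_cases hs : j = srow t n i ∧ i ≠ n + 1
      · rw [hs.1]
        apply hslice i hcin.1.1 hcin.1.2 hs.2
        rw [← hs.1]
        exact hcl
      · have hrow : t + 1 ≤ j := by
          by_cases hin : i ≤ n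
          · rw [e1 i hin] at hreg hs
            by_contra hcon
            exact hs ⟨by omega, by omega⟩
          · rw [e2 i (by omega)] at hreg
            exact hreg
        have hs' : ∀ l, srow t n l ≤ t + 1 := by
          intro l
          unfold srow
          split_ifs <;> omega
        unfold gadj at hadj
        simp only at hadj
        rcases hadj with ⟨hii, hjj | hjj⟩ | ⟨hjj, hii | hii⟩
        · -- the point below
          subst hii
          subst hjj
          by_cases hr : srow t n i' ≤ j'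
          · rw [← hY.vert i' j' hbin.1.1 hbin.1.2 hr (by omega) v hb hcl]
            exact ih hr
          · exfalso
            have heq : j' + 1 = srow t n i' := by omega
            have hi' : i' = n + 1 := by
              by_contra hne
              exact hs ⟨heq, hne⟩
            subst hi'
            rw [e2 (n + 1) (by omega)] at heq
            have : j' = t := by omega
            subst this
            exact h2 hb
        · -- the point above
          subst hii
          subst hjj
          rw [hY.vert i' j hcin.1.1 hcin.1.2 hreg (by omega) v hcl hb]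
          exact ih (by omega)
        · -- the point on the left
          subst hjj
          subst hii
          rw [← hY.hor i' j' hbin.1.1 hcin.1.2 hrow hcin.2.2 v hb hcl]
          exact ih ((hs' i').trans hrow)
        · -- the point on the right
          subst hjj
          subst hii
          rw [hY.hor i j' hcin.1.1 hbin.1.2 hrow hcin.2.2 v hcl hb]
          exact ih ((hs' (i + 1)).trans hrow)
  have h3 := key _ hwalk (by
    show srow t n (n + 1) ≤ t + 1
    rw [e2 (n + 1) (by omega)])
  rw [← hYn]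
  exact h3

theorem vd_pin (ι : A → W) {a0 : A} {π : V → Option A} {cl : V → St A} {m p : ℕ}
    (hp : p + 1 ≤ m) {l : Option V} {s : ℕ → St A} (hs : s (p + 1) = stl π cl l)
    {rest : List (Opx A)} (h : Vd ι a0 m rest s) : Vd ι a0 m (pinl p (lp π l) ++ rest) s := by
  cases hl : lp π l with
  | none => exact h
  | some a =>
    refine ⟨hp, ?_, h⟩
    rw [hs]
    exact stl_pin hl

theorem ClsP.dec {a0 : A} {π : V → Option A} {cl : V → St A} (hC : ClsP G r a0 π cl) (v : V) :
    (∃ a, π v = some a ∧ stl π cl (some v) = St.lf a) ∨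
      (π v = none ∧ stl π cl (some v) = cl v ∧ (cl v).isCl) := by
  cases h : π v with
  | none => exact Or.inr ⟨rfl, stl_some_none h, hC.val v⟩
  | some a => exact Or.inl ⟨a, rfl, stl_pin h⟩

theorem vd_hor (ι : A → W) {a0 : A} {π : V → Option A} {cl : V → St A} (hC : ClsP G r a0 π cl)
    (hk : 1 ≤ k) (hL : ∀ i j, L i j = some r ↔ (i = 0 ∨ k < i ∨ j = 0 ∨ T < j)) {j : ℕ}
    (hj1 : 1 ≤ j) (hj2 : j ≤ T) (s : ℕ → St A)
    (hs : ∀ i, 1 ≤ i → i ≤ k + 1 → s i = stl π cl (L i j)) :
    ∀ (n : ℕ) (rest : List (Opx A)), n ≤ k + 1 → Vd ι a0 (k + 1) rest s →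
      Vd ι a0 (k + 1) ((horOps G L j n).map Opx.op ++ rest) s
  | 0, rest, _, h => h
  | (n + 1), rest, hn, h => by
    have e : (horOps G L j (n + 1)).map (Opx.op (A := A)) ++ rest =
        (horOps G L j n).map Opx.op ++ ((hop G n (L n j) (L (n + 1) j)).map Opx.op ++ rest) := by
      simp [horOps]
    rw [e]
    apply vd_hor ι hC hk hL hj1 hj2 s hs n _ (by omega)
    unfold hop
    split_ifs with h1 h2
    · -- equal labels
      obtain ⟨heq, hne⟩ := h1
      obtain ⟨v, hv⟩ := Option.ne_none_iff_exists'.1 hne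
      have hv2 : L (n + 1) j = some v := heq ▸ hv
      have hvr : v ≠ r := by
        rintro rfl
        have a1 := (hL _ _).1 hv
        have a2 := (hL _ _).1 hv2
        omega
      have hn1 : 1 ≤ n := by
        by_contra hcon
        have h0 : n = 0 := by omega
        subst h0
        have h5 := (hL 0 j).2 (Or.inl rfl)
        rw [hv, Option.some_inj] at h5
        exact hvr h5
      have s1 : s n = stl π cl (some v) := by rw [hs n hn1 (by omega), hv]
      have s2 : s (n + 1) = stl π cl (some v) := by rw [hs (n + 1) (by omega) hn, hv2]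
      refine ⟨hn, ?_⟩
      rcases hC.dec v with ⟨a, _, ha⟩ | ⟨_, h6, h7⟩
      · right; left
        exact ⟨hn1, ⟨a, by rw [s1, ha], by rw [s2, ha]⟩, h⟩
      · left
        exact ⟨hn1, by rw [s1, s2], by rw [s1, h6]; exact h7, h⟩
    · -- adjacent labels
      obtain ⟨u, v, hu, hv, huv⟩ := h2
      refine ⟨hn, h, ?_⟩
      have s2 : s (n + 1) = stl π cl (some v) := by rw [hs (n + 1) (by omega) hn, hv]
      by_cases h0 : n = 0
      · subst h0
        have hur : u = r := by
          have h5 := (hL 0 j).2 (Or.inl rfl)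
          rw [hu, Option.some_inj] at h5
          exact h5
        rcases hC.dec v with ⟨b, hb, hb2⟩ | ⟨_, h6, h7⟩
        · right; right; left
          refine ⟨a0, b, hC.pin u v a0 b huv (hur ▸ hC.root) hb, Or.inl ⟨rfl, rfl⟩, ?_⟩
          rw [s2, hb2]
        · left
          exact ⟨Or.inl rfl, by rw [s2, h6]; exact h7⟩
      · have hn1 : 1 ≤ n := by omega
        have s1 : s n = stl π cl (some u) := by rw [hs n hn1 (by omega), hu]
        rcases hC.dec u with ⟨a, ha, ha2⟩ | ⟨h8, h9, h10⟩
        · rcases hC.dec v with ⟨b, hb, hb2⟩ | ⟨_, h6, h7⟩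
          · right; right; left
            exact ⟨a, b, hC.pin u v a b huv ha hb, Or.inr ⟨hn1, by rw [s1, ha2]⟩, by rw [s2, hb2]⟩
          · left
            exact ⟨Or.inr ⟨a, by rw [s1, ha2]⟩, by rw [s2, h6]; exact h7⟩
        · rcases hC.dec v with ⟨b, hb, hb2⟩ | ⟨h5, h6, h7⟩
          · right; left
            exact ⟨hn1, by rw [s1, h9]; exact h10, b, by rw [s2, hb2]⟩
          · right; right; right
            refine ⟨hn1, by rw [s1, h9]; exact h10, ?_⟩
            rw [s1, s2, h9, h6]
            exact hC.adj u v h8 h5 huv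
    · exact h

theorem vd_step (ι : A → W) {a0 : A} {π : V → Option A} {cl : V → St A}
    (M : GridModel G r k T L) (hC : ClsP G r a0 π cl)
    (hcon : ∀ v, v ≠ r → π v ≠ none → ∃ i j, L i j = some v ∧ (i = 1 ∨ j = 1 ∨ j = T))
    {t : ℕ} (ht : t < T) {R0 : List (Opx A)} (hF : HasFut ι π L k T t 0 R0)
    (hV : ∀ s : ℕ → St A, (∀ i, 1 ≤ i → i ≤ k + 1 → s i = stl π cl (L i (t + 1))) →
      Vd ι a0 (k + 1) R0 s) :
    ∀ n, n ≤ k → HasFut ι π L k T t n (stepx G π L t n ++ R0) ∧
      ∀ s : ℕ → St A, (∀ i, 1 ≤ i → i ≤ k + 1 → s i = stl π cl (L i (srow t n i))) →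
        Vd ι a0 (k + 1) (stepx G π L t n ++ R0) s
  | 0, _ => by
    refine ⟨hF, fun s hs => hV s fun i h1 h2 => ?_⟩
    rw [hs i h1 h2]
    unfold srow
    rw [if_neg (by omega)]
  | (n + 1), hn => by
    obtain ⟨ihF, ihV⟩ := vd_step ι M hC hcon ht hF hV n (by omega)
    have e : stepx G π L t (n + 1) ++ R0 =
        (vop G (n + 1) (L (n + 1) t) (L (n + 1) (t + 1))).map Opx.op ++
        ((if n = 0 ∨ t = 0 then pinl n (lp π (L (n + 1) (t + 1))) else []) ++
          (stepx G π L t n ++ R0)) := by
      simp only [stepx, List.append_assoc]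
    rw [e]
    refine ⟨hasFut_step ι π ht (by omega) ihF, fun s hs => ?_⟩
    have e1 : srow t (n + 1) (n + 1) = t := by unfold srow; rw [if_pos le_rfl]
    have e2 : srow t n (n + 1) = t + 1 := by unfold srow; rw [if_neg (by omega)]
    have e3 : ∀ i, i ≠ n + 1 → srow t (n + 1) i = srow t n i := by
      intro i hi
      unfold srow
      by_cases h : i ≤ n
      · rw [if_pos h, if_pos (by omega)]
      · rw [if_neg h, if_neg (by omega)]
    -- validity after the creation of the new point
    have hafter : ∀ s' : ℕ → St A, (∀ i, i ≠ n + 1 → s' i = s i) →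
        s' (n + 1) = stl π cl (L (n + 1) (t + 1)) →
        Vd ι a0 (k + 1) ((if n = 0 ∨ t = 0 then pinl n (lp π (L (n + 1) (t + 1))) else []) ++
          (stepx G π L t n ++ R0)) s' := by
      intro s' h1 h2
      have h3 : Vd ι a0 (k + 1) (stepx G π L t n ++ R0) s' := by
        apply ihV
        intro i hi1 hi2
        by_cases hin : i = n + 1
        · subst hin
          rw [h2, e2]
        · rw [h1 i hin, hs i hi1 hi2, e3 i hin]
      split_ifs
      · exact vd_pin ι (by omega) h2 h3
      · exact h3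
    have hforce : ∀ (v : V) (a : A), L (n + 1) (t + 1) = some v → π v = some a →
        L (n + 1) t ≠ some v →
        Force ι a0 ((if n = 0 ∨ t = 0 then pinl n (lp π (L (n + 1) (t + 1))) else []) ++
          (stepx G π L t n ++ R0)) s (n + 1) a := by
      intro v a hv hπ hne g hg0 hgs hsup
      have hvr : v ≠ r := by
        rintro rfl
        have := (M.frame _ _).1 hv
        omega
      have h4 : ((n = 0 ∨ t = 0) → plab ι π (L (n + 1) (t + 1)) (g (n + 1))) ∧
          Sup ι (stepx G π L t n ++ R0) g := by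
        split_ifs at hsup with c
        · obtain ⟨a1, a2⟩ := Sup_pinl ι π hsup
          exact ⟨fun _ => a1, a2⟩
        · exact ⟨fun hc => absurd hc c, hsup⟩
      obtain ⟨Y, hY⟩ := ihF g h4.2
      refine forced (cl := cl) ι M hvr hπ (hcon v hvr (by rw [hπ]; simp)) ht (by omega) hv hne ?_ hY h4.1
      intro i hi1 hi2 hi3 hLi
      apply hgs i a hi1 hi3
      rw [hs i hi1 (by omega), e3 i hi3, hLi]
      exact stl_pin hπ
    have hsn : s (n + 1) = stl π cl (L (n + 1) t) := by
      rw [hs (n + 1) (by omega) (by omega), e1]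
    have hnr : L (n + 1) (t + 1) ≠ some r := by
      intro h
      have := (M.frame _ _).1 h
      omega
    generalize (if n = 0 ∨ t = 0 then pinl n (lp π (L (n + 1) (t + 1))) else []) ++
          (stepx G π L t n ++ R0) = PL at hafter hforce ⊢
    unfold vop
    split_ifs with c1 c2
    · -- the label persists
      apply hafter s (fun _ _ => rfl)
      rw [hsn, c1.1]
    · -- adjacent labels
      obtain ⟨u, v, hu, hv, huv⟩ := c2
      refine ⟨by omega, by omega, ?_⟩
      have hsu : s (n + 1) = stl π cl (some u) := by rw [hsn, hu]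
      rcases hC.dec v with ⟨a, ha, ha2⟩ | ⟨h5, h6, h7⟩
      · right
        refine ⟨a, ?_, ?_, ?_⟩
        · rcases hC.dec u with ⟨b, hb, hb2⟩ | ⟨_, h9, h10⟩
          · left
            exact ⟨b, hC.pin u v b a huv hb ha, by rw [hsu, hb2]⟩
          · right
            rw [hsu, h9]
            exact h10
        · apply hforce v a hv ha
          rw [hu]
          intro h
          rw [Option.some_inj] at h
          exact huv.ne h
        · apply hafter
          · intro i hi
            exact Function.update_of_ne hi _ _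
          · rw [Function.update_self, hv, ha2]
      · left
        refine ⟨cl v, h7, ?_, ?_⟩
        · rcases hC.dec u with ⟨b, hb, hb2⟩ | ⟨h8, h9, h10⟩
          · left
            exact ⟨b, by rw [hsu, hb2]⟩
          · right
            rw [hsu, h9]
            exact ⟨h10, hC.adj u v h8 h5 huv⟩
        · apply hafter
          · intro i hi
            exact Function.update_of_ne hi _ _
          · rw [Function.update_self, hv, h6]
    · -- a new label
      refine ⟨by omega, by omega, ?_⟩
      cases hl : L (n + 1) (t + 1) with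
      | none =>
        left
        refine ⟨St.pos, Or.inl (Or.inl rfl), ?_⟩
        apply hafter
        · intro i hi
          exact Function.update_of_ne hi _ _
        · rw [Function.update_self, hl]
          rfl
      | some v =>
        rcases hC.dec v with ⟨a, ha, ha2⟩ | ⟨h5, h6, h7⟩
        · right
          refine ⟨a, ?_, ?_⟩
          · apply hforce v a hl ha
            intro h
            exact c1 ⟨h.trans hl.symm, by rw [h]; simp⟩
          · apply hafter
            · intro i hi
              exact Function.update_of_ne hi _ _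
            · rw [Function.update_self, hl, ha2]
        · left
          refine ⟨cl v, Or.inl h7, ?_⟩
          apply hafter
          · intro i hi
            exact Function.update_of_ne hi _ _
          · rw [Function.update_self, hl, h6]

theorem vd_top (ι : A → W) {a0 : A} {π : V → Option A} {cl : V → St A} (hC : ClsP G r a0 π cl)
    (hL : ∀ i j, L i j = some r ↔ (i = 0 ∨ k < i ∨ j = 0 ∨ T < j)) (hT : 1 ≤ T)
    (s : ℕ → St A) (hs : ∀ i, 1 ≤ i → i ≤ k + 1 → s i = stl π cl (L i T)) :
    ∀ (n : ℕ) (rest : List (Opx A)), n ≤ k →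
      (∀ s' : ℕ → St A, (∀ i, 1 ≤ i → i ≤ n → s' i = St.lf a0) →
        (∀ i, n < i → i ≤ k + 1 → s' i = stl π cl (L i T)) → Vd ι a0 (k + 1) rest s') →
      Vd ι a0 (k + 1) (topx G π L r T n ++ rest) s
  | 0, rest, _, h => h s (fun i h1 h2 => absurd h2 (by omega)) (fun i h1 h2 => hs i h1 h2)
  | (n + 1), rest, hn, h => by
    classical
    have e : topx G π L r T (n + 1) ++ rest = topx G π L r T n ++
        (pinl n (lp π (L (n + 1) T)) ++
          (((if ladj G (L (n + 1) T) (some r) then [Op.H n] else []) ++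
            [Op.D (n + 1), Op.J n]).map Opx.op ++ rest)) := by
      simp only [topx, List.append_assoc]
    rw [e]
    apply vd_top ι hC hL hT s hs n _ (by omega)
    intro s' h1 h2
    have hsn : s' (n + 1) = stl π cl (L (n + 1) T) := h2 (n + 1) (by omega) (by omega)
    apply vd_pin ι (by omega) hsn
    have hleft : n = 0 ∨ s' n = St.lf a0 := by
      by_cases h0 : n = 0
      · exact Or.inl h0
      · exact Or.inr (h1 n (by omega) le_rfl)
    have hDJ : Vd ι a0 (k + 1) (Opx.op (Op.D (n + 1)) :: Opx.op (Op.J n) :: rest) s' := by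
      refine ⟨by omega, by omega, Or.inl ⟨St.new, Or.inr rfl, ?_⟩⟩
      refine ⟨by omega, Or.inr (Or.inr ⟨?_, ?_, ?_⟩)⟩
      · rcases hleft with h0 | h0
        · exact Or.inl h0
        · right
          rw [Function.update_of_ne (by omega)]
          exact h0
      · rw [Function.update_self]
      · apply h
        · intro i hi1 hi2
          by_cases hin : i = n + 1
          · subst hin
            rw [Function.update_self]
          · rw [Function.update_of_ne hin, Function.update_of_ne hin]
            exact h1 i hi1 (by omega)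
        · intro i hi1 hi2
          rw [Function.update_of_ne (by omega), Function.update_of_ne (by omega)]
          exact h2 i (by omega) hi2
    by_cases ha : ladj G (L (n + 1) T) (some r)
    · rw [if_pos ha]
      refine ⟨by omega, hDJ, ?_⟩
      obtain ⟨u, w, hu, hw, huw⟩ := ha
      rw [Option.some_inj] at hw
      subst hw
      have hsu : s' (n + 1) = stl π cl (some u) := by rw [hsn, hu]
      rcases hC.dec u with ⟨b, hb, hb2⟩ | ⟨_, h6, h7⟩
      · right; right; left
        refine ⟨a0, b, (hC.pin u r b a0 huw hb hC.root).symm, ?_, by rw [hsu, hb2]⟩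
        rcases hleft with h0 | h0
        · exact Or.inl ⟨h0, rfl⟩
        · by_cases hn0 : n = 0
          · exact Or.inl ⟨hn0, rfl⟩
          · exact Or.inr ⟨by omega, h0⟩
      · left
        refine ⟨?_, by rw [hsu, h6]; exact h7⟩
        rcases hleft with h0 | h0
        · exact Or.inl h0
        · exact Or.inr ⟨a0, h0⟩
    · rw [if_neg ha]
      exact hDJ

theorem vd_bot (ι : A → W) {a0 : A} {m : ℕ} : ∀ (n : ℕ) (rest : List (Opx A)), n ≤ m →
    (∀ s' : ℕ → St A, (∀ i, 1 ≤ i → i ≤ n → s' i = St.lf a0) →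
      (∀ i, n < i → s' i = St.new) → Vd ι a0 m rest s') →
    Vd ι a0 m ((botOps n).map Opx.op ++ rest) (fun _ => St.new)
  | 0, rest, _, h => h _ (fun i h1 h2 => absurd h2 (by omega)) (fun _ _ => rfl)
  | (n + 1), rest, hn, h => by
    have e : (botOps (n + 1)).map (Opx.op (A := A)) ++ rest =
        (botOps n).map Opx.op ++ (Opx.op (Op.J n) :: rest) := by
      simp [botOps]
    rw [e]
    apply vd_bot ι n _ (by omega)
    intro s' h1 h2
    refine ⟨hn, Or.inr (Or.inr ⟨?_, h2 (n + 1) (by omega), ?_⟩)⟩
    · by_cases h0 : n = 0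
      · exact Or.inl h0
      · exact Or.inr (h1 n (by omega) le_rfl)
    · apply h
      · intro i hi1 hi2
        by_cases hin : i = n + 1
        · subst hin
          rw [Function.update_self]
        · rw [Function.update_of_ne hin]
          exact h1 i hi1 (by omega)
      · intro i hi
        rw [Function.update_of_ne (by omega)]
        exact h2 i (by omega)

/-- The word from row `T - d` on. -/
noncomputable def tailx (G : SimpleGraph V) (π : V → Option A) (L : ℕ → ℕ → Option V) (r : V)
    (k T : ℕ) : ℕ → List (Opx A)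
  | 0 => topx G π L r T k
  | (d + 1) => stepx G π L (T - (d + 1)) k ++
      ((horOps G L (T - (d + 1) + 1) (k + 1)).map Opx.op ++ tailx G π L r k T d)

theorem bodyx_tail (G : SimpleGraph V) (π : V → Option A) (L : ℕ → ℕ → Option V) (r : V)
    (k T : ℕ) : ∀ d, d ≤ T → bodyx G π L k T ++ topx G π L r T k =
      bodyx G π L k (T - d) ++ tailx G π L r k T d
  | 0, _ => rfl
  | (d + 1), hd => by
    rw [bodyx_tail G π L r k T d (by omega)]
    have e1 : T - d = (T - (d + 1)) + 1 := by omega
    have e2 : bodyx G π L k (T - d) = bodyx G π L k (T - (d + 1)) ++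
        (stepx G π L (T - (d + 1)) k ++
          (horOps G L (T - (d + 1) + 1) (k + 1)).map Opx.op) := by
      rw [e1]
      rfl
    rw [e2]
    show _ = bodyx G π L k (T - (d + 1)) ++ (stepx G π L (T - (d + 1)) k ++
      ((horOps G L (T - (d + 1) + 1) (k + 1)).map Opx.op ++ tailx G π L r k T d))
    simp only [List.append_assoc]

theorem vd_tail (ι : A → W) {a0 : A} {π : V → Option A} {cl : V → St A}
    (M : GridModel G r k T L) (hk : 1 ≤ k) (hT : 1 ≤ T) (hC : ClsP G r a0 π cl)
    (hcon : ∀ v, v ≠ r → π v ≠ none → ∃ i j, L i j = some v ∧ (i = 1 ∨ j = 1 ∨ j = T)) :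
    ∀ d, d ≤ T → HasFut ι π L k T (T - d) k (tailx G π L r k T d) ∧
      ∀ s : ℕ → St A, (∀ i, 1 ≤ i → i ≤ k + 1 → s i = stl π cl (L i (T - d))) →
        Vd ι a0 (k + 1) (tailx G π L r k T d) s
  | 0, _ => by
    refine ⟨hasFut_top ι π r, fun s hs => ?_⟩
    have h := vd_top (G := G) (k := k) ι hC M.frame hT s hs k [] le_rfl
      (fun _ _ _ => trivial)
    rw [List.append_nil] at h
    exact h
  | (d + 1), hd => by
    obtain ⟨ihF, ihV⟩ := vd_tail ι M hk hT hC hcon d (by omega)
    have e1 : T - d = (T - (d + 1)) + 1 := by omega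
    rw [e1] at ihF ihV
    set t := T - (d + 1) with ht
    have hF := hasFut_hor (G := G) ι π ihF
    have hV : ∀ s : ℕ → St A, (∀ i, 1 ≤ i → i ≤ k + 1 → s i = stl π cl (L i (t + 1))) →
        Vd ι a0 (k + 1) ((horOps G L (t + 1) (k + 1)).map Opx.op ++ tailx G π L r k T d) s := by
      intro s hs
      exact vd_hor ι hC hk M.frame (by omega) (by omega) s hs (k + 1) _ le_rfl (ihV s hs)
    obtain ⟨h1, h2⟩ := vd_step ι M hC hcon (t := t) (by omega) hF hV k le_rfl
    refine ⟨h1, fun s hs => h2 s fun i hi1 hi2 => ?_⟩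
    rw [hs i hi1 hi2]
    unfold srow
    by_cases hik : i ≤ k
    · rw [if_pos hik]
    · rw [if_neg hik, (M.frame i t).2 (by omega), (M.frame i (t + 1)).2 (by omega)]

/-- The word of a labelled grid with pins is valid. -/
theorem valid_allx (ι : A → W) {a0 : A} {π : V → Option A} {cl : V → St A}
    (M : GridModel G r k T L) (hk : 1 ≤ k) (hT : 1 ≤ T) (hC : ClsP G r a0 π cl)
    (hcon : ∀ v, v ≠ r → π v ≠ none → ∃ i j, L i j = some v ∧ (i = 1 ∨ j = 1 ∨ j = T)) :
    Vd ι a0 (k + 1) (allx G π L r k T) (fun _ => St.new) := by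
  unfold allx
  apply vd_bot ι (k + 1) _ le_rfl
  intro s' h1 _
  rw [bodyx_tail G π L r k T T le_rfl, Nat.sub_self]
  show Vd ι a0 (k + 1) (tailx G π L r k T T) s'
  have h2 := (vd_tail ι M hk hT hC hcon T le_rfl).2
  rw [Nat.sub_self] at h2
  apply h2
  intro i hi1 hi2
  rw [h1 i hi1 hi2, (M.frame i 0).2 (by omega)]
  exact (stl_pin (π := π) (l := some r) hC.root).symm

end Main

end Pool.Agent.Helper35.DInf
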