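import Mathlib
import Pool.Agent.Helper35.DInf.Main
import Pool.Agent.Helper35.DInf.ValidX
import Pool.Agent.Helper70.BLB.Contact

/-!
Positivity of the polynomial counting the extensions of a proper colouring of a vertex and at most
three of its neighbours in a planar supergraph, when the rest of the graph is bipartite.
-/

set_option autoImplicit false

namespace Pool.Agent.Helper35.DInf

open Pool.Agent.Helper70.BLB Polynomial

open Classical in
/-- The pins given by colours on a set. -/
noncomputable def piOf {V A : Type} (S : V → Prop) (c : V → A) (v : V) : Option A :=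
  if S v then some (c v) else none

theorem piOf_eq_some {V A : Type} {S : V → Prop} {c : V → A} {v : V} {a : A} :
    piOf S c v = some a ↔ S v ∧ c v = a := by
  unfold piOf
  split_ifs with h <;> simp [h]

theorem piOf_eq_none {V A : Type} {S : V → Prop} {c : V → A} {v : V} :
    piOf S c v = none ↔ ¬ S v := by
  unfold piOf
  split_ifs with h <;> simp [h]

/-- Positivity of the polynomial counting the extensions of a proper colouring of the root and at
most three of its neighbours in a planar supergraph, when the rest of the graph is bipartite. -/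
theorem ext_pos {V A : Type} [Fintype V] [Fintype A] [DecidableEq A] {G G' : SimpleGraph V}
    {f : V → ℝ × ℝ} {γ : V → V → ℝ → ℝ × ℝ} (D : Drawing G' f γ) (hG : G ≤ G') (r : V)
    (Nn : Finset V) (hN : Nn.card ≤ 3) (hadj : ∀ t ∈ Nn, G'.Adj t r)
    (c : V → A)
    (hc : ∀ u v, G.Adj u v → (u = r ∨ u ∈ Nn) → (v = r ∨ v ∈ Nn) → c u ≠ c v)
    (hbip : (G.induce {v | ¬ (v = r ∨ v ∈ Nn)}).Colorable 2)
    (hA : 2 ≤ Fintype.card A) {q : ℝ}
    (hq : (Fintype.card A : ℝ) + 1 + 1 / ((Fintype.card A : ℝ) - 1) ≤ q)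
    (p : ℝ[X])
    (hp : ∀ n : ℕ, p.eval ((Fintype.card A : ℝ) + n) =
      (Nat.card {F : G.Coloring (A ⊕ Fin n) // ∀ v, (v = r ∨ v ∈ Nn) → F v = Sum.inl (c v)} :
        ℝ)) :
    0 < p.eval q := by
  classical
  obtain ⟨k, T, L, hk, hT, M, hcon⟩ := exists_gridModel_contacts D hG r Nn hN hadj
  obtain ⟨col⟩ := hbip
  set π : V → Option A := piOf (fun v => v = r ∨ v ∈ Nn) c with hπ
  set cl : V → St A := fun v => if h : ¬ (v = r ∨ v ∈ Nn) then
    (if col ⟨v, h⟩ = 0 then St.pos else St.neg) else St.pos with hcl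
  have hC : ClsP G r (c r) π cl := by
    refine ⟨?_, ?_, ?_, ?_⟩
    · rw [hπ, piOf_eq_some]
      exact ⟨Or.inl rfl, rfl⟩
    · intro u v a b huv hu hv
      rw [hπ, piOf_eq_some] at hu hv
      rw [← hu.2, ← hv.2]
      exact hc u v huv hu.1 hv.1
    · intro v
      rw [hcl]
      dsimp only
      split_ifs <;> simp [St.isCl]
    · intro u v hu hv huv
      rw [hπ, piOf_eq_none] at hu hv
      have h1 := col.valid (v := ⟨u, hu⟩) (w := ⟨v, hv⟩) huv
      rw [hcl]
      dsimp only
      rw [dif_pos hu, dif_pos hv]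
      have h2 : ∀ x : Fin 2, x = 0 ∨ x = 1 := by decide
      rcases h2 (col ⟨u, hu⟩) with h3 | h3 <;> rcases h2 (col ⟨v, hv⟩) with h4 | h4 <;>
        rw [h3, h4] at h1 <;> first | exact absurd rfl h1 | (rw [h3, h4]; simp [St.opp])
  have hcon' : ∀ v, v ≠ r → π v ≠ none → ∃ i j, L i j = some v ∧ (i = 1 ∨ j = 1 ∨ j = T) := by
    intro v hv hv2
    have h3 : v = r ∨ v ∈ Nn := by
      by_contra h4
      exact hv2 (piOf_eq_none.2 h4)
    exact hcon v (h3.resolve_left hv)
  refine grid_posx M hT hC.root hcon' hA (valid_allx Sum.inl M hk hT hC hcon') hq p ?_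
  intro n
  rw [hp n]
  congr 1
  apply Nat.card_congr
  apply Equiv.subtypeEquivRight
  intro F
  constructor
  · intro h v a hva
    rw [hπ, piOf_eq_some] at hva
    rw [h v hva.1, hva.2]
  · intro h v hv
    exact h v (c v) (piOf_eq_some.2 ⟨hv, rfl⟩)

end Pool.Agent.Helper35.DInf
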